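import Pool.Agent.Lib.H53Toric.Assemble

/-!
# Monodromy groups of representations of a group
-/

set_option autoImplicit false
set_option linter.unusedSectionVars false
namespace Pool.Agent.H53Toric
open Module Matrix

variable {ι : Type*} [Fintype ι] [DecidableEq ι] {L : Type*} [Field L] {K : Type*} [Field K]
  [Algebra L K] {G : Type*} [Group G]

theorem img_one (ρ : G →* Matrix.GeneralLinearGroup ι L) (H : Subgroup G) :
    (1 : Matrix ι ι K) ∈ img K ρ H := by
  refine ⟨1, H.one_mem, ?_⟩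
  rw [map_one]
  simp

theorem img_mul (ρ : G →* Matrix.GeneralLinearGroup ι L) (H : Subgroup G) :
    ∀ a ∈ img K ρ H, ∀ b ∈ img K ρ H, a * b ∈ img K ρ H := by
  rintro _ ⟨σ, hσ, rfl⟩ _ ⟨τ, hτ, rfl⟩
  refine ⟨σ * τ, H.mul_mem hσ hτ, ?_⟩
  rw [map_mul, Units.val_mul, Matrix.map_mul]

theorem img_pow (ρ : G →* Matrix.GeneralLinearGroup ι L) (σ : G) (n : ℕ) :
    ((ρ (σ ^ n)).1.map (algebraMap L K)) = ((ρ σ).1.map (algebraMap L K)) ^ n := by
  rw [map_pow, Units.val_pow_eq_pow_val]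
  exact map_pow ((algebraMap L K).mapMatrix) (ρ σ).1 n

theorem img_inv (ρ : G →* Matrix.GeneralLinearGroup ι L) (σ : G) :
    ((ρ σ).1.map (algebraMap L K)) * ((ρ σ⁻¹).1.map (algebraMap L K)) = 1 := by
  rw [← Matrix.map_mul, ← Units.val_mul, ← map_mul, mul_inv_cancel, map_one]
  simp

theorem img_inv' (ρ : G →* Matrix.GeneralLinearGroup ι L) (σ : G) :
    ((ρ σ⁻¹).1.map (algebraMap L K)) * ((ρ σ).1.map (algebraMap L K)) = 1 := by
  rw [← Matrix.map_mul, ← Units.val_mul, ← map_mul, inv_mul_cancel, map_one]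
  simp

/-- The closure is covered by cosets of the closure of a finite index subgroup. -/
theorem zar_cover (ρ : G →* Matrix.GeneralLinearGroup ι L) (H : Subgroup G) [H.FiniteIndex]
    {x : Matrix ι ι K} (hx : x ∈ zar (img K ρ ⊤)) :
    ∃ q : G ⧸ H, ((ρ q.out⁻¹).1.map (algebraMap L K)) * x ∈ zar (img K ρ H) := by
  classical
  have : Fintype (G ⧸ H) := Fintype.ofFinite _
  by_contra hcon
  push Not at hcon
  have h1 : ∀ q : G ⧸ H, ∃ f : MvPolynomial (ι × ι) K, (∀ s ∈ img K ρ H, ev s f = 0) ∧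
      ev (((ρ q.out⁻¹).1.map (algebraMap L K)) * x) f ≠ 0 := by
    intro q
    have := hcon q
    simp only [zar, Set.mem_ofPred_eq, not_forall] at this
    obtain ⟨f, hf, hf'⟩ := this
    exact ⟨f, hf, hf'⟩
  choose f hf hf' using h1
  have h2 := hx (∏ q : G ⧸ H, subL ((ρ q.out⁻¹).1.map (algebraMap L K)) (f q)) (by
    rintro _ ⟨τ, -, rfl⟩
    rw [map_prod]
    apply Finset.prod_eq_zero (Finset.mem_univ (τ : G ⧸ H))
    rw [ev_subL]
    apply hf
    refine ⟨(τ : G ⧸ H).out⁻¹ * τ, ?_, ?_⟩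
    · rw [← QuotientGroup.eq, QuotientGroup.out_eq']
    · rw [map_mul, Units.val_mul, Matrix.map_mul])
  rw [map_prod, Finset.prod_eq_zero_iff] at h2
  obtain ⟨q, -, hq⟩ := h2
  rw [ev_subL] at hq
  exact hf' q hq

/-- Lines through `1` with infinitely many points in the closure live in the closure of every
subgroup of finite index. -/
theorem line_finite [CharZero K] (ρ : G →* Matrix.GeneralLinearGroup ι L) (H : Subgroup G)
    [H.FiniteIndex] {h : Matrix ι ι K} {T : Set K} (hT : T.Infinite)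
    (hh : ∀ t ∈ T, 1 + t • h ∈ zar (img K ρ ⊤)) (t : K) : 1 + t • h ∈ zar (img K ρ H) := by
  obtain ⟨q, hq⟩ : ∃ q : G ⧸ H, {t : K | ((ρ q.out⁻¹).1.map (algebraMap L K)) +
      t • (((ρ q.out⁻¹).1.map (algebraMap L K)) * h) ∈ zar (img K ρ H)}.Infinite := by
    by_contra hcon
    have hcon : ∀ q : G ⧸ H, {t : K | ((ρ q.out⁻¹).1.map (algebraMap L K)) +
        t • (((ρ q.out⁻¹).1.map (algebraMap L K)) * h) ∈ zar (img K ρ H)}.Finite := by
      intro q
      by_contra h1
      exact hcon ⟨q, h1⟩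
    have hfin : (⋃ q : G ⧸ H, {t : K | ((ρ q.out⁻¹).1.map (algebraMap L K)) +
      t • (((ρ q.out⁻¹).1.map (algebraMap L K)) * h) ∈ zar (img K ρ H)}).Finite :=
      Set.finite_iUnion hcon
    apply hT
    apply hfin.subset
    intro t ht
    obtain ⟨q, hq⟩ := zar_cover ρ H (hh t ht)
    rw [Set.mem_iUnion]
    refine ⟨q, ?_⟩
    rw [mul_add, mul_one, mul_smul_comm] at hq
    exact hq
  have hline := line_subset_zar hq (fun t ht => ht)
  set g := (ρ q.out).1.map (algebraMap L K) with hg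
  set g' := (ρ q.out⁻¹).1.map (algebraMap L K) with hg'
  have hgg' : g * g' = 1 := img_inv ρ q.out
  have hg'0 : g' ∈ zar (img K ρ H) := by
    have := hline 0
    rwa [zero_smul, add_zero] at this
  obtain ⟨m, hm0, -, hm⟩ := Subgroup.exists_pow_mem_of_index_ne_zero
    (H := H) (Subgroup.FiniteIndex.index_ne_zero) q.out
  have hgm : g ^ m ∈ zar (img K ρ H) :=
    subset_zar _ ⟨q.out ^ m, hm, (img_pow ρ q.out m).symm⟩
  have hpow : ∀ n : ℕ, g' ^ n ∈ zar (img K ρ H) := by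
    intro n
    induction n with
    | zero => rw [pow_zero]; exact subset_zar _ (img_one ρ H)
    | succ n ih => rw [pow_succ]; exact zar_mul (img_mul ρ H) ih hg'0
  have hcancel : ∀ n : ℕ, g ^ (n + 1) * g' ^ n = g := by
    intro n
    induction n with
    | zero => simp
    | succ n ih =>
      calc g ^ (n + 1 + 1) * g' ^ (n + 1) = g ^ (n + 1) * (g * g') * g' ^ n := by
            rw [pow_succ g (n + 1), pow_succ' g' n]; noncomm_ring
        _ = g := by rw [hgg', mul_one, ih]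
  have hgz : g ∈ zar (img K ρ H) := by
    obtain ⟨n, rfl⟩ : ∃ n, m = n + 1 := ⟨m - 1, by omega⟩
    rw [← hcancel n]
    exact zar_mul (img_mul ρ H) hgm (hpow n)
  have h1 := zar_mul (img_mul ρ H) hgz (hline t)
  have e : g * (g' + t • (g' * h)) = 1 + t • h := by
    rw [mul_add, mul_smul_comm, ← mul_assoc, hgg', one_mul]
  rwa [e] at h1

/-- One parameter groups of projectors live in the closure of every subgroup of finite
index. -/
theorem hodgeProj_finite [CharZero K] (ρ : G →* Matrix.GeneralLinearGroup ι L) (H : Subgroup G)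
    [H.FiniteIndex] {h : Matrix ι ι K} (hh : h ∈ hodgeProj (img K ρ ⊤)) :
    h ∈ hodgeProj (img K ρ H) := by
  refine ⟨hh.1, fun t _ => ?_⟩
  refine line_finite ρ H (T := {t : K | t ≠ -1})
    ((Set.finite_singleton (-1 : K)).infinite_compl) ?_ (t - 1)
  intro t ht
  have h1 := hh.2 (t + 1) (by
    intro h0
    exact ht (eq_neg_of_add_eq_zero_left h0))
  rwa [add_sub_cancel_right] at h1

/-- Stability of a subspace passes to the Zariski closure. -/
theorem zar_stable {S : Set (Matrix ι ι K)} {W : Submodule K (ι → K)}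
    (hW : ∀ s ∈ S, ∀ w ∈ W, s *ᵥ w ∈ W) {x : Matrix ι ι K} (hx : x ∈ zar S) :
    ∀ w ∈ W, x *ᵥ w ∈ W := by
  intro w hw
  by_contra hcon
  obtain ⟨f, hf, hfW⟩ := Submodule.exists_le_ker_of_notMem hcon
  let F : MvPolynomial (ι × ι) K :=
    ∑ i, ∑ j, MvPolynomial.X (i, j) * MvPolynomial.C (w j * f (Pi.single i 1))
  have hF : ∀ y : Matrix ι ι K, ev y F = f (y *ᵥ w) := by
    intro y
    have h1 : y *ᵥ w = ∑ i, (∑ j, y i j * w j) • (Pi.single i 1 : ι → K) := by
      ext k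
      simp [Matrix.mulVec, dotProduct, Pi.single_apply]
    rw [h1, map_sum]
    simp only [F, map_sum, map_mul, ev_X, ev_C, map_smul, smul_eq_mul, Finset.sum_mul, mul_assoc]
  apply hf
  rw [← hF]
  apply hx
  intro s hs
  rw [hF]
  exact hfW (hW s hs w hw)

theorem hodge_of_pink {S S₀ : Set (Matrix ι ι K)} (hS₀ : S₀ ⊆ zar (hodgeMonoid S : Set _))
    (hirr : ∀ W : Submodule K (ι → K), (∀ s ∈ S₀, ∀ w ∈ W, s *ᵥ w ∈ W) → W = ⊥ ∨ W = ⊤)
    (W : Submodule K (ι → K)) (hW : ∀ h ∈ hodgeProj S, ∀ w ∈ W, h *ᵥ w ∈ W) :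
    W = ⊥ ∨ W = ⊤ := by
  apply hirr
  intro s hs
  refine zar_stable (S := (hodgeMonoid S : Set _)) ?_ (hS₀ hs)
  intro m hm
  refine Submonoid.closure_induction (motive := fun m _ => ∀ w ∈ W, m *ᵥ w ∈ W) ?_ ?_ ?_ hm
  · rintro m ⟨h, hh, t, -, rfl⟩ w hw
    rw [Matrix.add_mulVec, Matrix.one_mulVec, Matrix.smul_mulVec]
    exact W.add_mem hw (W.smul_mem _ (hW h hh w hw))
  · intro w hw
    rw [Matrix.one_mulVec]; exact hw
  · intro a b _ _ ha hb w hw
    rw [← Matrix.mulVec_mulVec]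
    exact ha _ (hb w hw)

end Pool.Agent.H53Toric
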