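import Pool.Agent.Lib.H53Toric.Indep
import Pool.Agent.Lib.H53Toric.Monodromy

/-!
# The monodromy group of a representation with an independent eigenvalue
-/

set_option autoImplicit false
set_option linter.unusedSectionVars false
namespace Pool.Agent.H53Toric
open Module Matrix

/-- A representation as matrices over an extension field. -/
def rep {ι : Type*} [Fintype ι] [DecidableEq ι] {L : Type*} [Field L] (K : Type*) [Field K]
    [Algebra L K] {G : Type*} [Group G] (ρ : G →* Matrix.GeneralLinearGroup ι L)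
    (H : Subgroup G) : H →* Matrix ι ι K where
  toFun x := (ρ x.1).1.map (algebraMap L K)
  map_one' := by
    rw [OneMemClass.coe_one, map_one]
    simp
  map_mul' := by
    intro x y
    rw [Subgroup.coe_mul, map_mul, Units.val_mul, Matrix.map_mul]

theorem range_rep {ι : Type*} [Fintype ι] [DecidableEq ι] {L : Type*} [Field L] (K : Type*)
    [Field K] [Algebra L K] {G : Type*} [Group G] (ρ : G →* Matrix.GeneralLinearGroup ι L)
    (H : Subgroup G) : Set.range (rep K ρ H) = img K ρ H := by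
  ext m
  constructor
  · rintro ⟨x, rfl⟩
    exact ⟨x.1, x.2, rfl⟩
  · rintro ⟨σ, hσ, rfl⟩
    exact ⟨⟨σ, hσ⟩, rfl⟩

theorem gram_basic {ι : Type*} [Fintype ι] [DecidableEq ι] {ψ : Matrix ι ι ℚ}
    (hψ : ψᵀ = -ψ) (hψ0 : ψ.det ≠ 0) (K : Type*) [Field K] [CharZero K] :
    (ψ.map (algebraMap ℚ K))ᵀ = -ψ.map (algebraMap ℚ K) ∧
      IsUnit (ψ.map (algebraMap ℚ K)).det := by
  constructor
  · rw [← Matrix.transpose_map, hψ]
    ext i j
    simp
  · have h1 : (ψ.map (algebraMap ℚ K)).det = algebraMap ℚ K ψ.det :=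
      (RingHom.map_det (algebraMap ℚ K) ψ).symm
    rw [h1, isUnit_iff_ne_zero]
    exact (map_ne_zero _).2 hψ0

theorem sim_map {ι : Type*} [Fintype ι] [DecidableEq ι] {ψ : Matrix ι ι ℚ} {L : Type*} [Field L]
    [CharZero L] {K : Type*} [Field K] [CharZero K] [Algebra L K] {x : Matrix ι ι L} {c : L}
    (hc : xᵀ * ψ.map (algebraMap ℚ L) * x = c • ψ.map (algebraMap ℚ L)) :
    (x.map (algebraMap L K))ᵀ * ψ.map (algebraMap ℚ K) * x.map (algebraMap L K) =
      algebraMap L K c • ψ.map (algebraMap ℚ K) := by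
  have h1 := congrArg (fun m : Matrix ι ι L => m.map (algebraMap L K)) hc
  have h2 : (ψ.map (algebraMap ℚ L)).map (algebraMap L K) = ψ.map (algebraMap ℚ K) := by
    ext i j
    simp
  have h3 : (c • ψ.map (algebraMap ℚ L)).map (algebraMap L K) =
      algebraMap L K c • ψ.map (algebraMap ℚ K) := by
    rw [← h2]
    ext i j
    simp
  simp only [Matrix.map_mul, Matrix.transpose_map] at h1
  rw [h3, h2] at h1
  exact h1

theorem monodromy_indep {ι : Type*} [Fintype ι] [DecidableEq ι] {ψ : Matrix ι ι ℚ}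
    (hψ : ψᵀ = -ψ) (hψ0 : ψ.det ≠ 0) {L : Type*} [Field L] [CharZero L] {K : Type*} [Field K]
    [Algebra L K] [IsAlgClosed K] [CharZero K] {G : Type*} [Group G]
    (ρ : G →* Matrix.GeneralLinearGroup ι L)
    (sim : ∀ σ : G, ∃ c : L, (ρ σ).1ᵀ * ψ.map (algebraMap ℚ L) * (ρ σ).1 =
      c • ψ.map (algebraMap ℚ L))
    (irr : ∀ H : Subgroup G, H.FiniteIndex → ∀ W : Submodule K (ι → K),
      (∀ s ∈ img K ρ H, ∀ w ∈ W, s *ᵥ w ∈ W) → W = ⊥ ∨ W = ⊤)
    {σ : G} {P Q : Matrix ι ι K} {d : ι → Kˣ} {c : Kˣ} {i₁ i₂ : ι} {B : Subgroup Kˣ}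
    (hQP : Q * P = 1) (hPQ : P * Q = 1)
    (hσ : (ρ σ).1.map (algebraMap L K) = P * Matrix.diagonal (fun k => (d k : K)) * Q)
    (hsim : ((ρ σ).1.map (algebraMap L K))ᵀ * ψ.map (algebraMap ℚ K) *
      (ρ σ).1.map (algebraMap L K) = (c : K) • ψ.map (algebraMap ℚ K))
    (hroot : ∀ n : ℕ, n ≠ 0 → c ^ n ≠ 1)
    (h12 : d i₁ * d i₂ = c) (hne : i₁ ≠ i₂) (hc : c ∈ B) (hd : ∀ k, k ≠ i₁ → k ≠ i₂ → d k ∈ B)
    (ha : ∀ n : ℤ, n ≠ 0 → d i₁ ^ n ∉ B)
    (H : Subgroup G) (hH : H.FiniteIndex) : monodromy K ρ H = simil K ψ := by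
  obtain ⟨hJ, hdet⟩ := gram_basic hψ hψ0 K
  set J : Matrix ι ι K := ψ.map (algebraMap ℚ K) with hJdef
  have hι : Nonempty ι := ⟨i₁⟩
  obtain ⟨k, l, hkl⟩ : ∃ k l, J k l ≠ 0 := by
    by_contra hcon
    push Not at hcon
    have : J = 0 := by
      ext i j
      exact hcon i j
    rw [this, Matrix.det_zero] at hdet
    exact not_isUnit_zero hdet
  have hsimG : ∀ x : G, ∃ c : K, ((ρ x).1.map (algebraMap L K))ᵀ * J *
      (ρ x).1.map (algebraMap L K) = c • J := by
    intro x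
    obtain ⟨c, hc⟩ := sim x
    exact ⟨_, sim_map hc⟩
  obtain ⟨m, hm0, -, hm⟩ := Subgroup.exists_pow_mem_of_index_ne_zero
    (H := H) (Subgroup.FiniteIndex.index_ne_zero) σ
  have hpow : ∀ n : ℕ, (((ρ σ).1.map (algebraMap L K)) ^ n)ᵀ * J *
      ((ρ σ).1.map (algebraMap L K)) ^ n = ((c ^ n : Kˣ) : K) • J := by
    intro n
    induction n with
    | zero => simp
    | succ n ih =>
      rw [pow_succ, Matrix.transpose_mul]
      set x := (ρ σ).1.map (algebraMap L K)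
      calc xᵀ * (x ^ n)ᵀ * J * (x ^ n * x) = xᵀ * ((x ^ n)ᵀ * J * x ^ n) * x := by
            noncomm_ring
        _ = ((c ^ n : Kˣ) : K) • (xᵀ * J * x) := by rw [ih, mul_smul_comm, smul_mul_assoc]
        _ = _ := by rw [hsim, smul_smul, pow_succ, Units.val_mul]
  have hx₀ : rep K ρ H ⟨σ ^ m, hm⟩ =
      P * Matrix.diagonal (fun k => ((d k ^ m : Kˣ) : K)) * Q := by
    change (ρ (σ ^ m)).1.map (algebraMap L K) = _
    rw [img_pow, hσ, diag_pow hQP hPQ]
    simp only [Units.val_pow_eq_pow_val]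
  ext x
  constructor
  · rintro ⟨hx, hxz⟩
    refine ⟨hx, zar_sim hkl ?_ hxz⟩
    rintro _ ⟨y, -, rfl⟩
    exact hsimG y
  · rintro ⟨hx, c', hc'⟩
    refine ⟨hx, ?_⟩
    rw [← range_rep]
    refine gsp_indep hJ hdet (rep K ρ H) (x₀ := ⟨σ ^ m, hm⟩) (d := fun k => d k ^ m)
      (c := c ^ m) (i₁ := i₁) (i₂ := i₂) (B := B) ?_ ?_ hQP hPQ hx₀ ?_ ?_ ?_ hne ?_ ?_ ?_
      (isUnit_iff_ne_zero.2 hx) hc'
    · intro y
      exact hsimG y.1
    · intro H' hH' W hW
      have : (H'.map H.subtype).FiniteIndex := by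
        rw [Subgroup.finiteIndex_iff, Subgroup.index_map_subtype]
        exact mul_ne_zero hH'.index_ne_zero hH.index_ne_zero
      apply irr _ this W
      rintro _ ⟨_, ⟨y, hy, rfl⟩, rfl⟩ w hw
      exact hW y hy w hw
    · change ((ρ (σ ^ m)).1.map (algebraMap L K))ᵀ * J * (ρ (σ ^ m)).1.map (algebraMap L K) = _
      rw [img_pow]
      exact hpow m
    · intro n hn
      rw [← pow_mul]
      exact hroot _ (mul_ne_zero hm0.ne' hn)
    · rw [← mul_pow, h12]
    · exact B.pow_mem hc m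
    · intro k h1 h2
      exact B.pow_mem (hd k h1 h2) m
    · intro n hn
      rw [← zpow_natCast, ← _root_.zpow_mul]
      exact ha _ (mul_ne_zero (Int.natCast_ne_zero.2 hm0.ne') hn)

end Pool.Agent.H53Toric
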