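import Mathlib

/-!
# The symplectic group is generated by transvections
-/

set_option autoImplicit false
set_option linter.unusedSectionVars false
namespace Pool.Agent.H53Toric
open Module

variable {K : Type*} [Field K] {V : Type*} [AddCommGroup V] [Module K V]

/-- The nilpotent part of a transvection. -/
def trv (ω : V →ₗ[K] V →ₗ[K] K) (d : V) : Module.End K V :=
  (ω.flip d).smulRight d

theorem trv_apply (ω : V →ₗ[K] V →ₗ[K] K) (d x : V) : trv ω d x = ω x d • d := rfl

theorem trv_sq {ω : V →ₗ[K] V →ₗ[K] K} (halt : ∀ v, ω v v = 0) (d : V) :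
    trv ω d * trv ω d = 0 := by
  ext x
  change trv ω d (trv ω d x) = 0
  rw [trv_apply, trv_apply, map_smul, LinearMap.smul_apply, halt, smul_zero, zero_smul]

/-- The fixed space. -/
def fixsp (x : Module.End K V) : Submodule K V := LinearMap.ker (x - 1)

theorem mem_fixsp {x : Module.End K V} {v : V} : v ∈ fixsp x ↔ x v = v := by
  rw [fixsp, LinearMap.mem_ker, LinearMap.sub_apply, sub_eq_zero]; rfl

section

variable [FiniteDimensional K V] {ω : V →ₗ[K] V →ₗ[K] K} (halt : ∀ v, ω v v = 0)
  (hnd : ∀ v, (∀ w, ω w v = 0) → v = 0) {Z : Set (Module.End K V)} (h1 : (1 : Module.End K V) ∈ Z)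
  (hmul : ∀ a ∈ Z, ∀ b ∈ Z, a * b ∈ Z) (htrv : ∀ (a : K) (d : V), 1 + a • trv ω d ∈ Z)

include halt in
theorem omega_antisymm (v w : V) : ω v w = -ω w v := by
  have h := halt (v + w)
  simp only [map_add, LinearMap.add_apply, halt, zero_add, add_zero] at h
  linear_combination h

include halt in
theorem trv_isom (a : K) (d v w : V) :
    ω ((1 + a • trv ω d) v) ((1 + a • trv ω d) w) = ω v w := by
  simp only [LinearMap.add_apply, LinearMap.smul_apply, Module.End.one_apply, trv_apply, map_add,
    map_smul, halt, smul_eq_mul]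
  rw [omega_antisymm halt d w]
  ring

include halt in
theorem trv_inv (a : K) (d : V) : (1 + (-a) • trv ω d) * (1 + a • trv ω d) = 1 := by
  have e : (1 + (-a) • trv ω d) * (1 + a • trv ω d) = 1 - (a * a) • (trv ω d * trv ω d) := by
    rw [add_mul, mul_add, mul_add, smul_mul_smul_comm]
    simp only [one_mul, mul_one]
    module
  rw [e, trv_sq halt, smul_zero, sub_zero]

include halt in
/-- One step: the fixed space grows. -/
theorem step_a {x : Module.End K V} (hx : ∀ v w, ω (x v) (x w) = ω v w) {v : V}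
    (hv : ω v (x v) ≠ 0) : ∃ (a : K) (d : V), fixsp x < fixsp ((1 + a • trv ω d) * x) := by
  refine ⟨-(ω v (x v))⁻¹, x v - v, ?_⟩
  have hfix : ∀ z ∈ fixsp x, ω z (x v - v) = 0 := by
    intro z hz
    rw [mem_fixsp] at hz
    rw [map_sub, sub_eq_zero]
    nth_rw 1 [← hz]
    rw [hx]
  refine lt_of_le_of_ne ?_ ?_
  · intro z hz
    have hz' := hz
    rw [mem_fixsp] at hz ⊢
    change (1 + -(ω v (x v))⁻¹ • trv ω (x v - v)) (x z) = z
    rw [hz, LinearMap.add_apply, LinearMap.smul_apply, trv_apply, hfix z hz', zero_smul,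
      smul_zero, add_zero]
    rfl
  · intro heq
    have hvf : v ∈ fixsp ((1 + -(ω v (x v))⁻¹ • trv ω (x v - v)) * x) := by
      rw [mem_fixsp]
      change (1 + -(ω v (x v))⁻¹ • trv ω (x v - v)) (x v) = v
      have e : ω (x v) (x v - v) = ω v (x v) := by
        rw [map_sub, halt, zero_sub, ← omega_antisymm halt]
      rw [LinearMap.add_apply, LinearMap.smul_apply, trv_apply, e, smul_smul, neg_mul,
        inv_mul_cancel₀ hv, Module.End.one_apply]
      module
    rw [← heq, mem_fixsp] at hvf
    rw [hvf, halt] at hv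
    exact hv rfl

include halt hnd in
/-- If all `ω v (x v)` vanish, a transvection changes this without shrinking the fixed space. -/
theorem step_b {x : Module.End K V} (hx : ∀ v w, ω (x v) (x w) = ω v w)
    (hall : ∀ v, ω v (x v) = 0) (hne : x ≠ 1) : ∃ (d : V), fixsp x ≤
      fixsp ((1 + (1 : K) • trv ω d) * x) ∧ ∃ v, ω v (((1 + (1 : K) • trv ω d) * x) v) ≠ 0 := by
  obtain ⟨v₀, hv₀⟩ : ∃ v, x v ≠ v := by
    by_contra hcon
    push Not at hcon
    exact hne (LinearMap.ext hcon)
  have hd0 : x v₀ - v₀ ≠ 0 := sub_ne_zero.2 hv₀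
  have hinj : Function.Injective x := by
    rw [injective_iff_map_eq_zero]
    intro v hv
    apply hnd
    intro w
    rw [← hx, hv, map_zero]
  have hsurj : Function.Surjective x := LinearMap.injective_iff_surjective.1 hinj
  refine ⟨x v₀ - v₀, ?_, ?_⟩
  · intro z hz
    have hz' := hz
    rw [mem_fixsp] at hz ⊢
    change (1 + (1 : K) • trv ω (x v₀ - v₀)) (x z) = z
    have : ω z (x v₀ - v₀) = 0 := by
      rw [map_sub, sub_eq_zero]
      nth_rw 1 [← hz]
      rw [hx]
    rw [hz, LinearMap.add_apply, LinearMap.smul_apply, trv_apply, this, zero_smul,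
      smul_zero, add_zero]
    rfl
  · set d := x v₀ - v₀ with hd
    obtain ⟨a, ha⟩ : ∃ a, ω a d ≠ 0 := by
      by_contra hcon
      push Not at hcon
      exact hd0 (hnd d hcon)
    obtain ⟨b, hb⟩ := hsurj a
    have hb' : ω (x b) d ≠ 0 := by rw [hb]; exact ha
    have key : ∃ v, ω v d ≠ 0 ∧ ω (x v) d ≠ 0 := by
      by_cases h2 : ω (x a) d = 0
      · by_cases h3 : ω b d = 0
        · refine ⟨a + b, ?_, ?_⟩
          · rw [map_add, LinearMap.add_apply, h3, add_zero]; exact ha
          · rw [map_add, map_add, LinearMap.add_apply, h2, zero_add]; exact hb'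
        · exact ⟨b, h3, hb'⟩
      · exact ⟨a, ha, h2⟩
    obtain ⟨v, hv1, hv2⟩ := key
    refine ⟨v, ?_⟩
    change ω v ((1 + (1 : K) • trv ω d) (x v)) ≠ 0
    rw [LinearMap.add_apply, LinearMap.smul_apply, trv_apply, map_add, Module.End.one_apply,
      hall, zero_add, map_smul, map_smul, smul_eq_mul, smul_eq_mul, one_mul]
    exact mul_ne_zero hv2 hv1

include halt hnd h1 hmul htrv in
/-- The symplectic group is generated by transvections. -/
theorem sp_mem (n : ℕ) : ∀ x : Module.End K V, (∀ v w, ω (x v) (x w) = ω v w) →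
    finrank K V ≤ finrank K (fixsp x) + n → x ∈ Z := by
  induction n with
  | zero =>
    intro x _ hn
    rw [add_zero] at hn
    have : fixsp x = ⊤ := Submodule.eq_top_of_finrank_eq (le_antisymm (Submodule.finrank_le _) hn)
    have hx1 : x = 1 := by
      ext v
      have : v ∈ fixsp x := by rw [this]; trivial
      exact mem_fixsp.1 this
    rw [hx1]; exact h1
  | succ n ih =>
    intro x hx hn
    by_cases hne : x = 1
    · rw [hne]; exact h1
    -- from a larger fixed space
    have hback : ∀ (a : K) (d : V) (y : Module.End K V), (1 + a • trv ω d) * y ∈ Z → y ∈ Z := by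
      intro a d y hy
      have := hmul _ (htrv (-a) d) _ hy
      rwa [← mul_assoc, trv_inv halt, one_mul] at this
    have hpres : ∀ (a : K) (d : V) (y : Module.End K V), (∀ v w, ω (y v) (y w) = ω v w) →
        ∀ v w, ω (((1 + a • trv ω d) * y) v) (((1 + a • trv ω d) * y) w) = ω v w := by
      intro a d y hy v w
      change ω ((1 + a • trv ω d) (y v)) ((1 + a • trv ω d) (y w)) = _
      rw [trv_isom halt, hy]
    by_cases hall : ∀ v, ω v (x v) = 0
    · obtain ⟨d, hd, v, hv⟩ := step_b halt hnd hx hall hne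
      obtain ⟨a, d', hlt⟩ := step_a halt (hpres 1 d x hx) hv
      apply hback 1 d x
      apply hback a d'
      apply ih _ (hpres a d' _ (hpres 1 d x hx))
      have := Submodule.finrank_lt_finrank_of_lt (lt_of_le_of_lt hd hlt)
      omega
    · push Not at hall
      obtain ⟨v, hv⟩ := hall
      obtain ⟨a, d', hlt⟩ := step_a halt hx hv
      apply hback a d'
      apply ih _ (hpres a d' _ hx)
      have := Submodule.finrank_lt_finrank_of_lt hlt
      omega

end

end Pool.Agent.H53Toric
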