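import Pool.Agent.Lib.H53Toric.Defs

/-!
# Zariski closure of a set of matrices and its Lie algebra
-/

set_option autoImplicit false
set_option linter.unusedSectionVars false
namespace Pool.Agent.H53Toric
open MvPolynomial Matrix

variable {ι : Type*} [Fintype ι] [DecidableEq ι] {K : Type*} [Field K]

theorem ev_X (x : Matrix ι ι K) (p : ι × ι) : ev x (X p) = x p.1 p.2 := by
  simp [ev]

theorem ev_C (x : Matrix ι ι K) (c : K) : ev x (C c) = c := by
  simp [ev]

theorem subset_zar (S : Set (Matrix ι ι K)) : S ⊆ zar S := fun _ hx _ hf => hf _ hx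

theorem zar_mono {S T : Set (Matrix ι ι K)} (h : S ⊆ T) : zar S ⊆ zar T :=
  fun _ hx f hf => hx f fun s hs => hf s (h hs)

theorem zar_subset_zar {S T : Set (Matrix ι ι K)} (h : S ⊆ zar T) : zar S ⊆ zar T :=
  fun _ hx f hf => hx f fun _ hs => h hs f hf

/-- Substitution `x ↦ a x`. -/
noncomputable def subL (a : Matrix ι ι K) : MvPolynomial (ι × ι) K →ₐ[K] MvPolynomial (ι × ι) K :=
  aeval (fun p => ∑ k, C (a p.1 k) * X (k, p.2))

/-- Substitution `x ↦ x a`. -/
noncomputable def subR (a : Matrix ι ι K) : MvPolynomial (ι × ι) K →ₐ[K] MvPolynomial (ι × ι) K :=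
  aeval (fun p => ∑ k, X (p.1, k) * C (a k p.2))

theorem ev_subL (a x : Matrix ι ι K) (f : MvPolynomial (ι × ι) K) :
    ev x (subL a f) = ev (a * x) f := by
  have : (ev x).comp (subL a) = ev (a * x) := by
    apply MvPolynomial.algHom_ext
    intro p
    rw [AlgHom.comp_apply, subL, aeval_X, map_sum, ev_X, Matrix.mul_apply]
    apply Finset.sum_congr rfl
    intro k _
    rw [map_mul, ev_C, ev_X]
  exact congrArg (fun φ => φ f) this

theorem ev_subR (a x : Matrix ι ι K) (f : MvPolynomial (ι × ι) K) :
    ev x (subR a f) = ev (x * a) f := by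
  have : (ev x).comp (subR a) = ev (x * a) := by
    apply MvPolynomial.algHom_ext
    intro p
    rw [AlgHom.comp_apply, subR, aeval_X, map_sum, ev_X, Matrix.mul_apply]
    apply Finset.sum_congr rfl
    intro k _
    rw [map_mul, ev_C, ev_X]
  exact congrArg (fun φ => φ f) this

theorem zar_mul {S : Set (Matrix ι ι K)} (hS : ∀ a ∈ S, ∀ b ∈ S, a * b ∈ S) {x y : Matrix ι ι K}
    (hx : x ∈ zar S) (hy : y ∈ zar S) : x * y ∈ zar S := by
  have h1 : ∀ a ∈ S, ∀ y ∈ zar S, a * y ∈ zar S := by
    intro a ha y hy f hf
    rw [← ev_subL]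
    apply hy
    intro s hs
    rw [ev_subL]
    exact hf _ (hS a ha s hs)
  intro f hf
  rw [← ev_subR]
  apply hx
  intro s hs
  rw [ev_subR]
  exact h1 s hs y hy f hf

/-- Restriction of a polynomial function to the line `x + t y`. -/
noncomputable def lin (x y : Matrix ι ι K) : MvPolynomial (ι × ι) K →ₐ[K] Polynomial K :=
  aeval (fun p => Polynomial.C (x p.1 p.2) + Polynomial.X * Polynomial.C (y p.1 p.2))

theorem eval_lin (x y : Matrix ι ι K) (t : K) (f : MvPolynomial (ι × ι) K) :
    (lin x y f).eval t = ev (x + t • y) f := by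
  have : (Polynomial.aeval t).comp (lin x y) = ev (x + t • y) := by
    apply MvPolynomial.algHom_ext
    intro p
    rw [AlgHom.comp_apply, lin, aeval_X, ev_X]
    simp [Matrix.add_apply, Matrix.smul_apply]
    ring
  have h2 := congrArg (fun φ => φ f) this
  simp only [AlgHom.comp_apply] at h2
  rw [← h2, Polynomial.coe_aeval_eq_eval]

/-- The left invariant derivation attached to `A`. -/
noncomputable def der (A : Matrix ι ι K) :
    Derivation K (MvPolynomial (ι × ι) K) (MvPolynomial (ι × ι) K) :=
  mkDerivation K (fun p => ∑ k, X (p.1, k) * C (A k p.2))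

theorem der_X (A : Matrix ι ι K) (p : ι × ι) :
    der A (X p) = ∑ k, X (p.1, k) * C (A k p.2) := by
  rw [der, mkDerivation_X]

theorem der_add (A B : Matrix ι ι K) (f : MvPolynomial (ι × ι) K) :
    der (A + B) f = der A f + der B f := by
  have : der (A + B) = der A + der B := by
    apply MvPolynomial.derivation_ext
    intro p
    rw [Derivation.add_apply, der_X, der_X, der_X, ← Finset.sum_add_distrib]
    apply Finset.sum_congr rfl
    intro k _
    rw [Matrix.add_apply, map_add, mul_add]
  rw [this, Derivation.add_apply]

theorem der_smul (c : K) (A : Matrix ι ι K) (f : MvPolynomial (ι × ι) K) :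
    der (c • A) f = c • der A f := by
  have : der (c • A) = c • der A := by
    apply MvPolynomial.derivation_ext
    intro p
    rw [Derivation.smul_apply, der_X, der_X, Finset.smul_sum]
    apply Finset.sum_congr rfl
    intro k _
    rw [Matrix.smul_apply, smul_eq_mul, map_mul, MvPolynomial.smul_eq_C_mul]
    ring
  rw [this, Derivation.smul_apply]

theorem der_zero (f : MvPolynomial (ι × ι) K) : der (0 : Matrix ι ι K) f = 0 := by
  have := der_smul (0 : K) (0 : Matrix ι ι K) f
  simpa using this

theorem der_comm (A B : Matrix ι ι K) (f : MvPolynomial (ι × ι) K) :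
    der A (der B f) - der B (der A f) = der (A * B - B * A) f := by
  have : ⁅der A, der B⁆ = der (A * B - B * A) := by
    apply MvPolynomial.derivation_ext
    intro p
    rw [Derivation.commutator_apply, der_X, der_X, der_X, map_sum, map_sum]
    simp only [Derivation.leibniz, der_X, Matrix.sub_apply, Matrix.mul_apply, map_sub, map_sum,
      map_mul, smul_eq_mul, mul_sub, Finset.mul_sum, Finset.sum_sub_distrib, derivation_C,
      mul_zero, zero_add]
    congr 1
    · rw [Finset.sum_comm]
      apply Finset.sum_congr rfl
      intro k _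
      apply Finset.sum_congr rfl
      intro m _
      ring
    · rw [Finset.sum_comm]
      apply Finset.sum_congr rfl
      intro k _
      apply Finset.sum_congr rfl
      intro m _
      ring
  rw [← this, Derivation.commutator_apply]

/-- The Lie algebra of the Zariski closure of `S` (left invariant vector fields). -/
noncomputable def zlie (S : Set (Matrix ι ι K)) : Submodule K (Matrix ι ι K) where
  carrier := {A | ∀ f : MvPolynomial (ι × ι) K, (∀ s ∈ S, ev s f = 0) →
    ∀ s ∈ S, ev s (der A f) = 0}
  add_mem' := by
    intro A B hA hB f hf s hs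
    rw [der_add, map_add, hA f hf s hs, hB f hf s hs, add_zero]
  zero_mem' := by
    intro f _ s _
    rw [der_zero, map_zero]
  smul_mem' := by
    intro c A hA f hf s hs
    rw [der_smul, map_smul, hA f hf s hs, smul_zero]

theorem zlie_comm {S : Set (Matrix ι ι K)} {A B : Matrix ι ι K} (hA : A ∈ zlie S)
    (hB : B ∈ zlie S) : A * B - B * A ∈ zlie S := by
  intro f hf s hs
  rw [← der_comm, map_sub, hA _ (hB f hf) s hs, hB _ (hA f hf) s hs, sub_zero]

/-- The derivative along a line at the base point. -/
theorem eval_derivative_lin (x A : Matrix ι ι K) (f : MvPolynomial (ι × ι) K) :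
    (Polynomial.derivative (lin x (x * A) f)).eval 0 = ev x (der A f) := by
  induction f using MvPolynomial.induction_on with
  | C a =>
    rw [derivation_C, map_zero]
    have : lin x (x * A) (C a) = Polynomial.C a := by
      rw [lin, MvPolynomial.aeval_C]; rfl
    rw [this, Polynomial.derivative_C, Polynomial.eval_zero]
  | add p q hp hq =>
    rw [map_add, Polynomial.derivative_add, Polynomial.eval_add, hp, hq, map_add, map_add]
  | mul_X p i hp =>
    have h1 : lin x (x * A) (X i) = Polynomial.C (x i.1 i.2) +
        Polynomial.X * Polynomial.C ((x * A) i.1 i.2) := by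
      rw [lin, aeval_X]
    have h2 : (lin x (x * A) p).eval 0 = ev x p := by
      rw [eval_lin, zero_smul, add_zero]
    have h6 : Polynomial.derivative (lin x (x * A) (X i)) = Polynomial.C ((x * A) i.1 i.2) := by
      rw [h1]; simp
    have h7 : (lin x (x * A) (X i)).eval 0 = x i.1 i.2 := by
      rw [h1]; simp
    have h3 : ∀ k, ev x (X (i.1, k) * C (A k i.2)) = x i.1 k * A k i.2 := by
      intro k
      rw [map_mul (ev x), ev_X, ev_C]
    have h8 : ev x (der A (p * X i)) = ev x p * (x * A) i.1 i.2 + x i.1 i.2 * ev x (der A p) := by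
      rw [Derivation.leibniz, der_X, map_add, smul_eq_mul, smul_eq_mul, map_mul (ev x),
        map_mul (ev x), ev_X, map_sum, Matrix.mul_apply]
      simp only [h3]
    rw [h8, map_mul, Polynomial.derivative_mul, Polynomial.eval_add, Polynomial.eval_mul,
      Polynomial.eval_mul, hp, h2, h6, h7, Polynomial.eval_C]
    ring

/-- For a square zero direction the derivative along the line is the derivation. -/
theorem derivative_lin {A : Matrix ι ι K} (hA : A * A = 0) (x : Matrix ι ι K)
    (f : MvPolynomial (ι × ι) K) :
    Polynomial.derivative (lin x (x * A) f) = lin x (x * A) (der A f) := by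
  induction f using MvPolynomial.induction_on with
  | C a =>
    rw [derivation_C, map_zero]
    have : lin x (x * A) (C a) = Polynomial.C a := by
      rw [lin, MvPolynomial.aeval_C]; rfl
    rw [this, Polynomial.derivative_C]
  | add p q hp hq =>
    rw [map_add, Polynomial.derivative_add, hp, hq, map_add, map_add]
  | mul_X p i hp =>
    have h1 : ∀ i, lin x (x * A) (X i) = Polynomial.C (x i.1 i.2) +
        Polynomial.X * Polynomial.C ((x * A) i.1 i.2) := by
      intro i
      rw [lin, aeval_X]
    have h4 : lin x (x * A) (∑ k, X (i.1, k) * C (A k i.2)) =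
        Polynomial.C ((x * A) i.1 i.2) := by
      rw [map_sum]
      have h5 : ∀ k, lin x (x * A) (X (i.1, k) * C (A k i.2)) =
          Polynomial.C (x i.1 k * A k i.2) +
          Polynomial.X * Polynomial.C ((x * A) i.1 k * A k i.2) := by
        intro k
        rw [map_mul, h1]
        have : lin x (x * A) (C (A k i.2)) = Polynomial.C (A k i.2) := by
          rw [lin, MvPolynomial.aeval_C]; rfl
        rw [this, Polynomial.C_mul, Polynomial.C_mul]
        ring
      simp only [h5]
      rw [Finset.sum_add_distrib, ← Finset.mul_sum, ← map_sum, ← map_sum, ← Matrix.mul_apply,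
        ← Matrix.mul_apply, Matrix.mul_assoc, hA]
      simp
    have h6 : Polynomial.derivative (lin x (x * A) (X i)) = Polynomial.C ((x * A) i.1 i.2) := by
      rw [h1]; simp
    have h8 : lin x (x * A) (der A (p * X i)) = lin x (x * A) p * Polynomial.C ((x * A) i.1 i.2) +
        lin x (x * A) (X i) * lin x (x * A) (der A p) := by
      rw [Derivation.leibniz, der_X, map_add, smul_eq_mul, smul_eq_mul,
        map_mul (lin x (x * A)), map_mul (lin x (x * A)), h4]
    rw [h8, map_mul, Polynomial.derivative_mul, hp, h6]
    ring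

/-- Exponentials of square zero elements of the Lie algebra lie in the closure. -/
theorem zlie_exp [CharZero K] {S : Set (Matrix ι ι K)} {A : Matrix ι ι K} (hA : A ∈ zlie S)
    (hA2 : A * A = 0) (x : Matrix ι ι K) (hx : x ∈ S) (t : K) : x + t • (x * A) ∈ zar S := by
  have key : ∀ (n : ℕ) (f : MvPolynomial (ι × ι) K), (∀ s ∈ S, ev s f = 0) →
      (lin x (x * A) f).coeff n = 0 := by
    intro n
    induction n with
    | zero =>
      intro f hf
      rw [Polynomial.coeff_zero_eq_eval_zero, eval_lin, zero_smul, add_zero]
      exact hf x hx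
    | succ n ih =>
      intro f hf
      have h1 := ih (der A f) (hA f hf)
      rw [← derivative_lin hA2, Polynomial.coeff_derivative] at h1
      refine (mul_eq_zero.1 h1).resolve_right ?_
      exact_mod_cast Nat.succ_ne_zero n
  intro f hf
  rw [← eval_lin]
  have : lin x (x * A) f = 0 := by
    ext n
    rw [key n f hf, Polynomial.coeff_zero]
  rw [this, Polynomial.eval_zero]

/-- If infinitely many points of the line `1 + t A` are in the closure, then `A` is in the Lie
algebra. -/
theorem mem_zlie_of_infinite {S : Set (Matrix ι ι K)} (hS : ∀ a ∈ S, ∀ b ∈ S, a * b ∈ S)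
    {A : Matrix ι ι K} {T : Set K} (hT : T.Infinite) (h : ∀ t ∈ T, 1 + t • A ∈ zar S) :
    A ∈ zlie S := by
  intro f hf s hs
  rw [← eval_derivative_lin]
  have : lin s (s * A) f = 0 := by
    apply Polynomial.eq_zero_of_infinite_isRoot
    apply hT.mono
    intro t ht
    change (lin s (s * A) f).eval t = 0
    rw [eval_lin]
    have h1 := zar_mul hS (subset_zar S hs) (h t ht)
    rw [mul_add, mul_one, Matrix.mul_smul] at h1
    exact h1 f hf
  rw [this]; simp

/-- A line with infinitely many points in the closure lies in the closure. -/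
theorem line_subset_zar {S : Set (Matrix ι ι K)} {x y : Matrix ι ι K} {T : Set K}
    (hT : T.Infinite) (h : ∀ t ∈ T, x + t • y ∈ zar S) (t : K) : x + t • y ∈ zar S := by
  intro f hf
  rw [← eval_lin]
  have : lin x y f = 0 := by
    apply Polynomial.eq_zero_of_infinite_isRoot
    apply hT.mono
    intro t ht
    change (lin x y f).eval t = 0
    rw [eval_lin]
    exact h t ht f hf
  rw [this]; simp

end Pool.Agent.H53Toric
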