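import Pool.Agent.Lib.H53Toric.Core10
import Pool.Agent.Lib.H53Toric.Zar
import Pool.Agent.Lib.H53Toric.Symp

/-!
# Zariski density in the group of symplectic similitudes
-/

set_option autoImplicit false
set_option linter.unusedSectionVars false
namespace Pool.Agent.H53Toric
open Module Matrix

variable {ι : Type*} [Fintype ι] [DecidableEq ι] {K : Type*} [Field K]

/-- Matrices as operators. -/
noncomputable def phi : Matrix ι ι K ≃ₐ[K] Module.End K (ι → K) := Matrix.toLinAlgEquiv'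

theorem phi_apply (X : Matrix ι ι K) (v : ι → K) : phi X v = X *ᵥ v :=
  Matrix.toLinAlgEquiv'_apply X v

/-- The adjoint on matrices. -/
noncomputable def adjL (J : Matrix ι ι K) : Matrix ι ι K →ₗ[K] Matrix ι ι K where
  toFun X := J⁻¹ * Xᵀ * J
  map_add' := by
    intro X Y
    rw [Matrix.transpose_add, mul_add, add_mul]
  map_smul' := by
    intro c X
    rw [Matrix.transpose_smul, mul_smul_comm, smul_mul_assoc]
    rfl

theorem adjL_apply (J X : Matrix ι ι K) : adjL J X = J⁻¹ * Xᵀ * J := rfl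

/-- The adjoint on operators. -/
noncomputable def adjE (J : Matrix ι ι K) :
    Module.End K (ι → K) →ₗ[K] Module.End K (ι → K) :=
  (phi (ι := ι) (K := K)).toLinearMap ∘ₗ adjL J ∘ₗ (phi (ι := ι) (K := K)).symm.toLinearMap

theorem adjE_phi (J X : Matrix ι ι K) : adjE J (phi X) = phi (J⁻¹ * Xᵀ * J) := by
  simp [adjE, adjL_apply]

section J

variable {J : Matrix ι ι K} (hJ : Jᵀ = -J) (hdet : IsUnit J.det)

include hdet

theorem skew_iff (X : Matrix ι ι K) : adjE J (phi X) = -phi X ↔ Xᵀ * J + J * X = 0 := by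
  rw [adjE_phi, ← map_neg, (phi (ι := ι) (K := K)).injective.eq_iff]
  constructor
  · intro h
    have h1 : J * (J⁻¹ * Xᵀ * J) = Xᵀ * J := by
      rw [← mul_assoc, ← mul_assoc, Matrix.mul_nonsing_inv _ hdet, one_mul]
    rw [← h1, h, mul_neg, neg_add_cancel]
  · intro h
    have h1 : Xᵀ * J = -(J * X) := eq_neg_of_add_eq_zero_left h
    rw [mul_assoc, h1, mul_neg, ← mul_assoc, Matrix.nonsing_inv_mul _ hdet, one_mul]

theorem adjE_mul (X Y : Module.End K (ι → K)) : adjE J (X * Y) = adjE J Y * adjE J X := by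
  obtain ⟨x, rfl⟩ := (phi (ι := ι) (K := K)).surjective X
  obtain ⟨y, rfl⟩ := (phi (ι := ι) (K := K)).surjective Y
  rw [← map_mul, adjE_phi, adjE_phi, adjE_phi, ← map_mul]
  congr 1
  rw [Matrix.transpose_mul]
  calc J⁻¹ * (yᵀ * xᵀ) * J = J⁻¹ * yᵀ * 1 * xᵀ * J := by noncomm_ring
    _ = J⁻¹ * yᵀ * (J * J⁻¹) * xᵀ * J := by rw [Matrix.mul_nonsing_inv _ hdet]
    _ = _ := by noncomm_ring

include hJ in
theorem adjE_adjE (X : Module.End K (ι → K)) : adjE J (adjE J X) = X := by
  obtain ⟨x, rfl⟩ := (phi (ι := ι) (K := K)).surjective X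
  rw [adjE_phi, adjE_phi]
  congr 1
  have h1 : (J⁻¹)ᵀ = -J⁻¹ := by
    rw [Matrix.transpose_nonsing_inv, hJ]
    apply Matrix.inv_eq_left_inv
    rw [neg_mul_neg, Matrix.nonsing_inv_mul _ hdet]
  rw [Matrix.transpose_mul, Matrix.transpose_mul, Matrix.transpose_transpose, hJ, h1]
  calc J⁻¹ * (-J * (x * -J⁻¹)) * J = (J⁻¹ * J) * x * (J⁻¹ * J) := by noncomm_ring
    _ = x := by rw [Matrix.nonsing_inv_mul _ hdet]; simp

theorem adjE_tr (X : Module.End K (ι → K)) :
    LinearMap.trace K (ι → K) (adjE J X) = LinearMap.trace K (ι → K) X := by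
  obtain ⟨x, rfl⟩ := (phi (ι := ι) (K := K)).surjective X
  rw [adjE_phi]
  have h1 : ∀ y : Matrix ι ι K, LinearMap.trace K (ι → K) (phi y) = y.trace := by
    intro y
    exact Matrix.trace_toLin'_eq y
  rw [h1, h1, Matrix.trace_mul_comm, ← mul_assoc, Matrix.mul_nonsing_inv _ hdet, one_mul,
    Matrix.trace_transpose]

end J

/-- The symplectic form. -/
noncomputable def om (J : Matrix ι ι K) : (ι → K) →ₗ[K] (ι → K) →ₗ[K] K :=
  Matrix.toLinearMap₂' K J

theorem om_apply (J : Matrix ι ι K) (v w : ι → K) : om J v w = v ⬝ᵥ (J *ᵥ w) := by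
  rw [om, Matrix.toLinearMap₂'_apply']

theorem om_mul (J X : Matrix ι ι K) (v w : ι → K) :
    om J (X *ᵥ v) (X *ᵥ w) = om (Xᵀ * J * X) v w := by
  rw [om_apply, om_apply]
  rw [Matrix.mulVec_mulVec, ← Matrix.mulVec_mulVec, ← Matrix.mulVec_mulVec,
    ← Matrix.mulVec_mulVec, Matrix.dotProduct_mulVec v, Matrix.vecMul_transpose]

/-! ### Similitudes -/

theorem zar_sim {J : Matrix ι ι K} {k l : ι} (hkl : J k l ≠ 0) {S : Set (Matrix ι ι K)}
    (hsim : ∀ s ∈ S, ∃ c : K, sᵀ * J * s = c • J) {x : Matrix ι ι K} (hx : x ∈ zar S) :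
    ∃ c : K, xᵀ * J * x = c • J := by
  let F : ι → ι → MvPolynomial (ι × ι) K := fun i j =>
    ∑ b, (∑ a, MvPolynomial.X (a, i) * MvPolynomial.C (J a b)) * MvPolynomial.X (b, j)
  have hF : ∀ (y : Matrix ι ι K) (i j : ι), ev y (F i j) = (yᵀ * J * y) i j := by
    intro y i j
    simp only [F, map_sum, map_mul, ev_X, ev_C, Matrix.mul_apply, Matrix.transpose_apply]
  refine ⟨(xᵀ * J * x) k l / J k l, ?_⟩
  ext i j
  have h1 := hx (F i j * MvPolynomial.C (J k l) - F k l * MvPolynomial.C (J i j)) (by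
    intro s hs
    obtain ⟨c, hc⟩ := hsim s hs
    rw [map_sub, map_mul, map_mul, ev_C, ev_C, hF, hF, hc, Matrix.smul_apply,
      Matrix.smul_apply, smul_eq_mul, smul_eq_mul]
    ring)
  rw [map_sub, map_mul, map_mul, ev_C, ev_C, hF, hF, sub_eq_zero] at h1
  rw [Matrix.smul_apply, smul_eq_mul, div_mul_eq_mul_div, ← h1, mul_div_cancel_right₀ _ hkl]

theorem line_sim [CharZero K] {J A : Matrix ι ι K} {c1 c2 : K}
    (h1 : (1 + (1 : K) • A)ᵀ * J * (1 + (1 : K) • A) = c1 • J)
    (h2 : (1 + (2 : K) • A)ᵀ * J * (1 + (2 : K) • A) = c2 • J) :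
    ∃ a b : K, Aᵀ * J * A = a • J ∧ Aᵀ * J + J * A = b • J := by
  have e : ∀ t : K, (1 + t • A)ᵀ * J * (1 + t • A) =
      J + t • (Aᵀ * J + J * A) + (t * t) • (Aᵀ * J * A) := by
    intro t
    rw [Matrix.transpose_add, Matrix.transpose_one, Matrix.transpose_smul]
    simp only [add_mul, mul_add, mul_one, one_mul, smul_mul_assoc, mul_smul_comm]
    module
  rw [e] at h1 h2
  set P := Aᵀ * J + J * A with hP
  set Q := Aᵀ * J * A with hQ
  have hQ' : Q = ((c2 - 1) / 2 - (c1 - 1)) • J := by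
    have : Q = (1 / 2 : K) • ((J + (2 : K) • P + (2 * 2 : K) • Q) - J) -
        ((J + (1 : K) • P + (1 * 1 : K) • Q) - J) := by module
    rw [this, h1, h2]
    module
  have hP' : P = (c1 - 1 - ((c2 - 1) / 2 - (c1 - 1))) • J := by
    have : P = ((J + (1 : K) • P + (1 * 1 : K) • Q) - J) - Q := by module
    rw [this, h1, hQ']
    module
  exact ⟨_, _, hQ', hP'⟩

theorem mul_left_cancel_J {J A : Matrix ι ι K} (hdet : IsUnit J.det) {c : K}
    (h : c • (J * A) = 0) : c = 0 ∨ A = 0 := by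
  rcases smul_eq_zero.1 h with h | h
  · exact Or.inl h
  · right
    have : J⁻¹ * (J * A) = 0 := by rw [h, mul_zero]
    rwa [← mul_assoc, Matrix.nonsing_inv_mul _ hdet, one_mul] at this

theorem nil_sim {J A : Matrix ι ι K} (hdet : IsUnit J.det) {a b : K}
    (h1 : Aᵀ * J * A = a • J) (h2 : Aᵀ * J + J * A = b • J) (hA : A * A = 0) (hA0 : A ≠ 0) :
    Aᵀ * J + J * A = 0 := by
  have h3 : a • (J * A) = 0 := by
    rw [← smul_mul_assoc, ← h1, mul_assoc, hA, mul_zero]
  have ha : a = 0 := (mul_left_cancel_J hdet h3).resolve_right hA0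
  have h4 : b • (J * A) = 0 := by
    rw [← smul_mul_assoc, ← h2, add_mul, h1, ha, zero_smul, mul_assoc, hA, mul_zero, add_zero]
  have hb : b = 0 := (mul_left_cancel_J hdet h4).resolve_right hA0
  rw [h2, hb, zero_smul]

theorem proj_sim {J A : Matrix ι ι K} (hdet : IsUnit J.det) {a b : K}
    (h1 : Aᵀ * J * A = a • J) (h2 : Aᵀ * J + J * A = b • J) (hA : A * A = A) (hA0 : A ≠ 0)
    (hA1 : A ≠ 1) : Aᵀ * J * A = 0 ∧ Aᵀ * J + J * A = J := by
  have h3 : a • (J * (A - 1)) = 0 := by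
    rw [mul_sub, mul_one, smul_sub, ← smul_mul_assoc, ← h1, mul_assoc, hA, sub_self]
  have ha : a = 0 := (mul_left_cancel_J hdet h3).resolve_right (sub_ne_zero.2 hA1)
  have h4 : (b - 1) • (J * A) = 0 := by
    have h5 : (Aᵀ * J + J * A) * A = J * A := by
      rw [add_mul, h1, ha, zero_smul, zero_add, mul_assoc, hA]
    rw [h2, smul_mul_assoc] at h5
    rw [sub_smul, one_smul, h5, sub_self]
  have hb : b - 1 = 0 := (mul_left_cancel_J hdet h4).resolve_right hA0
  refine ⟨by rw [h1, ha, zero_smul], ?_⟩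
  rw [h2, sub_eq_zero.1 hb, one_smul]

theorem proj_sim' [CharZero K] {J : Matrix ι ι K} (hdet : IsUnit J.det) {k l : ι}
    (hkl : J k l ≠ 0) {S : Set (Matrix ι ι K)}
    (hsim : ∀ s ∈ S, ∃ c : K, sᵀ * J * s = c • J) {h : Matrix ι ι K} (hh : h ∈ hodgeProj S)
    (h0 : h ≠ 0) (h1 : h ≠ 1) : hᵀ * J * h = 0 ∧ hᵀ * J + J * h = J := by
  obtain ⟨c1, hc1⟩ := zar_sim hkl hsim (hh.2 2 (by norm_num))
  obtain ⟨c2, hc2⟩ := zar_sim hkl hsim (hh.2 3 (by norm_num))
  have e1 : (2 : K) - 1 = 1 := by norm_num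
  have e2 : (3 : K) - 1 = 2 := by norm_num
  rw [e1] at hc1
  rw [e2] at hc2
  obtain ⟨a, b, ha, hb⟩ := line_sim hc1 hc2
  exact proj_sim hdet ha hb hh.1 h0 h1

/-- The Lie algebra with scalars added, as operators. -/
noncomputable def bigL (S : Set (Matrix ι ι K)) : Submodule K (Module.End K (ι → K)) :=
  (zlie S ⊔ Submodule.span K {1}).map (phi (ι := ι) (K := K)).toLinearMap

theorem mem_bigL {S : Set (Matrix ι ι K)} {X : Matrix ι ι K} :
    phi X ∈ bigL S ↔ ∃ c : K, ∃ A ∈ zlie S, X = A + c • 1 := by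
  constructor
  · rintro ⟨Y, hY, hYX⟩
    have hYX' : Y = X := (phi (ι := ι) (K := K)).injective hYX
    rw [← hYX']
    obtain ⟨A, hA, B, hB, rfl⟩ := Submodule.mem_sup.1 hY
    obtain ⟨c, rfl⟩ := Submodule.mem_span_singleton.1 hB
    exact ⟨c, A, hA, rfl⟩
  · rintro ⟨c, A, hA, rfl⟩
    exact ⟨A + c • 1, Submodule.add_mem_sup hA
      (Submodule.smul_mem _ _ (Submodule.mem_span_singleton_self _)), rfl⟩

theorem bigL_comm {S : Set (Matrix ι ι K)} {X Y : Matrix ι ι K} (hX : phi X ∈ bigL S)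
    (hY : phi Y ∈ bigL S) : X * Y - Y * X ∈ zlie S := by
  obtain ⟨c, A, hA, rfl⟩ := mem_bigL.1 hX
  obtain ⟨d, B, hB, rfl⟩ := mem_bigL.1 hY
  have e : (A + c • (1 : Matrix ι ι K)) * (B + d • 1) - (B + d • 1) * (A + c • 1) =
      A * B - B * A := by
    simp only [mul_add, add_mul, smul_mul_assoc, mul_smul_comm, mul_one, one_mul]
    module
  rw [e]
  exact zlie_comm hA hB

theorem bigL_lie (S : Set (Matrix ι ι K)) : IsLie (bigL S) := by
  intro X hX Y hY
  obtain ⟨x, rfl⟩ := (phi (ι := ι) (K := K)).surjective X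
  obtain ⟨y, rfl⟩ := (phi (ι := ι) (K := K)).surjective Y
  rw [← map_mul, ← map_mul, ← map_sub]
  exact mem_bigL.2 ⟨0, _, bigL_comm hX hY, by rw [zero_smul, add_zero]⟩

/-! ### The main group theoretic statement -/

section main

variable [IsAlgClosed K] [CharZero K] {J : Matrix ι ι K} (hJ : Jᵀ = -J)
  (hdet : IsUnit J.det) {k l : ι} (hkl : J k l ≠ 0) {S : Set (Matrix ι ι K)}
  (hS1 : (1 : Matrix ι ι K) ∈ S) (hS : ∀ a ∈ S, ∀ b ∈ S, a * b ∈ S)
  (hsim : ∀ s ∈ S, ∃ c : K, sᵀ * J * s = c • J)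
  (hodge : ∀ W : Submodule K (ι → K), (∀ h ∈ hodgeProj S, ∀ w ∈ W, h *ᵥ w ∈ W) → W = ⊥ ∨ W = ⊤)

include hS in
theorem hodgeProj_zlie {h : Matrix ι ι K} (hh : h ∈ hodgeProj S) : h ∈ zlie S := by
  refine mem_zlie_of_infinite hS (T := {t : K | t ≠ -1}) ?_ ?_
  · exact (Set.finite_singleton (-1 : K)).infinite_compl
  · intro t ht
    have := hh.2 (t + 1) (by
      intro h0
      exact ht (eq_neg_of_add_eq_zero_left h0))
    rwa [add_sub_cancel_right] at this

include hdet hkl hS hsim in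
theorem hodgeProj_invol {h : Matrix ι ι K} (hh : h ∈ hodgeProj S) (h0 : h ≠ 0) (h1 : h ≠ 1) :
    phi ((2 : K) • h - 1) ∈ invol (bigL S) (adjE J) := by
  obtain ⟨-, h3⟩ := proj_sim' hdet hkl hsim hh h0 h1
  refine ⟨?_, ?_, ?_⟩
  · refine mem_bigL.2 ⟨-1, (2 : K) • h, (zlie S).smul_mem _ (hodgeProj_zlie hS hh), ?_⟩
    rw [neg_smul, one_smul, sub_eq_add_neg]
  · rw [← map_mul, ← map_one (phi (ι := ι) (K := K))]
    congr 1
    simp only [sub_mul, mul_sub, smul_mul_assoc, mul_smul_comm, hh.1, mul_one, one_mul]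
    module
  · rw [skew_iff hdet]
    rw [Matrix.transpose_sub, Matrix.transpose_smul, Matrix.transpose_one]
    simp only [sub_mul, mul_sub, smul_mul_assoc, mul_smul_comm, mul_one, one_mul]
    have : (2 : K) • (hᵀ * J) - J + ((2 : K) • (J * h) - J) =
        (2 : K) • (hᵀ * J + J * h) - (2 : K) • J := by module
    rw [this, h3, sub_self]

include hJ hdet hkl hS hsim hodge in
theorem amb : Amb (bigL S) (adjE J) where
  lie := bigL_lie S
  adj_mul := adjE_mul hdet
  adj_adj := adjE_adjE hJ hdet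
  adj_tr := adjE_tr hdet
  irr := by
    intro W hW
    apply hodge
    intro h hh w hw
    by_cases h0 : h = 0
    · rw [h0, Matrix.zero_mulVec]; exact W.zero_mem
    by_cases h1 : h = 1
    · rw [h1, Matrix.one_mulVec]; exact hw
    have h2 := hW _ (hodgeProj_invol hdet hkl hS hsim hh h0 h1) w hw
    rw [phi_apply, Matrix.sub_mulVec, Matrix.smul_mulVec, Matrix.one_mulVec] at h2
    have h3 := W.smul_mem (1 / 2 : K) (W.add_mem h2 hw)
    rw [sub_add_cancel, smul_smul] at h3
    norm_num at h3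
    exact h3

include hJ hdet hkl hS hsim hodge in
/-- The Lie algebra of the closure contains all skew matrices of square zero. -/
theorem skew_mem_zlie [Nonempty ι] {N : Matrix ι ι K} (hN : N ∈ zlie S) (hN2 : N * N = 0)
    (hNs : Nᵀ * J + J * N = 0) (hodd : Odd (finrank K (LinearMap.range (phi N))))
    {X : Matrix ι ι K} (hX : Xᵀ * J + J * X = 0) (hX2 : X * X = 0) : X ∈ zlie S := by
  have hA := amb hJ hdet hkl hS hsim hodge
  have hNL : phi N ∈ bigL S := mem_bigL.2 ⟨0, N, hN, by rw [zero_smul, add_zero]⟩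
  have hN2' : phi N * phi N = 0 := by rw [← map_mul, hN2, map_zero]
  have hmem := fun {Y : Module.End K (ι → K)} (hY : adjE J Y = -Y) =>
    hA.full hNL hN2' ((skew_iff hdet N).2 hNs) hodd hY
  have hXg := hmem ((skew_iff hdet X).2 hX)
  have hsetup := hA.setup
  obtain ⟨M, hM, hXMX⟩ := exists_partner hsetup.lie hsetup.irr hsetup.tr hXg
    (by rw [← map_mul, hX2, map_zero])
  obtain ⟨m, rfl⟩ := (phi (ι := ι) (K := K)).surjective M
  have hsub : Submodule.span K (invol (bigL S) (adjE J)) ≤ bigL S :=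
    Submodule.span_le.2 fun y hy => hy.1
  have hXL := hsub hXg
  have hML := hsub hM
  have e1 : X * m * X = X := by
    apply (phi (ι := ι) (K := K)).injective
    rw [map_mul, map_mul, hXMX]
  have h1 := bigL_comm hXL hML
  have h2 := bigL_comm (mem_bigL.2 ⟨0, _, h1, by rw [zero_smul, add_zero]⟩) hXL
  have e2 : (X * m - m * X) * X - X * (X * m - m * X) = (2 : K) • X := by
    have : (X * m - m * X) * X - X * (X * m - m * X) =
        (2 : K) • (X * m * X) - m * (X * X) - (X * X) * m := by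
      rw [two_smul]; noncomm_ring
    rw [this, e1, hX2]; simp
  rw [e2] at h2
  have h3 := (zlie S).smul_mem (1 / 2 : K) h2
  rw [smul_smul] at h3
  norm_num at h3
  exact h3

/-! ### Transvections -/

omit [IsAlgClosed K] [CharZero K] in
theorem phi_trv (J : Matrix ι ι K) (d : ι → K) :
    phi (Matrix.vecMulVec d (J *ᵥ d)) = trv (om J) d := by
  refine LinearMap.ext fun x => ?_
  rw [phi_apply, trv_apply, om_apply, Matrix.vecMulVec_mulVec, dotProduct_comm]
  exact op_smul_eq_smul _ _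

omit [IsAlgClosed K] [CharZero K] in
include hJ in
theorem trv_skew (d : ι → K) : (Matrix.vecMulVec d (J *ᵥ d))ᵀ * J +
    J * Matrix.vecMulVec d (J *ᵥ d) = 0 := by
  have h1 : Matrix.vecMul d J = -(J *ᵥ d) := by
    rw [← Matrix.mulVec_transpose, hJ, Matrix.neg_mulVec]
  rw [Matrix.transpose_vecMulVec, Matrix.vecMulVec_mul, Matrix.mul_vecMulVec, h1]
  ext i j
  simp [Matrix.vecMulVec_apply]

omit [IsAlgClosed K] in
include hJ in
theorem om_alt (v : ι → K) : om J v v = 0 := by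
  have h1 : om J v v = -om J v v := by
    nth_rw 1 [om_apply]
    rw [Matrix.dotProduct_mulVec, dotProduct_comm, ← Matrix.mulVec_transpose, hJ,
      Matrix.neg_mulVec, dotProduct_neg, ← om_apply]
  have h2 : (2 : K) * om J v v = 0 := by linear_combination h1
  exact (mul_eq_zero.1 h2).resolve_left (by norm_num)

omit [IsAlgClosed K] [CharZero K] in
include hdet in
theorem om_nd (v : ι → K) (h : ∀ w, om J w v = 0) : v = 0 := by
  have h1 : J *ᵥ v = 0 := by
    ext i
    have := h (Pi.single i 1)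
    rw [om_apply, single_one_dotProduct] at this
    exact this
  have : J⁻¹ *ᵥ (J *ᵥ v) = 0 := by rw [h1, Matrix.mulVec_zero]
  rwa [Matrix.mulVec_mulVec, Matrix.nonsing_inv_mul _ hdet, Matrix.one_mulVec] at this

omit [IsAlgClosed K] in
include hS1 hS in
theorem pow_line {N : Matrix ι ι K} (hN2 : N * N = 0) (hu : 1 + N ∈ zar S) (n : ℕ) :
    1 + (n : K) • N ∈ zar S := by
  induction n with
  | zero =>
    have := subset_zar S hS1
    simpa using this
  | succ n ih =>
    have := zar_mul hS ih hu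
    have e : (1 + (n : K) • N) * (1 + N) = 1 + ((n + 1 : ℕ) : K) • N := by
      rw [mul_add, add_mul, add_mul, smul_mul_assoc, smul_mul_assoc, hN2]
      push_cast
      simp only [one_mul, mul_one, smul_zero, add_zero]
      module
    rwa [e] at this

include hJ hdet hkl hS1 hS hsim hodge in
/-- **The group theoretic theorem.** -/
theorem gsp_mem [Nonempty ι] {N : Matrix ι ι K} (hN2 : N * N = 0)
    (hu : ∀ t : K, 1 + t • N ∈ zar S)
    (hodd : Odd (finrank K (LinearMap.range (phi N)))) {x : Matrix ι ι K} (hx : IsUnit x.det)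
    {c : K} (hc : xᵀ * J * x = c • J) : x ∈ zar S := by
  have hN0 : N ≠ 0 := by
    rintro rfl
    rw [map_zero, LinearMap.range_zero, finrank_bot] at hodd
    exact absurd hodd (by decide)
  have hNz : N ∈ zlie S := by
    refine mem_zlie_of_infinite hS (T := Set.range (Nat.cast : ℕ → K))
      (Set.infinite_range_of_injective Nat.cast_injective) ?_
    rintro _ ⟨n, rfl⟩
    exact hu _
  have hNs : Nᵀ * J + J * N = 0 := by
    obtain ⟨c1, hc1⟩ := zar_sim hkl hsim (hu 1)
    obtain ⟨c2, hc2⟩ := zar_sim hkl hsim (hu 2)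
    obtain ⟨a, b, ha, hb⟩ := line_sim hc1 hc2
    exact nil_sim hdet ha hb hN2 hN0
  -- transvections
  have htrv : ∀ (a : K) (d : ι → K), 1 + a • Matrix.vecMulVec d (J *ᵥ d) ∈ zar S := by
    intro a d
    have h2 : Matrix.vecMulVec d (J *ᵥ d) * Matrix.vecMulVec d (J *ᵥ d) = 0 := by
      apply (phi (ι := ι) (K := K)).injective
      rw [map_mul, phi_trv, map_zero, trv_sq (om_alt hJ)]
    have h1 := skew_mem_zlie hJ hdet hkl hS hsim hodge hNz hN2 hNs hodd (trv_skew hJ d) h2
    have := zlie_exp h1 h2 1 hS1 a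
    rwa [one_mul] at this
  -- isometries
  have hiso : ∀ y : Matrix ι ι K, yᵀ * J * y = J → y ∈ zar S := by
    intro y hy
    have h1 := sp_mem (ω := om J) (Z := {X | (phi (ι := ι) (K := K)).symm X ∈ zar S})
      (om_alt hJ) (om_nd hdet) (by
        change (phi (ι := ι) (K := K)).symm 1 ∈ zar S
        rw [map_one]; exact subset_zar S hS1) (by
        intro a ha b hb
        change (phi (ι := ι) (K := K)).symm (a * b) ∈ zar S
        rw [map_mul]; exact zar_mul hS ha hb) (by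
        intro a d
        change (phi (ι := ι) (K := K)).symm (1 + a • trv (om J) d) ∈ zar S
        rw [← phi_trv, ← map_smul, ← map_one (phi (ι := ι) (K := K)), ← map_add,
          AlgEquiv.symm_apply_apply]
        exact htrv a d) (finrank K (ι → K)) (phi y) (by
        intro v w
        rw [phi_apply, phi_apply, om_mul, hy]) (Nat.le_add_left _ _)
    change (phi (ι := ι) (K := K)).symm (phi y) ∈ zar S at h1
    rwa [AlgEquiv.symm_apply_apply] at h1
  -- a nontrivial projector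
  obtain ⟨h, hh, h0, h1⟩ : ∃ h ∈ hodgeProj S, h ≠ 0 ∧ h ≠ 1 := by
    by_contra hcon
    push Not at hcon
    have hall : ∀ W : Submodule K (ι → K), W = ⊥ ∨ W = ⊤ := by
      intro W
      apply hodge
      intro h hh w hw
      by_cases h0 : h = 0
      · rw [h0, Matrix.zero_mulVec]; exact W.zero_mem
      · rw [hcon h hh h0, Matrix.one_mulVec]; exact hw
    rcases hall (LinearMap.ker (phi N)) with hk | hk
    · have : ∀ v, phi N v = 0 := by
        intro v
        have h2 : phi N v ∈ LinearMap.ker (phi N) := by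
          rw [LinearMap.mem_ker]
          change (phi N * phi N) v = 0
          rw [← map_mul, hN2, map_zero]; rfl
        rw [hk] at h2
        exact (Submodule.mem_bot K).1 h2
      apply hN0
      apply (phi (ι := ι) (K := K)).injective
      rw [map_zero]
      exact LinearMap.ext this
    · apply hN0
      apply (phi (ι := ι) (K := K)).injective
      rw [map_zero]
      exact LinearMap.ker_eq_top.1 hk
  obtain ⟨p1, p2⟩ := proj_sim' hdet hkl hsim hh h0 h1
  have hmult : ∀ t : K, (1 + (t - 1) • h)ᵀ * J * (1 + (t - 1) • h) = t • J := by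
    intro t
    rw [Matrix.transpose_add, Matrix.transpose_one, Matrix.transpose_smul]
    have e : (1 + (t - 1) • hᵀ) * J * (1 + (t - 1) • h) =
        J + (t - 1) • (hᵀ * J + J * h) + ((t - 1) * (t - 1)) • (hᵀ * J * h) := by
      simp only [add_mul, mul_add, mul_one, one_mul, smul_mul_assoc, mul_smul_comm]
      module
    rw [e, p1, p2]
    module
  have hc0 : c ≠ 0 := by
    rintro rfl
    rw [zero_smul] at hc
    have h3 := congrArg Matrix.det hc
    rw [Matrix.det_mul, Matrix.det_mul, Matrix.det_transpose, Matrix.det_zero] at h3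
    exact (mul_ne_zero (mul_ne_zero hx.ne_zero hdet.ne_zero) hx.ne_zero) h3
  have hiso1 : x * (1 + (c⁻¹ - 1) • h) ∈ zar S := by
    apply hiso
    rw [Matrix.transpose_mul]
    calc (1 + (c⁻¹ - 1) • h)ᵀ * xᵀ * J * (x * (1 + (c⁻¹ - 1) • h)) =
        (1 + (c⁻¹ - 1) • h)ᵀ * (xᵀ * J * x) * (1 + (c⁻¹ - 1) • h) := by noncomm_ring
      _ = c • ((1 + (c⁻¹ - 1) • h)ᵀ * J * (1 + (c⁻¹ - 1) • h)) := by
        rw [hc, mul_smul_comm, smul_mul_assoc]
      _ = J := by rw [hmult, smul_smul, mul_inv_cancel₀ hc0, one_smul]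
  have hfin := zar_mul hS hiso1 (hh.2 c hc0)
  have e : x * (1 + (c⁻¹ - 1) • h) * (1 + (c - 1) • h) = x := by
    have e2 : (1 + (c⁻¹ - 1) • h) * (1 + (c - 1) • h) = 1 := by
      have e3 : (1 + (c⁻¹ - 1) • h) * (1 + (c - 1) • h) =
          1 + ((c⁻¹ - 1) + (c - 1)) • h + ((c⁻¹ - 1) * (c - 1)) • (h * h) := by
        simp only [add_mul, mul_add, mul_one, one_mul, smul_mul_assoc, mul_smul_comm]
        module
      rw [e3, hh.1]
      have e4 : (c⁻¹ - 1) * (c - 1) = -((c⁻¹ - 1) + (c - 1)) := by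
        field_simp
        ring
      rw [e4]
      module
    rw [mul_assoc, e2, mul_one]
  rwa [e] at hfin

end main

end Pool.Agent.H53Toric
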