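import Mathlib

/-!
# Lie algebras of operators: trace form, square zero elements
-/

set_option autoImplicit false
set_option linter.unusedSectionVars false

namespace Pool.Agent.H53Toric

open Module

variable {K : Type*} [Field K] {V : Type*} [AddCommGroup V] [Module K V]

/-- A linear space of operators closed under commutators. -/
def IsLie (g : Submodule K (Module.End K V)) : Prop :=
  ∀ X ∈ g, ∀ Y ∈ g, X * Y - Y * X ∈ g

/-- No proper nonzero subspace is stable under `g`. -/
def Irr (g : Submodule K (Module.End K V)) : Prop :=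
  ∀ W : Submodule K V, (∀ X ∈ g, ∀ w ∈ W, X w ∈ W) → W = ⊥ ∨ W = ⊤

section basic

variable {g : Submodule K (Module.End K V)}

theorem IsLie.sandwich [CharZero K] (hg : IsLie g) {Z X : Module.End K V} (hZ : Z ∈ g)
    (hZ2 : Z * Z = 0) (hX : X ∈ g) : Z * X * Z ∈ g := by
  have h1 := hg Z hZ _ (hg Z hZ X hX)
  have e : Z * (Z * X - X * Z) - (Z * X - X * Z) * Z = (-2 : K) • (Z * X * Z) := by
    have : Z * (Z * X - X * Z) - (Z * X - X * Z) * Z =
        (Z * Z) * X - Z * X * Z - Z * X * Z + X * (Z * Z) := by noncomm_ring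
    rw [this, hZ2]
    simp only [zero_mul, mul_zero, zero_sub, add_zero]
    module
  rw [e] at h1
  have h2 := g.smul_mem (-2 : K)⁻¹ h1
  rwa [smul_smul, inv_mul_cancel₀ (by norm_num), one_smul] at h2

/-- The component of weight one with respect to an involution. -/
theorem IsLie.plus [CharZero K] (hg : IsLie g) {y X : Module.End K V} (hy : y ∈ g)
    (hy2 : y * y = 1) (hX : X ∈ g) : (1 + y) * X * (1 - y) ∈ g := by
  have h1 := hg y hy X hX
  have h2 := hg y hy _ h1
  have e : (1 + y) * X * (1 - y) = (y * X - X * y) +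
      (1 / 2 : K) • (y * (y * X - X * y) - (y * X - X * y) * y) := by
    have : y * (y * X - X * y) - (y * X - X * y) * y =
        (y * y) * X - y * X * y - y * X * y + X * (y * y) := by noncomm_ring
    rw [this, hy2]
    have : (1 + y) * X * (1 - y) = X + y * X - X * y - y * X * y := by noncomm_ring
    rw [this, one_mul, mul_one]
    module
  rw [e]
  exact g.add_mem h1 (g.smul_mem _ h2)

theorem IsLie.minus [CharZero K] (hg : IsLie g) {y X : Module.End K V} (hy : y ∈ g)
    (hy2 : y * y = 1) (hX : X ∈ g) : (1 - y) * X * (1 + y) ∈ g := by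
  have h1 := hg y hy X hX
  have h2 := hg y hy _ h1
  have e : (1 - y) * X * (1 + y) = (-(1 : K)) • (y * X - X * y) +
      (1 / 2 : K) • (y * (y * X - X * y) - (y * X - X * y) * y) := by
    have : y * (y * X - X * y) - (y * X - X * y) * y =
        (y * y) * X - y * X * y - y * X * y + X * (y * y) := by noncomm_ring
    rw [this, hy2]
    have : (1 - y) * X * (1 + y) = X - y * X + X * y - y * X * y := by noncomm_ring
    rw [this, one_mul, mul_one]
    module
  rw [e]
  exact g.add_mem (g.smul_mem _ h1) (g.smul_mem _ h2)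

end basic

/-! ### The Lie algebra -/

attribute [local instance 100] LieRing.ofAssociativeRing

/-- The Lie subalgebra. -/
def lieSub (g : Submodule K (Module.End K V)) (hg : IsLie g) :
    LieSubalgebra K (Module.End K V) :=
  { g with lie_mem' := fun {x y} hx hy => hg x hx y hy }

theorem mem_lieSub {g : Submodule K (Module.End K V)} {hg : IsLie g} {x : Module.End K V} :
    x ∈ lieSub g hg ↔ x ∈ g := Iff.rfl

variable [IsAlgClosed K] [CharZero K] [FiniteDimensional K V] [Nontrivial V]

theorem lieSub_irr (g : Submodule K (Module.End K V)) (hg : IsLie g) (hirr : Irr g) :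
    LieModule.IsIrreducible K (lieSub g hg) V := by
  apply LieModule.IsIrreducible.mk
  intro N hN
  rcases hirr N.toSubmodule (fun X hX w hw => N.lie_mem (x := (⟨X, hX⟩ : lieSub g hg)) hw)
    with h | h
  · exact absurd ((LieSubmodule.toSubmodule_eq_bot N).1 h) hN
  · exact (LieSubmodule.toSubmodule_eq_top N).1 h

theorem lieSub_faithful (g : Submodule K (Module.End K V)) (hg : IsLie g) :
    LieModule.IsFaithful K (lieSub g hg) V := by
  constructor
  intro x y hxy
  apply Subtype.ext
  ext v
  have := LinearMap.congr_fun hxy v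
  exact this

theorem lieSub_trivialRadical (g : Submodule K (Module.End K V)) (hg : IsLie g) (hirr : Irr g)
    (htr : ∀ X ∈ g, LinearMap.trace K V X = 0) :
    LieAlgebra.HasTrivialRadical K (lieSub g hg) := by
  have h1 := lieSub_irr g hg hirr
  have h2 := lieSub_faithful g hg
  exact LieAlgebra.hasTrivialRadical_of_isIrreducible_of_isFaithful K (lieSub g hg) V
    (fun x => htr x.1 x.2)

/-- The radical of the trace form, as an ideal. -/
def trIdeal (g : Submodule K (Module.End K V)) (hg : IsLie g) : LieIdeal K (lieSub g hg) where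
  carrier := {x | ∀ y : lieSub g hg, LinearMap.trace K V (x.1 * y.1) = 0}
  add_mem' := by
    intro a b ha hb y
    change LinearMap.trace K V ((a.1 + b.1) * y.1) = 0
    rw [add_mul, map_add, ha y, hb y, add_zero]
  zero_mem' := by
    intro y
    simp
  smul_mem' := by
    intro c x hx y
    change LinearMap.trace K V ((c • x.1) * y.1) = 0
    rw [smul_mul_assoc, map_smul, hx y, smul_zero]
  lie_mem := by
    intro z x hx y
    have h1 := hx ⁅y, z⁆
    have e : (⁅z, x⁆ : lieSub g hg).1 * y.1 = z.1 * (x.1 * y.1) - x.1 * z.1 * y.1 := by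
      change (z.1 * x.1 - x.1 * z.1) * y.1 = _
      noncomm_ring
    have e2 : x.1 * (⁅y, z⁆ : lieSub g hg).1 = (x.1 * y.1) * z.1 - x.1 * z.1 * y.1 := by
      change x.1 * (y.1 * z.1 - z.1 * y.1) = _
      noncomm_ring
    rw [e2, map_sub] at h1
    change LinearMap.trace K V ((⁅z, x⁆ : lieSub g hg).1 * y.1) = 0
    rw [e, map_sub, LinearMap.trace_mul_comm]
    exact h1

theorem trIdeal_eq_bot (g : Submodule K (Module.End K V)) (hg : IsLie g) (hirr : Irr g)
    (htr : ∀ X ∈ g, LinearMap.trace K V X = 0) : trIdeal g hg = ⊥ := by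
  have hR := lieSub_trivialRadical g hg hirr htr
  set I : LieIdeal K (lieSub g hg) := trIdeal g hg with hI
  have tf : LieModule.traceForm K I V = 0 := by
    ext ⟨x, hx⟩ ⟨y, hy⟩
    exact hx y
  have nil := LieModule.isNilpotent_derivedSeries_of_traceForm_eq_zero tf
  have hD : LieRing.IsNilpotent (⁅I, I⁆ : LieIdeal K (lieSub g hg)) := by
    rw [LieAlgebra.isNilpotent_iff_forall (R := K)]
    rintro ⟨x, hx⟩
    apply LieSubalgebra.isNilpotent_ad_of_isNilpotent_ad
      ((⁅I, I⁆ : LieIdeal K (lieSub g hg)) : LieSubalgebra K (lieSub g hg)) (x := ⟨x, hx⟩)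
    apply LieAlgebra.isNilpotent_ad_of_isNilpotent
    have h1 := (LieModule.isNilpotent_iff_forall' (R := K)).mp nil
      ⟨⟨x, LieSubmodule.lie_le_left I I hx⟩, by
        rwa [LieIdeal.derivedSeries_eq_derivedSeriesOfIdeal_comap, LieIdeal.mem_comap]⟩
    exact h1
  have hDs : LieAlgebra.IsSolvable (⁅I, I⁆ : LieIdeal K (lieSub g hg)) := inferInstance
  have hD0 : (⁅I, I⁆ : LieIdeal K (lieSub g hg)) = ⊥ := by
    have := (LieAlgebra.LieIdeal.solvable_iff_le_radical K (lieSub g hg) _).1 hDs
    rwa [LieAlgebra.HasTrivialRadical.radical_eq_bot, le_bot_iff] at this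
  have hIs : LieAlgebra.IsSolvable I := by
    apply LieAlgebra.IsSolvable.mk (R := K) (k := 1)
    rw [LieIdeal.derivedSeries_eq_bot_iff]
    exact hD0
  have := (LieAlgebra.LieIdeal.solvable_iff_le_radical K (lieSub g hg) _).1 hIs
  rwa [LieAlgebra.HasTrivialRadical.radical_eq_bot, le_bot_iff] at this

theorem trace_nondeg {g : Submodule K (Module.End K V)} (hg : IsLie g) (hirr : Irr g)
    (htr : ∀ X ∈ g, LinearMap.trace K V X = 0) {X : Module.End K V} (hX : X ∈ g)
    (h : ∀ Y ∈ g, LinearMap.trace K V (X * Y) = 0) : X = 0 := by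
  have h1 : (⟨X, hX⟩ : lieSub g hg) ∈ trIdeal g hg := fun y => h y.1 y.2
  rw [trIdeal_eq_bot g hg hirr htr] at h1
  have := (LieSubmodule.mem_bot _).1 h1
  exact congrArg Subtype.val this


theorem exists_trace_repr {g : Submodule K (Module.End K V)} (hg : IsLie g) (hirr : Irr g)
    (htr : ∀ X ∈ g, LinearMap.trace K V X = 0) (f : g →ₗ[K] K) :
    ∃ Z ∈ g, ∀ X : g, f X = LinearMap.trace K V (Z * X.1) := by
  let T : g →ₗ[K] (g →ₗ[K] K) :=
    { toFun := fun Z => (LinearMap.trace K V) ∘ₗ (LinearMap.mulLeft K Z.1) ∘ₗ g.subtype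
      map_add' := by
        intro a b
        ext x
        simp [add_mul]
      map_smul' := by
        intro c a
        ext x
        simp }
  have hT : ∀ Z X : g, T Z X = LinearMap.trace K V (Z.1 * X.1) := fun Z X => rfl
  have hinj : Function.Injective T := by
    rw [injective_iff_map_eq_zero]
    intro Z hZ
    apply Subtype.ext
    apply trace_nondeg hg hirr htr Z.2
    intro Y hY
    have := LinearMap.congr_fun hZ ⟨Y, hY⟩
    rw [hT] at this
    exact this
  have hsurj : Function.Surjective T :=
    (LinearMap.injective_iff_surjective_of_finrank_eq_finrank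
      (Subspace.dual_finrank_eq (K := K) (V := g)).symm).1 hinj
  obtain ⟨Z, hZ⟩ := hsurj f
  exact ⟨Z.1, Z.2, fun X => by rw [← hZ, hT]⟩

/-- A square zero element of `g` has a partner. -/
theorem exists_partner {g : Submodule K (Module.End K V)} (hg : IsLie g) (hirr : Irr g)
    (htr : ∀ X ∈ g, LinearMap.trace K V X = 0) {N : Module.End K V} (hN : N ∈ g)
    (hN2 : N * N = 0) : ∃ X ∈ g, N * X * N = N := by
  by_contra hcon
  push Not at hcon
  let φ : g →ₗ[K] g :=
    { toFun := fun X => ⟨N * X.1 * N, hg.sandwich hN hN2 X.2⟩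
      map_add' := by
        intro a b
        apply Subtype.ext
        simp [mul_add, add_mul]
      map_smul' := by
        intro c a
        apply Subtype.ext
        simp }
  have hnot : (⟨N, hN⟩ : g) ∉ LinearMap.range φ := by
    rintro ⟨X, hX⟩
    exact hcon X.1 X.2 (congrArg Subtype.val hX)
  obtain ⟨f, hf1, hf2⟩ := Submodule.exists_le_ker_of_notMem hnot
  obtain ⟨Z, hZ, hfZ⟩ := exists_trace_repr hg hirr htr f
  have h1 : N * Z * N = 0 := by
    apply trace_nondeg hg hirr htr (hg.sandwich hN hN2 hZ)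
    intro Y hY
    have h2 := hf2 (LinearMap.mem_range_self φ ⟨Y, hY⟩)
    rw [LinearMap.mem_ker, hfZ] at h2
    have h3 : Z * (N * Y * N) = (Z * N * Y) * N := by noncomm_ring
    change LinearMap.trace K V (Z * (N * Y * N)) = 0 at h2
    rw [h3, LinearMap.trace_mul_comm] at h2
    rw [← h2]
    congr 1
  have h4 : IsNilpotent (Z * N) := ⟨2, by
    rw [pow_two]
    have : Z * N * (Z * N) = Z * (N * Z * N) := by noncomm_ring
    rw [this, h1, mul_zero]⟩
  have h5 := (LinearMap.isNilpotent_trace_of_isNilpotent h4).eq_zero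
  exact hf1 (by rw [hfZ]; exact h5)

end Pool.Agent.H53Toric

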