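import Pool.Agent.Lib.H53Toric.Indep2

/-!
# Independent roots of a rational polynomial
-/

set_option autoImplicit false
set_option linter.unusedSectionVars false
namespace Pool.Agent.H53Toric
open Module Matrix Polynomial

/-- The matrix `x` is diagonalisable. -/
def Diagonalisable {ι : Type*} [Fintype ι] [DecidableEq ι] {K : Type*} [Field K]
    (x : Matrix ι ι K) : Prop :=
  ∃ (P Q : Matrix ι ι K) (d : ι → K), P * Q = 1 ∧ Q * P = 1 ∧ x = P * Matrix.diagonal d * Q

/-- The nonzero algebraic number `α` is an independent root of the polynomial `F`, relative to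
the rational number `q`: it is a simple root, and no power `α ^ n`, `n ≠ 0`, belongs to the group
generated by `q` and all the roots of `F` other than `α` and `q / α`. -/
def IndepRoot (F : ℚ[X]) (q : ℚ) (α : (AlgebraicClosure ℚ)ˣ) : Prop :=
  (F.map (algebraMap ℚ (AlgebraicClosure ℚ))).rootMultiplicity (α : AlgebraicClosure ℚ) = 1 ∧
  ∀ n : ℤ, n ≠ 0 → α ^ n ∉ Subgroup.closure {u : (AlgebraicClosure ℚ)ˣ |
    (u : AlgebraicClosure ℚ) = algebraMap ℚ (AlgebraicClosure ℚ) q ∨
    (aeval (u : AlgebraicClosure ℚ) F = 0 ∧ u ≠ α ∧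
      (u : AlgebraicClosure ℚ) * α ≠ algebraMap ℚ (AlgebraicClosure ℚ) q)}

theorem monodromy_weil {ι : Type*} [Fintype ι] [DecidableEq ι] {ψ : Matrix ι ι ℚ}
    (hψ : ψᵀ = -ψ) (hψ0 : ψ.det ≠ 0) {L : Type*} [Field L] [CharZero L] {K : Type*} [Field K]
    [Algebra L K] [IsAlgClosed K] [CharZero K] {G : Type*} [Group G]
    (ρ : G →* Matrix.GeneralLinearGroup ι L)
    (sim : ∀ σ : G, ∃ c : L, (ρ σ).1ᵀ * ψ.map (algebraMap ℚ L) * (ρ σ).1 =
      c • ψ.map (algebraMap ℚ L))
    (irr : ∀ H : Subgroup G, H.FiniteIndex → ∀ W : Submodule K (ι → K),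
      (∀ s ∈ img K ρ H, ∀ w ∈ W, s *ᵥ w ∈ W) → W = ⊥ ∨ W = ⊤)
    {σ : G} {q : ℚ} (hq : ∀ n : ℕ, n ≠ 0 → q ^ n ≠ 1)
    (hqσ : (ρ σ).1ᵀ * ψ.map (algebraMap ℚ L) * (ρ σ).1 =
      algebraMap ℚ L q • ψ.map (algebraMap ℚ L))
    {F : ℚ[X]} (hF : (ρ σ).1.charpoly = F.map (algebraMap ℚ L))
    (hss : Diagonalisable ((ρ σ).1.map (algebraMap L K)))
    {α : (AlgebraicClosure ℚ)ˣ} (hα : IndepRoot F q α)
    (H : Subgroup G) (hH : H.FiniteIndex) : monodromy K ρ H = simil K ψ := by
  classical
  obtain ⟨hα1, hα2⟩ := hα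
  obtain ⟨P, Q, d₀, hPQ, hQP, hσ⟩ := hss
  obtain ⟨hJ, hdet⟩ := gram_basic hψ hψ0 K
  set x := (ρ σ).1.map (algebraMap L K) with hx
  -- eigenvalues are nonzero
  have hd0 : ∀ k, d₀ k ≠ 0 := by
    intro k hk
    have h1 : x * (ρ σ⁻¹).1.map (algebraMap L K) = 1 := img_inv ρ σ
    have h2 : Matrix.diagonal d₀ * (Q * (ρ σ⁻¹).1.map (algebraMap L K) * P) = 1 := by
      calc Matrix.diagonal d₀ * (Q * (ρ σ⁻¹).1.map (algebraMap L K) * P) =
          (Q * P) * Matrix.diagonal d₀ * (Q * (ρ σ⁻¹).1.map (algebraMap L K) * P) := by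
            rw [hQP, one_mul]
        _ = Q * ((P * Matrix.diagonal d₀ * Q) * (ρ σ⁻¹).1.map (algebraMap L K)) * P := by
            noncomm_ring
        _ = 1 := by rw [← hσ, h1, mul_one, hQP]
    have h3 := congrArg (fun m => m k k) h2
    simp only [Matrix.diagonal_mul, hk, zero_mul, Matrix.one_apply_eq] at h3
    exact zero_ne_one h3
  let d : ι → Kˣ := fun k => Units.mk0 (d₀ k) (hd0 k)
  have hσ' : x = P * Matrix.diagonal (fun k => (d k : K)) * Q := hσ
  -- the multiplier
  have hsim : xᵀ * ψ.map (algebraMap ℚ K) * x = algebraMap ℚ K q • ψ.map (algebraMap ℚ K) := by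
    have := sim_map (K := K) hqσ
    rwa [show algebraMap L K (algebraMap ℚ L q) = algebraMap ℚ K q by simp] at this
  -- the roots
  have hchar : F.map (algebraMap ℚ K) = ∏ k, (X - C (d₀ k)) := by
    have h1 : x.charpoly = F.map (algebraMap ℚ K) := by
      rw [hx, Matrix.charpoly_map, hF, Polynomial.map_map]
      congr 1
      exact Subsingleton.elim _ _
    rw [← h1, hσ, Matrix.charpoly_mul_comm, ← mul_assoc, hQP, one_mul, Matrix.charpoly_diagonal]
  have halg : Algebra.IsAlgebraic ℚ (AlgebraicClosure ℚ) := by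
    have e : (DivisionRing.toRatAlgebra : Algebra ℚ (AlgebraicClosure ℚ)) =
      AlgebraicClosure.instAlgebra ℚ := Subsingleton.elim _ _
    rw [e]
    exact AlgebraicClosure.isAlgebraic ℚ
  let f : AlgebraicClosure ℚ →ₐ[ℚ] K := IsAlgClosed.lift
  have hfinj : Function.Injective f := f.toRingHom.injective
  have hmap : (F.map (algebraMap ℚ (AlgebraicClosure ℚ))).map f.toRingHom =
      F.map (algebraMap ℚ K) := by
    rw [Polynomial.map_map]
    congr 1
    exact Subsingleton.elim _ _
  have hroots : (F.map (algebraMap ℚ K)).roots = Finset.univ.val.map d₀ := by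
    rw [hchar]
    have := Polynomial.roots_multiset_prod_X_sub_C (Finset.univ.val.map d₀)
    rw [Multiset.map_map] at this
    exact this
  have hcount : (Finset.univ.filter fun k => d₀ k = f α).card = 1 := by
    have h1 : (F.map (algebraMap ℚ K)).rootMultiplicity (f α) = 1 := by
      rw [← hmap, ← hα1]
      exact (Polynomial.eq_rootMultiplicity_map (f := f.toRingHom) hfinj
        (α : AlgebraicClosure ℚ)).symm
    rw [← Polynomial.count_roots, hroots, Multiset.count_map] at h1
    rw [← h1, Finset.card_def, Finset.filter_val]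
    congr 1
    apply Multiset.filter_congr
    intro k _
    exact eq_comm
  obtain ⟨i₁, hi₁⟩ := Finset.card_eq_one.1 hcount
  have hdi₁ : d₀ i₁ = f α := by
    have : i₁ ∈ Finset.univ.filter fun k => d₀ k = f α := by rw [hi₁]; simp
    exact (Finset.mem_filter.1 this).2
  have huniq : ∀ k, d₀ k = f α → k = i₁ := by
    intro k hk
    have : k ∈ Finset.univ.filter fun k => d₀ k = f α := by simp [hk]
    rw [hi₁] at this
    exact Finset.mem_singleton.1 this
  have hι : Nonempty ι := ⟨i₁⟩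
  have hq0 : algebraMap ℚ K q ≠ 0 := by
    intro h0
    rw [h0, zero_smul] at hsim
    have h3 := congrArg Matrix.det hsim
    rw [Matrix.det_mul, Matrix.det_mul, Matrix.det_transpose, Matrix.det_zero] at h3
    have hxdet : x.det ≠ 0 := by
      intro h4
      have h1 : x * (ρ σ⁻¹).1.map (algebraMap L K) = 1 := img_inv ρ σ
      have h5 := congrArg Matrix.det h1
      rw [Matrix.det_mul, h4, zero_mul, Matrix.det_one] at h5
      exact zero_ne_one h5
    exact (mul_ne_zero (mul_ne_zero hxdet hdet.ne_zero) hxdet) h3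
  let c : Kˣ := Units.mk0 _ hq0
  have hcv : (c : K) = algebraMap ℚ K q := rfl
  have hq00 : algebraMap ℚ (AlgebraicClosure ℚ) q ≠ 0 := by
    intro h
    apply hq0
    have := congrArg f h
    rwa [map_zero, AlgHom.commutes] at this
  -- the Gram matrix in the eigenbasis
  set M : Matrix ι ι K := Pᵀ * ψ.map (algebraMap ℚ K) * P with hM
  have hsim' : (P * Matrix.diagonal (fun k => (d k : K)) * Q)ᵀ * ψ.map (algebraMap ℚ K) *
      (P * Matrix.diagonal (fun k => (d k : K)) * Q) = (c : K) • ψ.map (algebraMap ℚ K) := by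
    rw [← hσ']; exact hsim
  have hentry : ∀ i j, M i j ≠ 0 → d i * d j = c := gram_entry hQP hPQ hsim'
  have hMdet : M.det ≠ 0 := by
    rw [hM, Matrix.det_mul, Matrix.det_mul, Matrix.det_transpose]
    have hP : P.det ≠ 0 := by
      intro h
      have := congrArg Matrix.det hPQ
      rw [Matrix.det_mul, h, zero_mul, Matrix.det_one] at this
      exact zero_ne_one this
    exact mul_ne_zero (mul_ne_zero hP hdet.ne_zero) hP
  have hrow : ∀ i, ∃ j, M i j ≠ 0 := by
    intro i
    by_contra hcon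
    push Not at hcon
    exact hMdet (Matrix.det_eq_zero_of_row_eq_zero i hcon)
  -- the subgroup
  set T : Set (AlgebraicClosure ℚ)ˣ := {u : (AlgebraicClosure ℚ)ˣ |
    (u : AlgebraicClosure ℚ) = algebraMap ℚ (AlgebraicClosure ℚ) q ∨
    (aeval (u : AlgebraicClosure ℚ) F = 0 ∧ u ≠ α ∧
      (u : AlgebraicClosure ℚ) * α ≠ algebraMap ℚ (AlgebraicClosure ℚ) q)} with hT
  let fu : (AlgebraicClosure ℚ)ˣ →* Kˣ := Units.map (f : AlgebraicClosure ℚ →* K)
  have hfu : ∀ u : (AlgebraicClosure ℚ)ˣ, (fu u : K) = f u := fun u => rfl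
  have hfuinj : Function.Injective fu := by
    intro u v huv
    apply Units.ext
    apply hfinj
    rw [← hfu, ← hfu, huv]
  let B : Subgroup Kˣ := (Subgroup.closure T).map fu
  have hcB : c ∈ B := by
    refine ⟨Units.mk0 _ hq00, Subgroup.subset_closure (Or.inl rfl), ?_⟩
    apply Units.ext
    rw [hfu, hcv, Units.val_mk0, AlgHom.commutes]
  have hdα : d i₁ = fu α := by
    apply Units.ext
    rw [hfu, ← hdi₁]; rfl
  have haB : ∀ n : ℤ, n ≠ 0 → d i₁ ^ n ∉ B := by
    rintro n hn ⟨u, hu, hun⟩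
    rw [hdα, ← map_zpow] at hun
    rw [hfuinj hun] at hu
    exact hα2 n hn hu
  obtain ⟨i₂, hi₂⟩ := hrow i₁
  have h12 := hentry i₁ i₂ hi₂
  have hne : i₁ ≠ i₂ := by
    rintro rfl
    apply haB 2 (by norm_num)
    rw [zpow_two, h12]; exact hcB
  have huniq2 : ∀ k, d k * d i₁ = c → k = i₂ := by
    intro k hk
    by_contra hki
    have hz : ∀ j, d j * d i₁ = c → ∀ l, l ≠ i₁ → M j l = 0 := by
      intro j hj l hl
      by_contra h
      have h1 := hentry j l h
      have h2 : d l = d i₁ := mul_left_cancel (h1.trans hj.symm)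
      apply hl
      apply huniq
      have := congrArg (fun u : Kˣ => (u : K)) h2
      rw [← hdi₁]
      exact this
    have h21 : d i₂ * d i₁ = c := by rw [mul_comm]; exact h12
    have hv := Matrix.eq_zero_of_vecMul_eq_zero hMdet
      (v := Pi.single k (M i₂ i₁) - Pi.single i₂ (M k i₁)) (by
        ext l
        rw [Matrix.sub_vecMul, Matrix.single_vecMul, Matrix.single_vecMul]
        simp only [Pi.sub_apply, Pi.smul_apply, Matrix.row_apply, smul_eq_mul, Pi.zero_apply]
        by_cases hl : l = i₁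
        · subst hl; ring
        · rw [hz k hk l hl, hz i₂ h21 l hl]; ring)
    have h3 := congrFun hv k
    rw [Pi.sub_apply, Pi.single_eq_same, Pi.single_eq_of_ne hki, sub_zero, Pi.zero_apply] at h3
    obtain ⟨j, hj⟩ := hrow i₂
    by_cases hj1 : j = i₁
    · rw [hj1] at hj; exact hj h3
    · exact hj (hz i₂ h21 j hj1)
  have hdB : ∀ k, k ≠ i₁ → k ≠ i₂ → d k ∈ B := by
    intro k h1 h2
    have hk : d₀ k ∈ (F.map (algebraMap ℚ K)).roots := by
      rw [hroots]
      exact Multiset.mem_map_of_mem _ (Finset.mem_univ k)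
    rw [← hmap, (IsAlgClosed.splits (F.map (algebraMap ℚ
      (AlgebraicClosure ℚ)))).roots_map] at hk
    obtain ⟨β, hβ, hβk⟩ := Multiset.mem_map.1 hk
    have hβk' : f β = d₀ k := hβk
    have hβ0 : β ≠ 0 := by
      rintro rfl
      rw [map_zero] at hβk'
      exact hd0 k hβk'.symm
    refine ⟨Units.mk0 β hβ0, Subgroup.subset_closure (Or.inr ⟨?_, ?_, ?_⟩), ?_⟩
    · have h3 := (Polynomial.mem_roots'.1 hβ).2
      rw [Polynomial.IsRoot, Polynomial.eval_map] at h3
      exact h3
    · intro h3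
      apply h1
      apply huniq
      rw [← hβk', ← h3]; rfl
    · intro h3
      apply h2
      apply huniq2
      apply Units.ext
      rw [Units.val_mul, hdα, hfu, hcv]
      have h4 := congrArg f h3
      rw [map_mul, AlgHom.commutes] at h4
      rw [← h4]
      change d₀ k * f α = f β * f α
      rw [hβk']
    · apply Units.ext
      rw [hfu]
      exact hβk'
  refine monodromy_indep hψ hψ0 ρ sim irr (d := d) (c := c) hQP hPQ hσ' hsim ?_ h12 hne hcB
    hdB haB H hH
  intro n hn h
  apply hq n hn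
  have h1 := congrArg (fun u : Kˣ => (u : K)) h
  simp only [Units.val_pow_eq_pow_val, Units.val_one, hcv] at h1
  rw [← map_pow, ← map_one (algebraMap ℚ K)] at h1
  exact (algebraMap ℚ K).injective h1

end Pool.Agent.H53Toric
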