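import Pool.Agent.Lib.H53Toric.Torus

/-!
# The Lie algebra of the torus generated by a diagonalisable matrix
-/

set_option autoImplicit false
set_option linter.unusedSectionVars false
namespace Pool.Agent.H53Toric
open MvPolynomial Matrix

variable {ι : Type*} [Fintype ι] [DecidableEq ι] {K : Type*} [Field K]

theorem one_add_zpow {R : Type*} [CommRing R] {e : R} (he : e * e = 0) {w : Rˣ}
    (hw : (w : R) = 1 + e) (n : ℤ) : ((w ^ n : Rˣ) : R) = 1 + (n : R) * e := by
  have hw' : ((w⁻¹ : Rˣ) : R) = 1 - e := by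
    apply Units.inv_eq_of_mul_eq_one_left
    rw [hw]
    linear_combination -he
  have key : ∀ (v : Rˣ) (x : R), x * x = 0 → (v : R) = 1 + x → ∀ n : ℕ,
      ((v ^ n : Rˣ) : R) = 1 + (n : R) * x := by
    intro v x hx hv n
    induction n with
    | zero => simp
    | succ n ih =>
      rw [pow_succ, Units.val_mul, ih, hv]
      push_cast
      linear_combination (n : R) * hx
  cases n with
  | ofNat n =>
    rw [Int.ofNat_eq_natCast, zpow_natCast, key w e he hw]
    push_cast
    ring
  | negSucc n =>
    rw [zpow_negSucc, ← inv_pow, key w⁻¹ (-e) (by linear_combination he) (by rw [hw']; ring)]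
    push_cast
    ring

/-- The infinitesimal generator of a one parameter group of torus elements belongs to the Lie
algebra. -/
theorem torus_zlie [CharZero K] {P Q : Matrix ι ι K} (hQP : Q * P = 1) (hPQ : P * Q = 1) {d : ι → Kˣ}
    {S : Set (Matrix ι ι K)} (hS : ∀ a ∈ S, ∀ b ∈ S, a * b ∈ S)
    (hx : ∀ n : ℕ, (P * Matrix.diagonal (fun k => (d k : K)) * Q) ^ n ∈ S)
    {B : Subgroup Kˣ} {a : Kˣ} (ha : ∀ n : ℤ, n ≠ 0 → a ^ n ∉ B) {ε : ι → ℤ}
    (hd : ∀ k, d k * (a ^ ε k)⁻¹ ∈ B) :
    P * Matrix.diagonal (fun k => (ε k : K)) * Q ∈ zlie S := by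
  intro f hf s hs
  set D := P * Matrix.diagonal (fun k => (ε k : K)) * Q with hD
  have heps : (DualNumber.eps : DualNumber K) * DualNumber.eps = 0 := DualNumber.eps_mul_eps
  let w : (DualNumber K)ˣ :=
    ⟨1 + DualNumber.eps, 1 - DualNumber.eps, by linear_combination -heps,
      by linear_combination -heps⟩
  have hw : (w : DualNumber K) = 1 + DualNumber.eps := rfl
  have h1 := gen_special hQP hPQ (f := subL s f) (d := d) (by
    intro n
    rw [ev_subL]
    exact hf _ (hS _ hs _ (hx n))) ha hd w
  have h2 : (fun p : ι × ι => ∑ k, (P p.1 k * Q k p.2) • ((w ^ ε k : (DualNumber K)ˣ) :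
      DualNumber K)) = fun p => algebraMap K (DualNumber K) ((1 : Matrix ι ι K) p.1 p.2) +
        DualNumber.eps * algebraMap K (DualNumber K) (D p.1 p.2) := by
    funext p
    have e1 : ∀ k, ((w ^ ε k : (DualNumber K)ˣ) : DualNumber K) =
        1 + algebraMap K (DualNumber K) (ε k : K) * DualNumber.eps := by
      intro k
      rw [one_add_zpow heps hw, map_intCast]
    simp only [e1]
    rw [hD, diag_apply, ← hPQ, Matrix.mul_apply, map_sum, map_sum, Finset.mul_sum,
      ← Finset.sum_add_distrib]
    apply Finset.sum_congr rfl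
    intro k _
    rw [Algebra.smul_def, map_mul (algebraMap K (DualNumber K)) (P p.1 k * Q k p.2)]
    ring
  rw [h2] at h1
  have h3 : ∀ g : MvPolynomial (ι × ι) K, aeval (fun p : ι × ι =>
      algebraMap K (DualNumber K) ((1 : Matrix ι ι K) p.1 p.2) +
        DualNumber.eps * algebraMap K (DualNumber K) (D p.1 p.2)) g =
      Polynomial.aeval (DualNumber.eps : DualNumber K) (lin 1 D g) := by
    intro g
    have : aeval (fun p : ι × ι =>
      algebraMap K (DualNumber K) ((1 : Matrix ι ι K) p.1 p.2) +
        DualNumber.eps * algebraMap K (DualNumber K) (D p.1 p.2)) =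
        (Polynomial.aeval (DualNumber.eps : DualNumber K)).comp (lin 1 D) := by
      apply MvPolynomial.algHom_ext
      intro p
      rw [AlgHom.comp_apply, lin, aeval_X, aeval_X, map_add, map_mul, Polynomial.aeval_C,
        Polynomial.aeval_C, Polynomial.aeval_X]
    exact congrArg (fun φ => φ g) this
  rw [h3] at h1
  have h4 : lin 1 D (subL s f) = lin s (s * D) f := by
    apply Polynomial.funext
    intro t
    rw [eval_lin, eval_lin, ev_subL, mul_add, mul_one, mul_smul_comm]
  rw [h4] at h1
  rw [← eval_derivative_lin]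
  set p := lin s (s * D) f with hp
  have h5 := Polynomial.aeval_add_of_sq_eq_zero p (0 : DualNumber K) DualNumber.eps
    (by rw [pow_two]; exact heps)
  rw [zero_add, h1] at h5
  have h6 : ∀ q : Polynomial K, Polynomial.aeval (0 : DualNumber K) q =
      algebraMap K (DualNumber K) (q.eval 0) := by
    intro q
    have := Polynomial.aeval_algebraMap_apply (DualNumber K) (0 : K) q
    rw [map_zero] at this
    rw [this, Polynomial.coe_aeval_eq_eval]
  rw [h6, h6] at h5
  have h7 := congrArg TrivSqZeroExt.snd h5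
  rw [← Algebra.smul_def, TrivSqZeroExt.snd_add, TrivSqZeroExt.snd_smul, DualNumber.snd_eps,
    TrivSqZeroExt.snd_zero, TrivSqZeroExt.algebraMap_eq_inl, TrivSqZeroExt.snd_inl] at h7
  simpa using h7.symm

end Pool.Agent.H53Toric
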