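import Pool.Agent.Lib.H53Toric.Irred
import Pool.Agent.Lib.H53Toric.TorusLie
import Pool.Agent.Lib.H53Toric.Assemble

/-!
# Zariski density from an independent eigenvalue
-/

set_option autoImplicit false
set_option linter.unusedSectionVars false
namespace Pool.Agent.H53Toric
open Module Matrix

variable {ι : Type*} [Fintype ι] [DecidableEq ι] {K : Type*} [Field K]

/-- The Lie algebra is stable under conjugation. -/
theorem zlie_conj [CharZero K] {S : Set (Matrix ι ι K)} (hS : ∀ a ∈ S, ∀ b ∈ S, a * b ∈ S)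
    {s s' X : Matrix ι ι K} (hs : s ∈ S) (hs' : s' ∈ S) (hss : s * s' = 1) (hX : X ∈ zlie S) :
    s * X * s' ∈ zlie S := by
  intro f hf x hx
  have h1 := hX (subR s' f) (by
    intro y hy
    rw [ev_subR]
    exact hf _ (hS _ hy _ hs')) (x * s) (hS _ hx _ hs)
  rw [← eval_derivative_lin] at h1 ⊢
  have h2 : lin (x * s) (x * s * X) (subR s' f) = lin x (x * (s * X * s')) f := by
    apply Polynomial.funext
    intro t
    rw [eval_lin, eval_lin, ev_subR]
    congr 1
    rw [add_mul, smul_mul_assoc, mul_assoc, hss, mul_one]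
    congr 2
    noncomm_ring
  rw [← h2]
  exact h1

/-- The skew operators. -/
noncomputable def skewE (J : Matrix ι ι K) : Submodule K (Module.End K (ι → K)) :=
  LinearMap.ker (adjE J + LinearMap.id)

theorem mem_skewE {J : Matrix ι ι K} {X : Module.End K (ι → K)} :
    X ∈ skewE J ↔ adjE J X = -X := by
  rw [skewE, LinearMap.mem_ker, LinearMap.add_apply, LinearMap.id_apply,
    ← eq_neg_iff_add_eq_zero]

/-- The skew part of the Lie algebra. -/
noncomputable def lieE (J : Matrix ι ι K) (S : Set (Matrix ι ι K)) :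
    Submodule K (Module.End K (ι → K)) :=
  (zlie S).map (phi (ι := ι) (K := K)).toLinearMap ⊓ skewE J

theorem mem_lieE {J : Matrix ι ι K} {S : Set (Matrix ι ι K)} {X : Matrix ι ι K} :
    phi X ∈ lieE J S ↔ X ∈ zlie S ∧ adjE J (phi X) = -phi X := by
  rw [lieE, Submodule.mem_inf, mem_skewE]
  constructor
  · rintro ⟨⟨Y, hY, hYX⟩, h2⟩
    have hYX' : Y = X := (phi (ι := ι) (K := K)).injective hYX
    exact ⟨hYX' ▸ hY, h2⟩
  · rintro ⟨h1, h2⟩
    exact ⟨⟨X, h1, rfl⟩, h2⟩

theorem br_neg {R : Type*} [Ring R] (a b : R) :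
    (-b) * (-a) - (-a) * (-b) = -(a * b - b * a) := by
  rw [neg_mul_neg, neg_mul_neg, neg_sub]

theorem lieE_lie {J : Matrix ι ι K} (hdet : IsUnit J.det) (S : Set (Matrix ι ι K)) :
    IsLie (lieE J S) := by
  intro X hX Y hY
  obtain ⟨x, rfl⟩ := (phi (ι := ι) (K := K)).surjective X
  obtain ⟨y, rfl⟩ := (phi (ι := ι) (K := K)).surjective Y
  have h1 := mem_lieE.1 hX
  have h2 := mem_lieE.1 hY
  rw [← map_mul, ← map_mul, ← map_sub, mem_lieE]
  refine ⟨zlie_comm h1.1 h2.1, ?_⟩
  have e : phi (x * y - y * x) = phi x * phi y - phi y * phi x := by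
    rw [map_sub, map_mul (phi (ι := ι) (K := K)), map_mul (phi (ι := ι) (K := K))]
  rw [e, map_sub, adjE_mul hdet, adjE_mul hdet, h1.2, h2.2]
  exact br_neg _ _

theorem lieE_conj [CharZero K] {J : Matrix ι ι K} (hdet : IsUnit J.det)
    {S : Set (Matrix ι ι K)} (hS : ∀ a ∈ S, ∀ b ∈ S, a * b ∈ S)
    {s s' : Matrix ι ι K} (hs : s ∈ S) (hs' : s' ∈ S) (hss : s * s' = 1) {c : K}
    (hc : sᵀ * J * s = c • J) {X : Module.End K (ι → K)} (hX : X ∈ lieE J S) :
    phi s * X * phi s' ∈ lieE J S := by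
  obtain ⟨x, rfl⟩ := (phi (ι := ι) (K := K)).surjective X
  have h1 := mem_lieE.1 hX
  rw [← map_mul, ← map_mul, mem_lieE]
  refine ⟨zlie_conj hS hs hs' hss h1.1, ?_⟩
  rw [skew_iff hdet] at h1 ⊢
  have hss' : s'ᵀ * sᵀ = 1 := by rw [← Matrix.transpose_mul, hss, Matrix.transpose_one]
  have h2 : sᵀ * J = c • (J * s') := by
    calc sᵀ * J = sᵀ * J * (s * s') := by rw [hss, mul_one]
      _ = (sᵀ * J * s) * s' := by noncomm_ring
      _ = _ := by rw [hc, smul_mul_assoc]
  have h3 : J * s = c • (s'ᵀ * J) := by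
    calc J * s = (s'ᵀ * sᵀ) * J * s := by rw [hss', one_mul]
      _ = s'ᵀ * (sᵀ * J * s) := by noncomm_ring
      _ = _ := by rw [hc, mul_smul_comm]
  rw [Matrix.transpose_mul, Matrix.transpose_mul]
  calc s'ᵀ * (xᵀ * sᵀ) * J + J * (s * x * s') =
      s'ᵀ * xᵀ * (sᵀ * J) + (J * s) * x * s' := by noncomm_ring
    _ = c • (s'ᵀ * (xᵀ * J + J * x) * s') := by
        rw [h2, h3]
        simp only [mul_smul_comm, smul_mul_assoc, ← smul_add]
        congr 1
        noncomm_ring
    _ = 0 := by rw [h1.2]; simp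

/-- From the Lie algebra to the group: if the Lie algebra contains all skew matrices and there
are infinitely many scalars, then the closure contains all similitudes. -/
theorem gsp_of_lie [IsAlgClosed K] [CharZero K] {J : Matrix ι ι K} (hJ : Jᵀ = -J)
    (hdet : IsUnit J.det) {S : Set (Matrix ι ι K)} (hS1 : (1 : Matrix ι ι K) ∈ S)
    (hS : ∀ a ∈ S, ∀ b ∈ S, a * b ∈ S)
    (hlie : ∀ X : Matrix ι ι K, Xᵀ * J + J * X = 0 → X ∈ zlie S)
    {s s' : Matrix ι ι K} (hs : s ∈ S) (hs' : s' ∈ S) (hss : s * s' = 1) {c₀ : K}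
    (hc₀ : sᵀ * J * s = c₀ • J) (hroot : ∀ n : ℕ, n ≠ 0 → c₀ ^ n ≠ 1)
    {x : Matrix ι ι K} (hx : IsUnit x.det) {c : K} (hc : xᵀ * J * x = c • J) : x ∈ zar S := by
  -- transvections
  have htrv : ∀ (a : K) (d : ι → K), 1 + a • Matrix.vecMulVec d (J *ᵥ d) ∈ zar S := by
    intro a d
    have h2 : Matrix.vecMulVec d (J *ᵥ d) * Matrix.vecMulVec d (J *ᵥ d) = 0 := by
      apply (phi (ι := ι) (K := K)).injective
      rw [map_mul, phi_trv, map_zero, trv_sq (om_alt hJ)]
    have h1 := hlie _ (trv_skew hJ d)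
    have := zlie_exp h1 h2 1 hS1 a
    rwa [one_mul] at this
  -- isometries
  have hiso : ∀ y : Matrix ι ι K, yᵀ * J * y = J → y ∈ zar S := by
    intro y hy
    have h1 := sp_mem (ω := om J) (Z := {X | (phi (ι := ι) (K := K)).symm X ∈ zar S})
      (om_alt hJ) (om_nd hdet) (by
        change (phi (ι := ι) (K := K)).symm 1 ∈ zar S
        rw [map_one]; exact subset_zar S hS1) (by
        intro a ha b hb
        change (phi (ι := ι) (K := K)).symm (a * b) ∈ zar S
        rw [map_mul]; exact zar_mul hS ha hb) (by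
        intro a d
        change (phi (ι := ι) (K := K)).symm (1 + a • trv (om J) d) ∈ zar S
        rw [← phi_trv, ← map_smul, ← map_one (phi (ι := ι) (K := K)), ← map_add,
          AlgEquiv.symm_apply_apply]
        exact htrv a d) (finrank K (ι → K)) (phi y) (by
        intro v w
        rw [phi_apply, phi_apply, om_mul, hy]) (Nat.le_add_left _ _)
    change (phi (ι := ι) (K := K)).symm (phi y) ∈ zar S at h1
    rwa [AlgEquiv.symm_apply_apply] at h1
  have hJ0 : J ≠ 0 ∨ ∀ y z : Matrix ι ι K, y = z := by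
    rcases isEmpty_or_nonempty ι with hι | hι
    · right
      intro y z
      ext i
      exact (hι.false i).elim
    · left
      rintro rfl
      rw [Matrix.det_zero] at hdet
      exact not_isUnit_zero hdet
  rcases hJ0 with hJ0 | hJ0
  swap
  · rw [hJ0 x 1]; exact subset_zar S hS1
  have hc00 : c₀ ≠ 0 := by
    rintro rfl
    rw [zero_smul] at hc₀
    have hss' : s'ᵀ * sᵀ = 1 := by rw [← Matrix.transpose_mul, hss, Matrix.transpose_one]
    apply hJ0
    calc J = (s'ᵀ * sᵀ) * J * (s * s') := by rw [hss', hss, one_mul, mul_one]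
      _ = s'ᵀ * (sᵀ * J * s) * s' := by noncomm_ring
      _ = 0 := by rw [hc₀]; simp
  -- infinitely many scalars
  have hpow : ∀ n : ℕ, s ^ n ∈ S ∧ s' ^ n ∈ S ∧ s ^ n * s' ^ n = 1 ∧
      (s ^ n)ᵀ * J * s ^ n = c₀ ^ n • J := by
    intro n
    induction n with
    | zero => exact ⟨by simpa using hS1, by simpa using hS1, by simp, by simp⟩
    | succ n ih =>
      obtain ⟨h1, h2, h3, h4⟩ := ih
      refine ⟨?_, ?_, ?_, ?_⟩
      · rw [pow_succ]; exact hS _ h1 _ hs
      · rw [pow_succ']; exact hS _ hs' _ h2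
      · calc s ^ (n + 1) * s' ^ (n + 1) = s ^ n * (s * s') * s' ^ n := by
              rw [pow_succ s n, pow_succ' s' n]; noncomm_ring
          _ = 1 := by rw [hss, mul_one, h3]
      · rw [pow_succ, Matrix.transpose_mul]
        calc sᵀ * (s ^ n)ᵀ * J * (s ^ n * s) = sᵀ * ((s ^ n)ᵀ * J * s ^ n) * s := by
              noncomm_ring
          _ = c₀ ^ n • (sᵀ * J * s) := by rw [h4, mul_smul_comm, smul_mul_assoc]
          _ = _ := by rw [hc₀, smul_smul, pow_succ]
  have hroots : ∀ n : ℕ, ∃ a : K, a * a = (c₀ ^ n)⁻¹ := by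
    intro n
    obtain ⟨a, ha⟩ := IsAlgClosed.exists_pow_nat_eq (c₀ ^ n)⁻¹ (n := 2) (by norm_num)
    exact ⟨a, by rw [← ha, pow_two]⟩
  choose a ha using hroots
  have hainj : Function.Injective a := by
    have key : ∀ m n : ℕ, m < n → a m ≠ a n := by
      intro m n hmn h
      have h1 : (c₀ ^ m)⁻¹ = (c₀ ^ n)⁻¹ := by rw [← ha, ← ha, h]
      have h2 : c₀ ^ m = c₀ ^ n := inv_injective h1
      obtain ⟨k, rfl⟩ := Nat.exists_eq_add_of_lt hmn
      have h3 : c₀ ^ (k + 1) = 1 := by
        have h4 : c₀ ^ m * c₀ ^ (k + 1) = c₀ ^ m * 1 := by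
          rw [mul_one, ← pow_add, h2]
          congr 1
        exact mul_left_cancel₀ (pow_ne_zero m hc00) h4
      exact hroot _ (Nat.succ_ne_zero k) h3
    intro m n h
    by_contra hne
    rcases lt_or_gt_of_ne hne with h1 | h1
    · exact key m n h1 h
    · exact key n m h1 h.symm
  have hmem : ∀ n : ℕ, a n • (1 : Matrix ι ι K) ∈ zar S := by
    intro n
    obtain ⟨h1, h2, h3, h4⟩ := hpow n
    have h5 : a n • s ^ n ∈ zar S := by
      apply hiso
      rw [Matrix.transpose_smul]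
      simp only [smul_mul_assoc, mul_smul_comm, h4, smul_smul]
      have h6 : a n * (a n * c₀ ^ n) = 1 := by
        rw [← mul_assoc, ha, inv_mul_cancel₀ (pow_ne_zero n hc00)]
      rw [h6, one_smul]
    have h7 := zar_mul hS h5 (subset_zar S h2)
    rwa [smul_mul_assoc, h3] at h7
  have hscal : ∀ t : K, t • (1 : Matrix ι ι K) ∈ zar S := by
    intro t
    have := line_subset_zar (S := S) (x := 0) (y := 1) (T := Set.range a)
      (Set.infinite_range_of_injective hainj) (by
        rintro _ ⟨n, rfl⟩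
        rw [zero_add]
        exact hmem n) t
    rwa [zero_add] at this
  have hc0 : c ≠ 0 := by
    rintro rfl
    rw [zero_smul] at hc
    have h3 := congrArg Matrix.det hc
    rw [Matrix.det_mul, Matrix.det_mul, Matrix.det_transpose] at h3
    have hne : Nonempty ι := by
      by_contra hemp
      rw [not_nonempty_iff] at hemp
      apply hJ0
      ext i
      exact (hemp.false i).elim
    rw [Matrix.det_zero] at h3
    exact (mul_ne_zero (mul_ne_zero hx.ne_zero hdet.ne_zero) hx.ne_zero) h3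
  obtain ⟨b, hb⟩ := IsAlgClosed.exists_pow_nat_eq c⁻¹ (n := 2) (by norm_num)
  have hb0 : b ≠ 0 := by
    rintro rfl
    rw [zero_pow (by norm_num)] at hb
    exact inv_ne_zero hc0 hb.symm
  have h8 : b • x ∈ zar S := by
    apply hiso
    rw [Matrix.transpose_smul]
    simp only [smul_mul_assoc, mul_smul_comm, hc, smul_smul]
    have h6 : b * (b * c) = 1 := by
      rw [← mul_assoc, ← pow_two, hb, inv_mul_cancel₀ hc0]
    rw [h6, one_smul]
  have h9 := zar_mul hS h8 (hscal b⁻¹)
  rwa [smul_mul_smul_comm, mul_inv_cancel₀ hb0, mul_one, one_smul] at h9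

end Pool.Agent.H53Toric
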