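import Pool.Agent.Lib.H53Toric.Core9

/-!
# From the Lie algebra of a group to the span of the involutions
-/

set_option autoImplicit false
set_option linter.unusedSectionVars false
namespace Pool.Agent.H53Toric
open Module
attribute [local instance 100] LieRing.ofAssociativeRing
variable {K : Type*} [Field K] {V : Type*} [AddCommGroup V] [Module K V]
variable [IsAlgClosed K] [CharZero K] [FiniteDimensional K V] [Nontrivial V]

/-- The involutions in a space of operators, skew for `adj`. -/
def invol (L : Submodule K (Module.End K V)) (adj : Module.End K V →ₗ[K] Module.End K V) :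
    Set (Module.End K V) :=
  {y | y ∈ L ∧ y * y = 1 ∧ adj y = -y}

/-- The hypotheses on the ambient Lie algebra. -/
structure Amb (L : Submodule K (Module.End K V))
    (adj : Module.End K V →ₗ[K] Module.End K V) : Prop where
  lie : IsLie L
  adj_mul : ∀ X Y, adj (X * Y) = adj Y * adj X
  adj_adj : ∀ X, adj (adj X) = X
  adj_tr : ∀ X, LinearMap.trace K V (adj X) = LinearMap.trace K V X
  irr : ∀ W : Submodule K V, (∀ y ∈ invol L adj, ∀ w ∈ W, y w ∈ W) → W = ⊥ ∨ W = ⊤

section

variable {L : Submodule K (Module.End K V)} {adj : Module.End K V →ₗ[K] Module.End K V}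
  (h : Amb L adj)

include h

theorem Amb.adj_one : adj 1 = 1 := by
  have h1 := h.adj_mul (adj 1) 1
  rw [mul_one, h.adj_adj, mul_one] at h1
  exact h1.symm

/-- Perturbation of an involution. -/
theorem Amb.pert {y X : Module.End K V} (hy : y ∈ invol L adj) (hX : X ∈ L) (hXs : adj X = -X)
    (h1 : y * X + X * y = 0) (h2 : X * X = 0) : X ∈ Submodule.span K (invol L adj) := by
  have h3 : y - X ∈ invol L adj := by
    refine ⟨L.sub_mem hy.1 hX, ?_, ?_⟩
    · have e : (y - X) * (y - X) = y * y - (y * X + X * y) + X * X := by noncomm_ring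
      rw [e, hy.2.1, h1, h2, sub_zero, add_zero]
    · rw [map_sub, hy.2.2, hXs]; abel
  have e : X = y - (y - X) := by abel
  rw [e]
  exact Submodule.sub_mem _ (Submodule.subset_span hy) (Submodule.subset_span h3)

theorem Amb.bracket {y y' : Module.End K V} (hy : y ∈ invol L adj) (hy' : y' ∈ invol L adj) :
    y' * y - y * y' ∈ Submodule.span K (invol L adj) := by
  have hp : (1 + y') * y * (1 - y') ∈ Submodule.span K (invol L adj) := by
    apply h.pert hy' (h.lie.plus hy'.1 hy'.2.1 hy.1)
    · rw [h.adj_mul, h.adj_mul, map_sub, map_add, h.adj_one, hy.2.2, hy'.2.2]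
      noncomm_ring
    · have e : y' * ((1 + y') * y * (1 - y')) + (1 + y') * y * (1 - y') * y' =
          (y' + y' * y') * y * (1 - y') + (1 + y') * y * (y' - y' * y') := by noncomm_ring
      rw [e, hy'.2.1]; noncomm_ring
    · have e : (1 + y') * y * (1 - y') * ((1 + y') * y * (1 - y')) =
          (1 + y') * y * (1 - y' * y') * y * (1 - y') := by noncomm_ring
      rw [e, hy'.2.1]; simp
  have hm : (1 - y') * y * (1 + y') ∈ Submodule.span K (invol L adj) := by
    apply h.pert hy' (h.lie.minus hy'.1 hy'.2.1 hy.1)
    · rw [h.adj_mul, h.adj_mul, map_sub, map_add, h.adj_one, hy.2.2, hy'.2.2]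
      noncomm_ring
    · have e : y' * ((1 - y') * y * (1 + y')) + (1 - y') * y * (1 + y') * y' =
          (y' - y' * y') * y * (1 + y') + (1 - y') * y * (y' + y' * y') := by noncomm_ring
      rw [e, hy'.2.1]; noncomm_ring
    · have e : (1 - y') * y * (1 + y') * ((1 - y') * y * (1 + y')) =
          (1 - y') * y * (1 - y' * y') * y * (1 + y') := by noncomm_ring
      rw [e, hy'.2.1]; simp
  have e : y' * y - y * y' = (1 / 2 : K) • ((1 + y') * y * (1 - y') -
      (1 - y') * y * (1 + y')) := by
    have : (1 + y') * y * (1 - y') - (1 - y') * y * (1 + y') =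
        (2 : K) • (y' * y - y * y') := by
      rw [two_smul]; noncomm_ring
    rw [this, smul_smul]
    norm_num
  rw [e]
  exact Submodule.smul_mem _ _ (Submodule.sub_mem _ hp hm)

/-- The span of the involutions satisfies the standing assumptions. -/
theorem Amb.setup : Setup (Submodule.span K (invol L adj)) adj where
  lie := by
    intro X hX Y hY
    induction hX using Submodule.span_induction with
    | mem y' hy' =>
      induction hY using Submodule.span_induction with
      | mem y hy => exact h.bracket hy hy'
      | zero => simp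
      | add a b _ _ ha hb =>
        have e : y' * (a + b) - (a + b) * y' = (y' * a - a * y') + (y' * b - b * y') := by
          noncomm_ring
        rw [e]; exact Submodule.add_mem _ ha hb
      | smul c a _ ha =>
        rw [mul_smul_comm, smul_mul_assoc, ← smul_sub]
        exact Submodule.smul_mem _ _ ha
    | zero => simp
    | add a b _ _ ha hb =>
      have e : (a + b) * Y - Y * (a + b) = (a * Y - Y * a) + (b * Y - Y * b) := by
        noncomm_ring
      rw [e]; exact Submodule.add_mem _ ha hb
    | smul c a _ ha =>
      rw [mul_smul_comm, smul_mul_assoc, ← smul_sub]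
      exact Submodule.smul_mem _ _ ha
  irr := fun W hW => h.irr W fun y hy => hW y (Submodule.subset_span hy)
  adj_mul := h.adj_mul
  adj_adj := h.adj_adj
  adj_tr := h.adj_tr
  skew := by
    intro X hX
    induction hX using Submodule.span_induction with
    | mem y hy => exact hy.2.2
    | zero => simp
    | add a b _ _ ha hb => rw [map_add, ha, hb]; abel
    | smul c a _ ha => rw [map_smul, ha, smul_neg]
  span := by
    apply Submodule.span_le.2
    intro y hy
    exact Submodule.subset_span ⟨Submodule.subset_span hy, hy.2.1⟩

/-- Brackets with a square zero element of `L` preserve the span. -/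
theorem Amb.stable {N X : Module.End K V} (hN : N ∈ L) (hN2 : N * N = 0) (hNs : adj N = -N)
    (hX : X ∈ Submodule.span K (invol L adj)) :
    N * X - X * N ∈ Submodule.span K (invol L adj) := by
  induction hX using Submodule.span_induction with
  | mem y hy =>
    have key : ∀ N : Module.End K V, N ∈ L → N * N = 0 → adj N = -N →
        (1 + N) * y * (1 - N) ∈ invol L adj := by
      intro N hN hN2 hNs
      refine ⟨?_, ?_, ?_⟩
      · have h1 := L.sub_mem (L.add_mem hy.1 (h.lie N hN y hy.1)) (h.lie.sandwich hN hN2 hy.1)
        convert h1 using 1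
        noncomm_ring
      · calc ((1 + N) * y * (1 - N)) * ((1 + N) * y * (1 - N)) =
            (1 + N) * y * (1 - N * N) * y * (1 - N) := by noncomm_ring
          _ = (1 + N) * (y * y) * (1 - N) := by rw [hN2]; noncomm_ring
          _ = 1 - N * N := by rw [hy.2.1]; noncomm_ring
          _ = 1 := by rw [hN2, sub_zero]
      · rw [h.adj_mul, h.adj_mul, map_sub, map_add, h.adj_one, hy.2.2, hNs]
        noncomm_ring
    have h1 := key N hN hN2 hNs
    have h2 := key (-N) (L.neg_mem hN) (by rw [neg_mul_neg, hN2]) (by rw [map_neg, hNs])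
    have e : N * y - y * N = (1 / 2 : K) • ((1 + N) * y * (1 - N) -
        (1 + -N) * y * (1 - -N)) := by
      have : (1 + N) * y * (1 - N) - (1 + -N) * y * (1 - -N) =
          (2 : K) • (N * y - y * N) := by
        rw [two_smul]; noncomm_ring
      rw [this, smul_smul]
      norm_num
    rw [e]
    exact Submodule.smul_mem _ _ (Submodule.sub_mem _ (Submodule.subset_span h1)
      (Submodule.subset_span h2))
  | zero => simp
  | add a b _ _ ha hb =>
    have e : N * (a + b) - (a + b) * N = (N * a - a * N) + (N * b - b * N) := by
      noncomm_ring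
    rw [e]; exact Submodule.add_mem _ ha hb
  | smul c a _ ha =>
    rw [mul_smul_comm, smul_mul_assoc, ← smul_sub]
    exact Submodule.smul_mem _ _ ha

omit h in
/-- An operator normalising an irreducible traceless Lie algebra is an element plus a scalar. -/
theorem exists_inner {g : Submodule K (Module.End K V)} (hg : IsLie g) (hirr : Irr g)
    (htr : ∀ X ∈ g, LinearMap.trace K V X = 0) {N : Module.End K V}
    (hN : ∀ X ∈ g, N * X - X * N ∈ g) : ∃ X ∈ g, ∃ c : K, N = X + c • 1 := by
  have hR := lieSub_trivialRadical g hg hirr htr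
  have hK : LieAlgebra.IsKilling K (lieSub g hg) :=
    LieAlgebra.HasTrivialRadical.instIsKilling K (lieSub g hg)
  let D : LieDerivation K (lieSub g hg) (lieSub g hg) :=
    { toFun := fun X => ⟨N * X.1 - X.1 * N, hN X.1 X.2⟩
      map_add' := by
        intro a b
        apply Subtype.ext
        change N * (a.1 + b.1) - (a.1 + b.1) * N = (N * a.1 - a.1 * N) + (N * b.1 - b.1 * N)
        noncomm_ring
      map_smul' := by
        intro c a
        apply Subtype.ext
        change N * (c • a.1) - (c • a.1) * N = c • (N * a.1 - a.1 * N)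
        rw [mul_smul_comm, smul_mul_assoc, ← smul_sub]
      leibniz' := by
        intro a b
        apply Subtype.ext
        change N * (a.1 * b.1 - b.1 * a.1) - (a.1 * b.1 - b.1 * a.1) * N =
          (a.1 * (N * b.1 - b.1 * N) - (N * b.1 - b.1 * N) * a.1) -
          (b.1 * (N * a.1 - a.1 * N) - (N * a.1 - a.1 * N) * b.1)
        noncomm_ring }
  obtain ⟨x, hx⟩ := LieDerivation.IsKilling.exists_eq_ad D
  have hcomm : ∀ X ∈ g, (N - x.1) * X = X * (N - x.1) := by
    intro X hX
    have h1 := congrArg (fun D : LieDerivation K (lieSub g hg) (lieSub g hg) =>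
      (D ⟨X, hX⟩).1) hx
    simp only [LieDerivation.ad_apply_apply] at h1
    change x.1 * X - X * x.1 = N * X - X * N at h1
    have : (N - x.1) * X - X * (N - x.1) = (N * X - X * N) - (x.1 * X - X * x.1) := by
      noncomm_ring
    rw [← sub_eq_zero, this, h1, sub_self]
  obtain ⟨c, hc⟩ := Module.End.exists_eigenvalue (N - x.1)
  refine ⟨x.1, x.2, c, ?_⟩
  have hW := hirr (Module.End.eigenspace (N - x.1) c) (by
    intro X hX w hw
    rw [Module.End.mem_eigenspace_iff] at hw ⊢
    have := LinearMap.congr_fun (hcomm X hX) w
    change (N - x.1) (X w) = X ((N - x.1) w) at this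
    rw [this, hw, map_smul])
  rcases hW with hW | hW
  · exact absurd hW hc
  · rw [← sub_eq_iff_eq_add']
    ext v
    have : v ∈ Module.End.eigenspace (N - x.1) c := by rw [hW]; trivial
    rw [Module.End.mem_eigenspace_iff] at this
    rw [this]; rfl

/-- **Main theorem.** A Lie algebra of operators containing enough skew involutions to act
irreducibly, and a skew square zero element of odd rank, contains all skew operators. -/
theorem Amb.full {N : Module.End K V} (hN : N ∈ L) (hN2 : N * N = 0) (hNs : adj N = -N)
    (hodd : Odd (finrank K (LinearMap.range N))) {X : Module.End K V} (hX : adj X = -X) :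
    X ∈ Submodule.span K (invol L adj) := by
  have hS := h.setup
  have hNg : N ∈ Submodule.span K (invol L adj) := by
    obtain ⟨Z, hZ, c, hc⟩ := exists_inner hS.lie hS.irr hS.tr (N := N)
      (fun X hX => h.stable hN hN2 hNs hX)
    have h1 := (LinearMap.isNilpotent_trace_of_isNilpotent (⟨2, by
      rw [pow_two, hN2]⟩ : IsNilpotent N)).eq_zero
    rw [hc, map_add, hS.tr Z hZ, zero_add, map_smul, LinearMap.trace_one, smul_eq_mul,
      mul_eq_zero] at h1
    rcases h1 with h1 | h1
    · rw [hc, h1, zero_smul, add_zero]; exact hZ
    · exact absurd h1 (Nat.cast_ne_zero.2 (finrank_pos).ne')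
  exact hS.full hNg hN2 hodd hX

end

end Pool.Agent.H53Toric
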