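import Pool.Agent.Lib.H53Toric.Core1

/-!
# Reduction to an extremal element of odd rank
-/

set_option autoImplicit false
set_option linter.unusedSectionVars false
namespace Pool.Agent.H53Toric
open Module Polynomial
attribute [local instance 100] LieRing.ofAssociativeRing
variable {K : Type*} [Field K] {V : Type*} [AddCommGroup V] [Module K V]

/-- The Fitting idempotent of an operator, as a polynomial without constant term. -/
theorem fitting [FiniteDimensional K V] (b : Module.End K V) :
    ∃ p : K[X], ∃ k : ℕ, (aeval b (X * p)) * (aeval b (X * p)) = aeval b (X * p) ∧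
      b ^ k * aeval b (X * p) = b ^ k := by
  have hb : IsIntegral K b := Algebra.IsIntegral.isIntegral b
  have hm : minpoly K b ≠ 0 := minpoly.ne_zero hb
  obtain ⟨q, hq, hnd⟩ := Polynomial.exists_eq_pow_rootMultiplicity_mul_and_not_dvd
    (minpoly K b) hm 0
  set k := (minpoly K b).rootMultiplicity 0 with hk
  rw [map_zero, sub_zero] at hq hnd
  have hcop : IsCoprime (X ^ (k + 1)) q :=
    IsCoprime.pow_left ((Polynomial.irreducible_X.coprime_iff_not_dvd).2 hnd)
  obtain ⟨u, v, huv⟩ := hcop
  have hz : aeval b (X ^ k * q) = 0 := by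
    rw [← hq]; exact minpoly.aeval K b
  refine ⟨u * X ^ k, k, ?_, ?_⟩
  · have e1 : (X * (u * X ^ k)) * (X * (u * X ^ k)) =
        X * (u * X ^ k) - (X * u * v) * (X ^ k * q) := by
      have : v * q = 1 - u * X ^ (k + 1) := by rw [← huv]; ring
      calc (X * (u * X ^ k)) * (X * (u * X ^ k)) =
          X * (u * X ^ k) - (X * u) * X ^ k * (1 - u * X ^ (k + 1)) := by ring
        _ = _ := by rw [← this]; ring
    rw [← map_mul, e1, map_sub, map_mul _ (X * u * v), hz, mul_zero, sub_zero]
  · have e1 : X ^ k * (X * (u * X ^ k)) = X ^ k - v * (X ^ k * q) := by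
      have : v * q = 1 - u * X ^ (k + 1) := by rw [← huv]; ring
      calc X ^ k * (X * (u * X ^ k)) =
          X ^ k - X ^ k * (1 - u * X ^ (k + 1)) := by ring
        _ = _ := by rw [← this]; ring
    have e2 : b ^ k = aeval b ((X : K[X]) ^ k) := by simp
    rw [e2, ← map_mul, e1, map_sub, map_mul _ v, hz, mul_zero, sub_zero]

/-- The rank of an idempotent is its trace. -/
theorem trace_idem [FiniteDimensional K V] {f : Module.End K V} (hf : f * f = f) :
    LinearMap.trace K V f = (finrank K (LinearMap.range f) : K) := by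
  have h : LinearMap.IsProj (LinearMap.range f) f :=
    (LinearMap.isProj_range_iff_isIdempotentElem f).2 hf
  exact h.trace

theorem rank_eq_of_dvd [FiniteDimensional K V] {a b c d : Module.End K V} (h1 : a = b * c)
    (h2 : b = a * d) : finrank K (LinearMap.range a) = finrank K (LinearMap.range b) := by
  apply le_antisymm
  · apply Submodule.finrank_mono
    rw [h1]
    exact LinearMap.range_comp_le_range _ _
  · apply Submodule.finrank_mono
    rw [h2]
    exact LinearMap.range_comp_le_range _ _

/-- The Jordan algebra attached to `N`. -/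
def JJ (g : Submodule K (Module.End K V)) (N e : Module.End K V) :
    Submodule K (Module.End K V) where
  carrier := {a | e * a = a ∧ a * e = a ∧ a * N ∈ g}
  add_mem' := by
    rintro a b ⟨h1, h2, h3⟩ ⟨h4, h5, h6⟩
    exact ⟨by rw [mul_add, h1, h4], by rw [add_mul, h2, h5], by
      rw [add_mul]; exact g.add_mem h3 h6⟩
  zero_mem' := by simp
  smul_mem' := by
    rintro c a ⟨h1, h2, h3⟩
    exact ⟨by rw [mul_smul_comm, h1], by rw [smul_mul_assoc, h2], by
      rw [smul_mul_assoc]; exact g.smul_mem c h3⟩

theorem mem_JJ {g : Submodule K (Module.End K V)} {N e a : Module.End K V} :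
    a ∈ JJ g N e ↔ e * a = a ∧ a * e = a ∧ a * N ∈ g := Iff.rfl

section

variable [CharZero K] {g : Submodule K (Module.End K V)} (hg : IsLie g)
  {N M : Module.End K V} (hN : N ∈ g) (hM : M ∈ g) (hN2 : N * N = 0) (hNMN : N * M * N = N)

include hN2 in
theorem JJ_N_mul {a : Module.End K V} (ha : a ∈ JJ g N (N * M)) : N * a = 0 := by
  rw [← ha.1]
  calc N * (N * M * a) = (N * N) * (M * a) := by noncomm_ring
    _ = 0 := by rw [hN2, zero_mul]

include hg hM hN2 in
theorem JJ_sq {a : Module.End K V} (ha : a ∈ JJ g N (N * M)) : a * a ∈ JJ g N (N * M) := by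
  refine ⟨by rw [← mul_assoc, ha.1], by rw [mul_assoc, ha.2.1], ?_⟩
  have h1 : (a * N) * (a * N) = 0 := by
    calc (a * N) * (a * N) = a * (N * a) * N := by noncomm_ring
      _ = 0 := by rw [JJ_N_mul hN2 ha, mul_zero, zero_mul]
  have h2 := hg.sandwich ha.2.2 h1 hM
  have h3 : a * N * M * (a * N) = a * a * N := by
    calc a * N * M * (a * N) = (a * (N * M)) * a * N := by noncomm_ring
      _ = a * a * N := by rw [ha.2.1]
  rwa [h3] at h2

include hg hM hN2 in
theorem JJ_jordan {a b : Module.End K V} (ha : a ∈ JJ g N (N * M))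
    (hb : b ∈ JJ g N (N * M)) : a * b + b * a ∈ JJ g N (N * M) := by
  have h := (JJ g N (N * M)).sub_mem ((JJ g N (N * M)).sub_mem
    (JJ_sq hg hM hN2 ((JJ g N (N * M)).add_mem ha hb)) (JJ_sq hg hM hN2 ha))
    (JJ_sq hg hM hN2 hb)
  have e : (a + b) * (a + b) - a * a - b * b = a * b + b * a := by noncomm_ring
  rwa [e] at h

include hg hM hN2 in
theorem JJ_pow {a : Module.End K V} (ha : a ∈ JJ g N (N * M)) (n : ℕ) :
    a ^ (n + 1) ∈ JJ g N (N * M) := by
  induction n with
  | zero => simpa using ha
  | succ n ih =>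
    have h := JJ_jordan hg hM hN2 ha ih
    have e : a * a ^ (n + 1) + a ^ (n + 1) * a = (2 : K) • a ^ (n + 1 + 1) := by
      rw [← pow_succ, ← pow_succ']
      module
    rw [e] at h
    have h2 := (JJ g N (N * M)).smul_mem (2 : K)⁻¹ h
    rwa [smul_smul, inv_mul_cancel₀ (by norm_num), one_smul] at h2

include hg hM hN2 in
theorem JJ_aeval {a : Module.End K V} (ha : a ∈ JJ g N (N * M)) (p : K[X]) :
    aeval a (X * p) ∈ JJ g N (N * M) := by
  induction p using Polynomial.induction_on' with
  | add p q hp hq =>
    rw [mul_add, map_add]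
    exact (JJ g N (N * M)).add_mem hp hq
  | monomial n c =>
    have e : aeval a (X * monomial n c) = c • a ^ (n + 1) := by
      rw [map_mul, aeval_X, aeval_monomial, pow_succ', Algebra.algebraMap_eq_smul_one]
      simp
    rw [e]
    exact (JJ g N (N * M)).smul_mem _ (JJ_pow hg hM hN2 ha n)

include hg hN hN2 hNMN in
theorem JJ_of_mem {X : Module.End K V} (hX : X ∈ g) : N * X * N * M ∈ JJ g N (N * M) := by
  refine ⟨?_, ?_, ?_⟩
  · calc N * M * (N * X * N * M) = (N * M * N) * X * N * M := by noncomm_ring
      _ = N * X * N * M := by rw [hNMN]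
  · calc N * X * N * M * (N * M) = N * X * (N * M * N) * M := by noncomm_ring
      _ = N * X * N * M := by rw [hNMN]
  · have : N * X * N * M * N = N * X * (N * M * N) := by noncomm_ring
    rw [this, hNMN]
    exact hg.sandwich hN hN2 hX

/-- If all elements of `J` are scalar plus nilpotent, then `J` is the line of `e`. -/
theorem JJ_scalar [IsAlgClosed K] [FiniteDimensional K V] [Nontrivial V] (hirr : Irr g)
    (htr : ∀ X ∈ g, LinearMap.trace K V X = 0) (hN0 : N ≠ 0)
    (hg : IsLie g) (hN : N ∈ g) (hM : M ∈ g) (hN2 : N * N = 0) (hNMN : N * M * N = N)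
    (hall : ∀ a ∈ JJ g N (N * M), ∃ t : K, IsNilpotent (a - t • (N * M))) :
    ∀ a ∈ JJ g N (N * M), ∃ t : K, a = t • (N * M) := by
  have hee : (N * M) * (N * M) = N * M := by
    calc (N * M) * (N * M) = (N * M * N) * M := by noncomm_ring
      _ = N * M := by rw [hNMN]
  have heN : N * M * N = N := hNMN
  have heJ : N * M ∈ JJ g N (N * M) := ⟨hee, hee, by rw [hNMN]; exact hN⟩
  have he0 : N * M ≠ 0 := by
    intro h
    rw [h, zero_mul] at hNMN
    exact hN0 hNMN.symm
  have hre : (finrank K (LinearMap.range (N * M)) : K) ≠ 0 := by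
    rw [Nat.cast_ne_zero]
    intro h
    apply he0
    rw [← LinearMap.range_eq_bot]
    exact Submodule.finrank_eq_zero.1 h
  have htre := trace_idem hee
  -- elements of trace zero are nilpotent
  have hnil : ∀ a ∈ JJ g N (N * M), LinearMap.trace K V a = 0 → IsNilpotent a := by
    intro a ha hta
    obtain ⟨t, ht⟩ := hall a ha
    have h1 := (LinearMap.isNilpotent_trace_of_isNilpotent ht).eq_zero
    rw [map_sub, hta, map_smul, htre, zero_sub, neg_eq_zero, smul_eq_mul,
      mul_eq_zero] at h1
    rcases h1 with h1 | h1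
    · rwa [h1, zero_smul, sub_zero] at ht
    · exact absurd h1 hre
  have hsq : ∀ a ∈ JJ g N (N * M), LinearMap.trace K V a = 0 →
      LinearMap.trace K V (a * a) = 0 := by
    intro a ha hta
    have h1 := hnil a ha hta
    have h2 : IsNilpotent (a * a) := (Commute.refl a).isNilpotent_mul_left h1
    exact (LinearMap.isNilpotent_trace_of_isNilpotent h2).eq_zero
  have hpair : ∀ a ∈ JJ g N (N * M), ∀ b ∈ JJ g N (N * M), LinearMap.trace K V a = 0 →
      LinearMap.trace K V b = 0 → LinearMap.trace K V (a * b) = 0 := by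
    intro a ha b hb hta htb
    have h1 := hsq _ ((JJ g N (N * M)).add_mem ha hb) (by rw [map_add, hta, htb, add_zero])
    have h2 := hsq a ha hta
    have h3 := hsq b hb htb
    have e : (a + b) * (a + b) = a * a + a * b + (b * a + b * b) := by noncomm_ring
    rw [e, map_add, map_add, map_add, h2, h3, LinearMap.trace_mul_comm K b a, zero_add,
      add_zero] at h1
    have h4 : (2 : K) * LinearMap.trace K V (a * b) = 0 := by rw [two_mul]; exact h1
    exact (mul_eq_zero.1 h4).resolve_left (by norm_num)
  -- nilpotent elements vanish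
  have hzero : ∀ b ∈ JJ g N (N * M), LinearMap.trace K V b = 0 → b = 0 := by
    intro b hb htb
    have h1 : b * N = 0 := by
      apply trace_nondeg hg hirr htr hb.2.2
      intro X hX
      have e1 : N * X * b = (N * X * N * M) * b := by
        calc N * X * b = N * X * (N * M * b) := by rw [hb.1]
          _ = _ := by noncomm_ring
      have e2 : LinearMap.trace K V (b * N * X) =
          LinearMap.trace K V ((N * X * N * M) * b) := by
        rw [← e1, LinearMap.trace_mul_comm K (N * X) b]
        congr 1
      rw [e2]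
      have hc := JJ_of_mem hg hN hN2 hNMN hX
      set c := N * X * N * M with hcdef
      set s : K := LinearMap.trace K V c / (finrank K (LinearMap.range (N * M)) : K)
        with hs
      have h2 : LinearMap.trace K V (c - s • (N * M)) = 0 := by
        rw [map_sub, map_smul, htre, smul_eq_mul, hs, div_mul_cancel₀ _ hre, sub_self]
      have h3 := hpair _ ((JJ g N (N * M)).sub_mem hc
        ((JJ g N (N * M)).smul_mem s heJ)) b hb h2 htb
      have e3 : c * b = (c - s • (N * M)) * b + s • b := by
        rw [sub_mul, smul_mul_assoc, hb.1, sub_add_cancel]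
      rw [e3, map_add, h3, map_smul, htb, smul_zero, add_zero]
    calc b = b * (N * M) := hb.2.1.symm
      _ = (b * N) * M := by rw [mul_assoc]
      _ = 0 := by rw [h1, zero_mul]
  intro a ha
  refine ⟨LinearMap.trace K V a / (finrank K (LinearMap.range (N * M)) : K), ?_⟩
  rw [← sub_eq_zero]
  apply hzero _ ((JJ g N (N * M)).sub_mem ha ((JJ g N (N * M)).smul_mem _ heJ))
  rw [map_sub, map_smul, htre, smul_eq_mul, div_mul_cancel₀ _ hre, sub_self]

end

variable [IsAlgClosed K] [CharZero K] [FiniteDimensional K V] [Nontrivial V]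

/-- Reduction to an extremal element of odd rank. -/
theorem exists_extremal {g : Submodule K (Module.End K V)} (hg : IsLie g) (hirr : Irr g)
    (htr : ∀ X ∈ g, LinearMap.trace K V X = 0) (n : ℕ) :
    ∀ N ∈ g, N * N = 0 → finrank K (LinearMap.range N) = n → Odd n →
    ∃ N' ∈ g, N' * N' = 0 ∧ Odd (finrank K (LinearMap.range N')) ∧
      ∀ X ∈ g, ∃ c : K, N' * X * N' = c • N' := by
  induction n using Nat.strong_induction_on with
  | _ n ih =>
  intro N hN hN2 hrk hodd
  obtain ⟨M, hM, hNMN⟩ := exists_partner hg hirr htr hN hN2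
  have hN0 : N ≠ 0 := by
    rintro rfl
    rw [LinearMap.range_zero, finrank_bot] at hrk
    rw [← hrk] at hodd
    exact absurd hodd (by decide)
  have hee : (N * M) * (N * M) = N * M := by
    calc (N * M) * (N * M) = (N * M * N) * M := by noncomm_ring
      _ = N * M := by rw [hNMN]
  have heJ : N * M ∈ JJ g N (N * M) := ⟨hee, hee, by rw [hNMN]; exact hN⟩
  have he0 : N * M ≠ 0 := by
    intro h
    rw [h, zero_mul] at hNMN
    exact hN0 hNMN.symm
  have hrkN : finrank K (LinearMap.range (N * M)) = n := by
    rw [← hrk]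
    exact rank_eq_of_dvd (a := N * M) (b := N) rfl hNMN.symm
  by_cases hf : ∃ f ∈ JJ g N (N * M), f * f = f ∧ f ≠ 0 ∧ f ≠ N * M
  · obtain ⟨f, hfJ, hff, hf0, hfe⟩ := hf
    -- both parts
    have hpart : ∀ f ∈ JJ g N (N * M), f * f = f →
        (f * N) * (f * N) = 0 ∧ (finrank K (LinearMap.range (f * N)) : K) =
          LinearMap.trace K V f := by
      intro f hfJ hff
      refine ⟨?_, ?_⟩
      · calc (f * N) * (f * N) = f * (N * f) * N := by noncomm_ring
          _ = 0 := by rw [JJ_N_mul hN2 hfJ, mul_zero, zero_mul]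
      · rw [trace_idem hff]
        congr 1
        apply rank_eq_of_dvd (c := N) (d := M) rfl
        rw [mul_assoc, hfJ.2.1]
    have hf'J : N * M - f ∈ JJ g N (N * M) := (JJ g N (N * M)).sub_mem heJ hfJ
    have hff' : (N * M - f) * (N * M - f) = N * M - f := by
      have : (N * M - f) * (N * M - f) = (N * M) * (N * M) - (N * M) * f - f * (N * M) + f * f := by
        noncomm_ring
      rw [this, hee, hfJ.1, hfJ.2.1, hff]
      abel
    obtain ⟨h1, h2⟩ := hpart f hfJ hff
    obtain ⟨h3, h4⟩ := hpart _ hf'J hff'
    have hsum : (finrank K (LinearMap.range (f * N)) : K) +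
        (finrank K (LinearMap.range ((N * M - f) * N)) : K) = (n : K) := by
      rw [h2, h4, ← map_add, add_sub_cancel, trace_idem hee, hrkN]
    have hsum' : finrank K (LinearMap.range (f * N)) +
        finrank K (LinearMap.range ((N * M - f) * N)) = n := by
      exact_mod_cast hsum
    have hne : ∀ f ∈ JJ g N (N * M), f ≠ 0 → 0 < finrank K (LinearMap.range (f * N)) := by
      intro f hfJ hf0
      rw [Nat.pos_iff_ne_zero]
      intro h
      have h0 := LinearMap.range_eq_bot.1 (Submodule.finrank_eq_zero.1 h)
      apply hf0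
      rw [← hfJ.2.1, ← mul_assoc, h0, zero_mul]
    have hp1 := hne f hfJ hf0
    have hp2 := hne _ hf'J (by
      intro h
      exact hfe (sub_eq_zero.1 h).symm)
    rcases Nat.even_or_odd (finrank K (LinearMap.range (f * N))) with he | ho
    · have ho : Odd (finrank K (LinearMap.range ((N * M - f) * N))) := by
        rw [← hsum', Nat.odd_add] at hodd
        by_contra hcon
        rw [Nat.not_odd_iff_even] at hcon
        exact (Nat.not_odd_iff_even.2 he) (hodd.2 hcon)
      exact ih _ (by omega) _ hf'J.2.2 h3 rfl ho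
    · exact ih _ (by omega) _ hfJ.2.2 h1 rfl ho
  · -- extremal case
    refine ⟨N, hN, hN2, hrk ▸ hodd, ?_⟩
    have hall : ∀ a ∈ JJ g N (N * M), ∃ t : K, IsNilpotent (a - t • (N * M)) := by
      intro a ha
      -- an eigenvalue on the range of e
      let W : Submodule K V := LinearMap.range (N * M)
      have hW : W ≠ ⊥ := by
        intro h
        exact he0 (LinearMap.range_eq_bot.1 h)
      have haW : ∀ x ∈ W, a x ∈ W := by
        intro x _
        refine ⟨a x, ?_⟩
        change (N * M * a) x = a x
        rw [ha.1]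
      have : Nontrivial W := Submodule.nontrivial_iff_ne_bot.2 hW
      obtain ⟨t, ht⟩ := Module.End.exists_eigenvalue (a.restrict haW)
      obtain ⟨u, hu⟩ := ht.exists_hasEigenvector
      have hu1 : a u.1 = t • u.1 := by
        have := hu.apply_eq_smul
        exact congrArg Subtype.val this
      have hu0 : u.1 ≠ 0 := by
        intro h
        exact hu.2 (Subtype.ext h)
      have heu : (N * M) u.1 = u.1 := by
        obtain ⟨v, hv⟩ := u.2
        rw [← hv]
        change (N * M * (N * M)) v = (N * M) v
        rw [hee]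
      refine ⟨t, ?_⟩
      by_contra hnn
      have hb : a - t • (N * M) ∈ JJ g N (N * M) :=
        (JJ g N (N * M)).sub_mem ha ((JJ g N (N * M)).smul_mem t heJ)
      set b := a - t • (N * M) with hbdef
      have hbu : b u.1 = 0 := by
        rw [hbdef, LinearMap.sub_apply, LinearMap.smul_apply, heu, hu1, sub_self]
      obtain ⟨p, k, hp1, hp2⟩ := fitting b
      apply hf
      refine ⟨aeval b (X * p), JJ_aeval hg hM hN2 hb p, hp1, ?_, ?_⟩
      · intro h
        apply hnn
        refine ⟨k, ?_⟩
        rw [← hp2, h, mul_zero]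
      · intro h
        have h1 : (aeval b (X * p)) u.1 = 0 := by
          rw [mul_comm, map_mul, aeval_X]
          change (aeval b p) (b u.1) = 0
          rw [hbu, map_zero]
        rw [h, heu] at h1
        exact hu0 h1
    intro X hX
    obtain ⟨t, ht⟩ := JJ_scalar hirr htr hN0 hg hN hM hN2 hNMN hall _
      (JJ_of_mem hg hN hN2 hNMN hX)
    refine ⟨t, ?_⟩
    calc N * X * N = N * X * (N * M * N) := by rw [hNMN]
      _ = (N * X * N * M) * N := by noncomm_ring
      _ = t • N := by rw [ht, smul_mul_assoc, hNMN]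

end Pool.Agent.H53Toric
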