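import Pool.Agent.Lib.H53Toric.Core2

/-!
# The Peirce decomposition attached to an extremal element
-/

set_option autoImplicit false
set_option linter.unusedSectionVars false
namespace Pool.Agent.H53Toric
open Module Polynomial
attribute [local instance 100] LieRing.ofAssociativeRing
variable {K : Type*} [Field K] {V : Type*} [AddCommGroup V] [Module K V]

/-- The standing assumptions: an irreducible Lie algebra of skew operators, spanned by
involutions. -/
structure Setup (g : Submodule K (Module.End K V))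
    (adj : Module.End K V →ₗ[K] Module.End K V) : Prop where
  lie : IsLie g
  irr : Irr g
  adj_mul : ∀ X Y, adj (X * Y) = adj Y * adj X
  adj_adj : ∀ X, adj (adj X) = X
  adj_tr : ∀ X, LinearMap.trace K V (adj X) = LinearMap.trace K V X
  skew : ∀ X ∈ g, adj X = -X
  span : g ≤ Submodule.span K {y | y ∈ g ∧ y * y = 1}

theorem Setup.tr [CharZero K] {g : Submodule K (Module.End K V)}
    {adj : Module.End K V →ₗ[K] Module.End K V} (h : Setup g adj) :
    ∀ X ∈ g, LinearMap.trace K V X = 0 := by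
  intro X hX
  have h1 := h.adj_tr X
  rw [h.skew X hX, map_neg] at h1
  have h2 : (2 : K) * LinearMap.trace K V X = 0 := by linear_combination -h1
  exact (mul_eq_zero.1 h2).resolve_left (by norm_num)

theorem finrank_range_mul_le_left [FiniteDimensional K V] (a b : Module.End K V) :
    finrank K (LinearMap.range (a * b)) ≤ finrank K (LinearMap.range a) :=
  Submodule.finrank_mono (LinearMap.range_comp_le_range _ _)

theorem finrank_range_mul_le_right [FiniteDimensional K V] (a b : Module.End K V) :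
    finrank K (LinearMap.range (a * b)) ≤ finrank K (LinearMap.range b) := by
  have : LinearMap.range (a * b) = (LinearMap.range b).map a := LinearMap.range_comp _ _
  rw [this]
  exact Submodule.finrank_map_le _ _

variable [IsAlgClosed K] [CharZero K] [FiniteDimensional K V] [Nontrivial V]

theorem exists_frame {g : Submodule K (Module.End K V)}
    {adj : Module.End K V →ₗ[K] Module.End K V} (h : Setup g adj) {N : Module.End K V}
    (hN : N ∈ g) (hN2 : N * N = 0) (hodd : Odd (finrank K (LinearMap.range N)))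
    (hext : ∀ X ∈ g, ∃ c : K, N * X * N = c • N) :
    ∃ y N M : Module.End K V, y ∈ g ∧ y * y = 1 ∧ N ∈ g ∧ M ∈ g ∧ y * N = N ∧ N * y = -N ∧
      y * M = -M ∧ M * y = M ∧ N * N = 0 ∧ M * M = 0 ∧ N * M * N = N ∧ M * N * M = M ∧
      Odd (finrank K (LinearMap.range N)) ∧ (∀ X ∈ g, ∃ c : K, N * X * N = c • N) := by
  have hN0 : N ≠ 0 := by
    rintro rfl
    rw [LinearMap.range_zero, finrank_bot] at hodd
    exact absurd hodd (by decide)
  -- an involution which does not commute with N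
  have hy : ∃ y ∈ g, y * y = 1 ∧ ∃ c : K, c ≠ 0 ∧ N * y * N = c • N := by
    by_contra hcon
    push Not at hcon
    obtain ⟨X, hX, hNX⟩ := exists_partner h.lie h.irr h.tr hN hN2
    have key : ∀ X ∈ Submodule.span K {y | y ∈ g ∧ y * y = 1}, N * X * N = 0 := by
      intro X hX
      induction hX using Submodule.span_induction with
      | mem y hy =>
        obtain ⟨c, hc⟩ := hext y hy.1
        by_cases h0 : c = 0
        · rw [hc, h0, zero_smul]
        · exact absurd hc (hcon y hy.1 hy.2 c h0)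
      | zero => simp
      | add a b _ _ ha hb => rw [mul_add, add_mul, ha, hb, add_zero]
      | smul c a _ ha => rw [mul_smul_comm, smul_mul_assoc, ha, smul_zero]
    have := key X (h.span hX)
    rw [this] at hNX
    exact hN0 hNX.symm
  obtain ⟨y, hyg, hy2, c, hc0, hNy⟩ := hy
  set N₁ := (1 + y) * N * (1 - y) with hN₁
  have hN₁g : N₁ ∈ g := h.lie.plus hyg hy2 hN
  have hyN : y * N₁ = N₁ := by
    calc y * N₁ = (y + y * y) * N * (1 - y) := by rw [hN₁]; noncomm_ring
      _ = N₁ := by rw [hy2, hN₁, add_comm]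
  have hNy' : N₁ * y = -N₁ := by
    calc N₁ * y = (1 + y) * N * (y - y * y) := by rw [hN₁]; noncomm_ring
      _ = -N₁ := by rw [hy2, hN₁]; noncomm_ring
  have hN₁2 : N₁ * N₁ = 0 := by
    calc N₁ * N₁ = (1 + y) * N * (1 - y * y) * N * (1 - y) := by rw [hN₁]; noncomm_ring
      _ = 0 := by rw [hy2, sub_self, mul_zero, zero_mul, zero_mul]
  have hext₁ : ∀ X ∈ g, ∃ c : K, N₁ * X * N₁ = c • N₁ := by
    intro X hX
    obtain ⟨d, hd⟩ := hext _ (h.lie.minus hyg hy2 hX)
    refine ⟨d, ?_⟩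
    calc N₁ * X * N₁ = (1 + y) * (N * ((1 - y) * X * (1 + y)) * N) * (1 - y) := by
          rw [hN₁]; noncomm_ring
      _ = d • N₁ := by rw [hd, mul_smul_comm, smul_mul_assoc, hN₁]
  have hNNN : N * N₁ * N = (-(c * c)) • N := by
    calc N * N₁ * N = (N * N + N * y * N) * (N - y * N) := by rw [hN₁]; noncomm_ring
      _ = (c • N) * (N - y * N) := by rw [hN2, zero_add, hNy]
      _ = c • (N * N - N * y * N) := by rw [smul_mul_assoc]; congr 1; noncomm_ring
      _ = (-(c * c)) • N := by rw [hN2, hNy, zero_sub, smul_neg, smul_smul, neg_smul]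
  have hrk : finrank K (LinearMap.range N₁) = finrank K (LinearMap.range N) := by
    apply le_antisymm
    · calc finrank K (LinearMap.range N₁) ≤ finrank K (LinearMap.range ((1 + y) * N)) :=
            finrank_range_mul_le_left _ _
        _ ≤ _ := finrank_range_mul_le_right _ _
    · have e : N = N * N₁ * ((-(c * c))⁻¹ • N) := by
        rw [mul_smul_comm, hNNN, smul_smul, inv_mul_cancel₀, one_smul]
        exact neg_ne_zero.2 (mul_ne_zero hc0 hc0)
      calc finrank K (LinearMap.range N) = finrank K (LinearMap.range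
            (N * N₁ * ((-(c * c))⁻¹ • N))) := by rw [← e]
        _ ≤ finrank K (LinearMap.range (N * N₁)) := finrank_range_mul_le_left _ _
        _ ≤ _ := finrank_range_mul_le_right _ _
  obtain ⟨X, hX, hNX⟩ := exists_partner h.lie h.irr h.tr hN₁g hN₁2
  set M₁ := (1 / 4 : K) • ((1 - y) * X * (1 + y)) with hM₁
  have hM₁g : M₁ ∈ g := g.smul_mem _ (h.lie.minus hyg hy2 hX)
  have hyM : y * M₁ = -M₁ := by
    rw [hM₁, mul_smul_comm, ← smul_neg]
    congr 1
    calc y * ((1 - y) * X * (1 + y)) = (y - y * y) * X * (1 + y) := by noncomm_ring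
      _ = _ := by rw [hy2]; noncomm_ring
  have hMy : M₁ * y = M₁ := by
    rw [hM₁, smul_mul_assoc]
    congr 1
    calc (1 - y) * X * (1 + y) * y = (1 - y) * X * (y + y * y) := by noncomm_ring
      _ = _ := by rw [hy2, add_comm]
  have hM₁2 : M₁ * M₁ = 0 := by
    have h1 : M₁ * (y * M₁) = M₁ * M₁ := by rw [← mul_assoc, hMy]
    rw [hyM, mul_neg] at h1
    have h2 : (2 : K) • (M₁ * M₁) = 0 := by
      rw [two_smul]
      nth_rw 1 [← h1]
      simp
    exact (smul_eq_zero.1 h2).resolve_left (by norm_num)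
  have hNMN : N₁ * M₁ * N₁ = N₁ := by
    have h1 : N₁ * (1 - y) = (2 : K) • N₁ := by
      rw [mul_sub, hNy', mul_one, two_smul]; abel
    have h2 : (1 + y) * N₁ = (2 : K) • N₁ := by
      rw [add_mul, hyN, one_mul, two_smul]
    calc N₁ * M₁ * N₁ = (1 / 4 : K) • ((N₁ * (1 - y)) * X * ((1 + y) * N₁)) := by
          rw [hM₁, mul_smul_comm, smul_mul_assoc]; congr 1
      _ = N₁ := by
          rw [h1, h2, smul_mul_assoc, smul_mul_assoc, mul_smul_comm, smul_smul, smul_smul, hNX]
          norm_num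
  refine ⟨y, N₁, M₁ * N₁ * M₁, hyg, hy2, hN₁g, h.lie.sandwich hM₁g hM₁2 hN₁g, hyN, hNy',
    ?_, ?_, hN₁2, ?_, ?_, ?_, hrk ▸ hodd, hext₁⟩
  · rw [← mul_assoc, ← mul_assoc, hyM]; noncomm_ring
  · rw [mul_assoc, hMy]
  · calc M₁ * N₁ * M₁ * (M₁ * N₁ * M₁) = M₁ * N₁ * (M₁ * M₁) * N₁ * M₁ := by noncomm_ring
      _ = 0 := by rw [hM₁2]; simp
  · calc N₁ * (M₁ * N₁ * M₁) * N₁ = (N₁ * M₁ * N₁) * M₁ * N₁ := by noncomm_ring
      _ = N₁ := by rw [hNMN, hNMN]
  · calc M₁ * N₁ * M₁ * N₁ * (M₁ * N₁ * M₁) = M₁ * ((N₁ * M₁ * N₁) * M₁ * N₁) * M₁ := by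
          noncomm_ring
      _ = _ := by rw [hNMN, hNMN]

/-- A Peirce decomposition: `E 0` and `E 3` are the images of `N` and `M`, and `E 1`, `E 2` the
two remaining parts. -/
structure Peirce (g : Submodule K (Module.End K V))
    (adj : Module.End K V →ₗ[K] Module.End K V) (E : Fin 4 → Module.End K V)
    (N M : Module.End K V) : Prop where
  sum : E 0 + E 1 + E 2 + E 3 = 1
  mul : ∀ i j, E i * E j = if i = j then E i else 0
  adj0 : adj (E 0) = E 3
  adj1 : adj (E 1) = E 2
  adj2 : adj (E 2) = E 1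
  adj3 : adj (E 3) = E 0
  EN : ∀ i, E i * N = if i = 0 then N else 0
  NE : ∀ i, N * E i = if i = 3 then N else 0
  EM : ∀ i, E i * M = if i = 3 then M else 0
  ME : ∀ i, M * E i = if i = 0 then M else 0
  NM : N * M = E 0
  MN : M * N = E 3
  memN : N ∈ g
  memM : M ∈ g
  ext : ∀ X ∈ g, ∃ c : K, E 0 * X * E 3 = c • N
  ext' : ∀ X ∈ g, ∃ c : K, E 3 * X * E 0 = c • M
  mA : ∀ X ∈ g, E 0 * X * E 2 + E 1 * X * E 3 ∈ g
  mB : ∀ X ∈ g, E 2 * X * E 0 + E 3 * X * E 1 ∈ g
  mA' : ∀ X ∈ g, E 0 * X * E 1 + E 2 * X * E 3 ∈ g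
  mB' : ∀ X ∈ g, E 1 * X * E 0 + E 3 * X * E 2 ∈ g
  mC : ∀ X ∈ g, E 0 * X * E 0 + E 1 * X * E 1 + E 2 * X * E 2 + E 3 * X * E 3 ∈ g
  mC1 : ∀ X ∈ g, E 1 * X * E 2 ∈ g
  mC2 : ∀ X ∈ g, E 2 * X * E 1 ∈ g
  odd : Odd (finrank K (LinearMap.range (E 0)))

theorem peirce_mem {g : Submodule K (Module.End K V)} (hg : IsLie g)
    {E : Fin 4 → Module.End K V} (hsum : E 0 + E 1 + E 2 + E 3 = 1)
    (hmul : ∀ i j, E i * E j = if i = j then E i else 0) (hH : E 0 - E 3 ∈ g)
    (h03 : ∀ X ∈ g, E 0 * X * E 3 ∈ g) (h30 : ∀ X ∈ g, E 3 * X * E 0 ∈ g)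
    (hp : ∀ X ∈ g, (E 0 + E 1) * X * (E 2 + E 3) ∈ g)
    (hm : ∀ X ∈ g, (E 2 + E 3) * X * (E 0 + E 1) ∈ g) {X : Module.End K V} (hX : X ∈ g) :
    (E 0 * X * E 2 + E 1 * X * E 3 ∈ g) ∧ (E 2 * X * E 0 + E 3 * X * E 1 ∈ g) ∧
    (E 0 * X * E 1 + E 2 * X * E 3 ∈ g) ∧ (E 1 * X * E 0 + E 3 * X * E 2 ∈ g) ∧
    (E 0 * X * E 0 + E 1 * X * E 1 + E 2 * X * E 2 + E 3 * X * E 3 ∈ g) ∧
    (E 1 * X * E 2 ∈ g) ∧ (E 2 * X * E 1 ∈ g) := by
  have hmul' : ∀ i j (Z : Module.End K V), E i * (E j * Z) = if i = j then E i * Z else 0 := by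
    intro i j Z
    rw [← mul_assoc, hmul]
    split_ifs <;> simp
  have hA : E 0 * X * E 2 + E 1 * X * E 3 ∈ g := by
    have h1 := g.sub_mem (hg _ hH _ (hp X hX)) (g.smul_mem (2 : K) (h03 X hX))
    have e : (E 0 - E 3) * ((E 0 + E 1) * X * (E 2 + E 3)) -
        ((E 0 + E 1) * X * (E 2 + E 3)) * (E 0 - E 3) - (2 : K) • (E 0 * X * E 3) =
        E 0 * X * E 2 + E 1 * X * E 3 := by
      simp [mul_add, add_mul, mul_sub, sub_mul, mul_assoc, hmul, hmul']
      module
    rwa [e] at h1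
  have hB : E 2 * X * E 0 + E 3 * X * E 1 ∈ g := by
    have h1 := g.neg_mem (g.add_mem (hg _ hH _ (hm X hX)) (g.smul_mem (2 : K) (h30 X hX)))
    have e : -((E 0 - E 3) * ((E 2 + E 3) * X * (E 0 + E 1)) -
        ((E 2 + E 3) * X * (E 0 + E 1)) * (E 0 - E 3) + (2 : K) • (E 3 * X * E 0)) =
        E 2 * X * E 0 + E 3 * X * E 1 := by
      simp [mul_add, add_mul, mul_sub, sub_mul, mul_assoc, hmul, hmul']
      module
    rwa [e] at h1
  have hD1 := hg _ hH _ hX
  have hD2 := hg _ hH _ hD1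
  have e1 : (E 0 - E 3) * X - X * (E 0 - E 3) =
      (E 0 - E 3) * X * (E 0 + E 1 + E 2 + E 3) - (E 0 + E 1 + E 2 + E 3) * X * (E 0 - E 3) := by
    rw [hsum, mul_one, one_mul]
  have eX : X = (E 0 + E 1 + E 2 + E 3) * X * (E 0 + E 1 + E 2 + E 3) := by
    rw [hsum, mul_one, one_mul]
  rw [e1] at hD1 hD2
  have hA' : E 0 * X * E 1 + E 2 * X * E 3 ∈ g := by
    have h1 := g.sub_mem (g.sub_mem (g.sub_mem (g.smul_mem (1 / 2 : K) (g.add_mem hD1 hD2))
      (g.smul_mem (3 : K) (h03 X hX))) (h30 X hX)) hA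
    convert h1 using 1
    simp [mul_add, add_mul, mul_sub, sub_mul, mul_assoc, hmul, hmul']
    module
  have hB' : E 1 * X * E 0 + E 3 * X * E 2 ∈ g := by
    have h1 := g.sub_mem (g.sub_mem (g.sub_mem (g.smul_mem (1 / 2 : K) (g.sub_mem hD2 hD1))
      (g.smul_mem (3 : K) (h30 X hX))) (h03 X hX)) hB
    convert h1 using 1
    simp [mul_add, add_mul, mul_sub, sub_mul, mul_assoc, hmul, hmul']
    module
  have h12 : E 1 * X * E 2 ∈ g := by
    have h1 := g.sub_mem (g.sub_mem (hp X hX) hA) (h03 X hX)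
    convert h1 using 1
    noncomm_ring
  have h21 : E 2 * X * E 1 ∈ g := by
    have h1 := g.sub_mem (g.sub_mem (hm X hX) hB) (h30 X hX)
    convert h1 using 1
    noncomm_ring
  refine ⟨hA, hB, hA', hB', ?_, h12, h21⟩
  have h1 := g.sub_mem (g.sub_mem (g.sub_mem (g.sub_mem (g.sub_mem (g.sub_mem (g.sub_mem
    (g.sub_mem hX hA) hB) hA') hB') (h03 X hX)) (h30 X hX)) h12) h21
  nth_rw 1 [eX] at h1
  convert h1 using 1
  noncomm_ring

theorem exists_peirce {g : Submodule K (Module.End K V)}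
    {adj : Module.End K V →ₗ[K] Module.End K V} (h : Setup g adj) {N : Module.End K V}
    (hN : N ∈ g) (hN2 : N * N = 0) (hodd : Odd (finrank K (LinearMap.range N))) :
    ∃ E N M, Peirce g adj E N M := by
  obtain ⟨N', hN', hN'2, hodd', hext'⟩ := exists_extremal h.lie h.irr h.tr _ N hN hN2 rfl hodd
  obtain ⟨y, N, M, hy, hy2, hN, hM, yN, Ny, yM, My, NN, MM, NMN, MNM, hodd, hext⟩ :=
    exists_frame h hN' hN'2 hodd' hext'
  set e := N * M with he
  set e' := M * N with he'
  have ee : e * e = e := by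
    calc e * e = (N * M * N) * M := by rw [he]; noncomm_ring
      _ = e := by rw [NMN]
  have e'e' : e' * e' = e' := by
    calc e' * e' = (M * N * M) * N := by rw [he']; noncomm_ring
      _ = e' := by rw [MNM]
  have ee' : e * e' = 0 := by
    calc e * e' = N * (M * M) * N := by rw [he, he']; noncomm_ring
      _ = 0 := by rw [MM]; simp
  have e'e : e' * e = 0 := by
    calc e' * e = M * (N * N) * M := by rw [he, he']; noncomm_ring
      _ = 0 := by rw [NN]; simp
  have ye : y * e = e := by rw [he, ← mul_assoc, yN]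
  have ey : e * y = e := by rw [he, mul_assoc, My]
  have ye' : y * e' = -e' := by rw [he', ← mul_assoc, yM, neg_mul]
  have e'y : e' * y = -e' := by rw [he', mul_assoc, Ny, mul_neg]
  obtain ⟨P, hPd⟩ : ∃ P : Module.End K V, P = (1 / 2 : K) • (1 + y) := ⟨_, rfl⟩
  obtain ⟨Q, hQd⟩ : ∃ Q : Module.End K V, Q = (1 / 2 : K) • (1 - y) := ⟨_, rfl⟩
  have hPP : P * P = P := by
    rw [hPd, smul_mul_smul_comm, add_mul, mul_add, mul_add, hy2]
    simp only [one_mul, mul_one]
    module
  have hQQ : Q * Q = Q := by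
    rw [hQd, smul_mul_smul_comm, sub_mul, mul_sub, mul_sub, hy2]
    simp only [one_mul, mul_one]
    module
  have hPQ : P * Q = 0 := by
    rw [hPd, hQd, smul_mul_smul_comm, add_mul, mul_sub, mul_sub, hy2]
    simp only [one_mul, mul_one]
    module
  have hQP : Q * P = 0 := by
    rw [hPd, hQd, smul_mul_smul_comm, sub_mul, mul_add, mul_add, hy2]
    simp only [one_mul, mul_one]
    module
  have Pe : P * e = e := by
    rw [hPd, smul_mul_assoc, add_mul, ye, one_mul]; module
  have eP : e * P = e := by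
    rw [hPd, mul_smul_comm, mul_add, ey, mul_one]; module
  have Pe' : P * e' = 0 := by
    rw [hPd, smul_mul_assoc, add_mul, ye', one_mul]; module
  have e'P : e' * P = 0 := by
    rw [hPd, mul_smul_comm, mul_add, e'y, mul_one]; module
  have Qe : Q * e = 0 := by
    rw [hQd, smul_mul_assoc, sub_mul, ye, one_mul]; module
  have eQ : e * Q = 0 := by
    rw [hQd, mul_smul_comm, mul_sub, ey, mul_one]; module
  have Qe' : Q * e' = e' := by
    rw [hQd, smul_mul_assoc, sub_mul, ye', one_mul]; module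
  have e'Q : e' * Q = e' := by
    rw [hQd, mul_smul_comm, mul_sub, e'y, mul_one]; module
  have PN : P * N = N := by
    rw [hPd, smul_mul_assoc, add_mul, yN, one_mul]; module
  have QN : Q * N = 0 := by
    rw [hQd, smul_mul_assoc, sub_mul, yN, one_mul]; module
  have NP : N * P = 0 := by
    rw [hPd, mul_smul_comm, mul_add, Ny, mul_one]; module
  have NQ : N * Q = N := by
    rw [hQd, mul_smul_comm, mul_sub, Ny, mul_one]; module
  have PM : P * M = 0 := by
    rw [hPd, smul_mul_assoc, add_mul, yM, one_mul]; module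
  have QM : Q * M = M := by
    rw [hQd, smul_mul_assoc, sub_mul, yM, one_mul]; module
  have MP : M * P = M := by
    rw [hPd, mul_smul_comm, mul_add, My, mul_one]; module
  have MQ : M * Q = 0 := by
    rw [hQd, mul_smul_comm, mul_sub, My, mul_one]; module
  have eN : e * N = N := NMN
  have Ne' : N * e' = N := by rw [he', ← mul_assoc, NMN]
  have e'M : e' * M = M := MNM
  have Me : M * e = M := by rw [he, ← mul_assoc, MNM]
  have Ne : N * e = 0 := by rw [he, ← mul_assoc, NN, zero_mul]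
  have e'N : e' * N = 0 := by rw [he', mul_assoc, NN, mul_zero]
  have Me' : M * e' = 0 := by rw [he', ← mul_assoc, MM, zero_mul]
  have eM : e * M = 0 := by rw [he, mul_assoc, MM, mul_zero]
  obtain ⟨q, hq⟩ : ∃ q : Module.End K V, q = P - e := ⟨_, rfl⟩
  obtain ⟨q', hq'⟩ : ∃ q' : Module.End K V, q' = Q - e' := ⟨_, rfl⟩
  have hsum : e + q + q' + e' = 1 := by
    rw [hq, hq', hPd, hQd]; module
  have hE1 : adj 1 = 1 := by
    have h1 := h.adj_mul (adj 1) 1
    rw [mul_one, h.adj_adj, mul_one] at h1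
    exact h1.symm
  have adjN := h.skew N hN
  have adjM := h.skew M hM
  have adje : adj e = e' := by
    rw [he, h.adj_mul, adjM, adjN, neg_mul_neg]
  have adje' : adj e' = e := by
    rw [he', h.adj_mul, adjM, adjN, neg_mul_neg]
  have adjq : adj q = q' := by
    rw [hq, hq', hPd, hQd, map_sub, map_smul, map_add, hE1, h.skew y hy, adje,
      ← sub_eq_add_neg]
  have adjq' : adj q' = q := by
    rw [← adjq, h.adj_adj]
  have hmul : ∀ i j : Fin 4, (![e, q, q', e'] i) * (![e, q, q', e'] j) =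
      if i = j then ![e, q, q', e'] i else 0 := by
    intro i j
    fin_cases i <;> fin_cases j <;>
      simp [ee, e'e', ee', e'e, hq, hq', sub_mul, mul_sub, hPP, hQQ, hPQ, hQP, Pe, eP, Pe', e'P, Qe,
        eQ, Qe', e'Q]
  have hEN : ∀ i : Fin 4, (![e, q, q', e'] i) * N = if i = 0 then N else 0 := by
    intro i
    fin_cases i <;> simp [eN, hq, hq', sub_mul, PN, QN, e'N]
  have hNE : ∀ i : Fin 4, N * (![e, q, q', e'] i) = if i = 3 then N else 0 := by
    intro i
    fin_cases i <;> simp [Ne, hq, hq', mul_sub, NP, NQ, Ne']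
  have hEM : ∀ i : Fin 4, (![e, q, q', e'] i) * M = if i = 3 then M else 0 := by
    intro i
    fin_cases i <;> simp [eM, hq, hq', sub_mul, PM, QM, e'M]
  have hME : ∀ i : Fin 4, M * (![e, q, q', e'] i) = if i = 0 then M else 0 := by
    intro i
    fin_cases i <;> simp [Me, hq, hq', mul_sub, MP, MQ, Me']
  have hP' : P = e + q := by rw [hq]; abel
  have hQ' : Q = e' + q' := by rw [hq']; abel
  have hext3 : ∀ X ∈ g, ∃ c : K, e * X * e' = c • N := by
    intro X hX
    obtain ⟨c, hc⟩ := hext _ (h.lie.sandwich hM MM hX)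
    refine ⟨c, ?_⟩
    rw [← hc, he, he']
    noncomm_ring
  have hext4 : ∀ X ∈ g, ∃ c : K, e' * X * e = c • M := by
    intro X hX
    obtain ⟨c, hc⟩ := hext X hX
    refine ⟨c, ?_⟩
    calc e' * X * e = M * (N * X * N) * M := by rw [he, he']; noncomm_ring
      _ = c • (M * N * M) := by rw [hc, mul_smul_comm, smul_mul_assoc]
      _ = c • M := by rw [MNM]
  have hg2 : ∀ X ∈ g, e * X * e' ∈ g := by
    intro X hX
    obtain ⟨c, hc⟩ := hext3 X hX
    rw [hc]; exact g.smul_mem _ hN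
  have hg2' : ∀ X ∈ g, e' * X * e ∈ g := by
    intro X hX
    obtain ⟨c, hc⟩ := hext4 X hX
    rw [hc]; exact g.smul_mem _ hM
  have hP1 : (![e, q, q', e'] 0 + ![e, q, q', e'] 1 : Module.End K V) = P := by
    simp [hq]
  have hQ1 : (![e, q, q', e'] 2 + ![e, q, q', e'] 3 : Module.End K V) = Q := by
    simp [hq']
  have hsum' : (![e, q, q', e'] 0 + ![e, q, q', e'] 1 + ![e, q, q', e'] 2 +
      ![e, q, q', e'] 3 : Module.End K V) = 1 := hsum
  have hH : (![e, q, q', e'] 0 - ![e, q, q', e'] 3 : Module.End K V) ∈ g := h.lie N hN M hM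
  have hmem := fun X (hX : X ∈ g) => peirce_mem h.lie (E := ![e, q, q', e']) hsum' hmul hH
    hg2 hg2' (by
      intro X hX
      rw [hP1, hQ1, hPd, hQd, smul_mul_assoc, smul_mul_assoc, mul_smul_comm]
      exact g.smul_mem _ (g.smul_mem _ (h.lie.plus hy hy2 hX))) (by
      intro X hX
      rw [hP1, hQ1, hPd, hQd, smul_mul_assoc, smul_mul_assoc, mul_smul_comm]
      exact g.smul_mem _ (g.smul_mem _ (h.lie.minus hy hy2 hX))) hX
  refine ⟨![e, q, q', e'], N, M, ⟨hsum', hmul, adje, adjq, adjq', adje', hEN, hNE, hEM, hME,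
    rfl, rfl, hN, hM, hext3, hext4, fun X hX => (hmem X hX).1, fun X hX => (hmem X hX).2.1,
    fun X hX => (hmem X hX).2.2.1, fun X hX => (hmem X hX).2.2.2.1,
    fun X hX => (hmem X hX).2.2.2.2.1, fun X hX => (hmem X hX).2.2.2.2.2.1,
    fun X hX => (hmem X hX).2.2.2.2.2.2, ?_⟩⟩
  have : finrank K (LinearMap.range e) = finrank K (LinearMap.range N) :=
    rank_eq_of_dvd (c := M) (d := N) rfl NMN.symm
  change Odd (finrank K (LinearMap.range e))
  rw [this]
  exact hodd

end Pool.Agent.H53Toric
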