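import Pool.Agent.Lib.H53Toric.Core3

/-!
# The skew parts vanish
-/

set_option autoImplicit false
set_option linter.unusedSectionVars false
namespace Pool.Agent.H53Toric
open Module
variable {K : Type*} [Field K] {V : Type*} [AddCommGroup V] [Module K V]

/-- The odd lemma. -/
theorem odd_lemma [IsAlgClosed K] [CharZero K] [FiniteDimensional K V] {e S : Module.End K V}
    (ee : e * e = e) (eS : e * S = S) (Se : S * e = S) (htr : LinearMap.trace K V S = 0)
    (hodd : Odd (finrank K (LinearMap.range e))) {σ : K} (hσ : S * S = σ • e) : S * S = 0 := by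
  by_cases h0 : σ = 0
  · rw [hσ, h0, zero_smul]
  exfalso
  obtain ⟨s, hs⟩ := IsAlgClosed.exists_pow_nat_eq σ (n := 2) (by norm_num)
  have hs0 : s ≠ 0 := by
    rintro rfl
    apply h0
    rw [← hs]; simp
  have hs' : s⁻¹ * s⁻¹ * σ = 1 := by
    rw [← hs]; field_simp
  set f := (1 / 2 : K) • (e + s⁻¹ • S) with hf
  have hff : f * f = f := by
    rw [hf, smul_mul_smul_comm, add_mul, mul_add, mul_add, ee, mul_smul_comm, smul_mul_assoc, eS, Se,
      smul_mul_smul_comm, hσ, smul_smul, hs', one_smul]
    module
  have h1 := trace_idem hff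
  have h2 : LinearMap.trace K V f = (1 / 2 : K) * (finrank K (LinearMap.range e) : K) := by
    rw [hf, map_smul, map_add, map_smul, htr, trace_idem ee]
    simp
  have h3 : (finrank K (LinearMap.range e) : K) =
      ((2 * finrank K (LinearMap.range f) : ℕ) : K) := by
    push_cast
    rw [← h1, h2]; ring
  have h4 : finrank K (LinearMap.range e) = 2 * finrank K (LinearMap.range f) := by
    exact_mod_cast h3
  rw [h4] at hodd
  exact (Nat.not_odd_iff_even.2 (even_two_mul _)) hodd

/-- A linear space of square zero operators stabilising `U` has a common kernel vector in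
`U`. -/
theorem common_kernel [FiniteDimensional K V] (W : Submodule K (Module.End K V))
    (hW : ∀ w ∈ W, w * w = 0) (n : ℕ) : ∀ U : Submodule K V, finrank K U ≤ n → U ≠ ⊥ →
      (∀ w ∈ W, ∀ u ∈ U, w u ∈ U) → ∃ u ∈ U, u ≠ 0 ∧ ∀ w ∈ W, w u = 0 := by
  have hanti : ∀ w ∈ W, ∀ w' ∈ W, w * w' = -(w' * w) := by
    intro w hw w' hw'
    have h1 := hW _ (W.add_mem hw hw')
    have h2 := hW w hw
    have h3 := hW w' hw'
    have e : (w + w') * (w + w') = w * w + (w * w' + w' * w) + w' * w' := by noncomm_ring
    rw [e, h2, h3, zero_add, add_zero] at h1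
    exact eq_neg_of_add_eq_zero_left h1
  induction n with
  | zero =>
    intro U hU hU0
    exact absurd (Submodule.finrank_eq_zero.1 (Nat.le_zero.1 hU)) hU0
  | succ n ih =>
    intro U hU hU0 hst
    by_cases hall : ∀ w ∈ W, ∀ u ∈ U, w u = 0
    · obtain ⟨u, hu, hu0⟩ := Submodule.exists_mem_ne_zero_of_ne_bot hU0
      exact ⟨u, hu, hu0, fun w hw => hall w hw u hu⟩
    · push Not at hall
      obtain ⟨w, hw, u, hu, hwu⟩ := hall
      have hlt : U ⊓ LinearMap.ker w < U := by
        refine lt_of_le_of_ne inf_le_left ?_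
        intro h
        have : u ∈ U ⊓ LinearMap.ker w := by rw [h]; exact hu
        exact hwu (LinearMap.mem_ker.1 this.2)
      have hlt' := Submodule.finrank_lt_finrank_of_lt hlt
      obtain ⟨v, hv, hv0, hvW⟩ := ih (U ⊓ LinearMap.ker w) (by omega) (by
        rw [Submodule.ne_bot_iff]
        refine ⟨w u, ⟨hst w hw u hu, ?_⟩, hwu⟩
        rw [SetLike.mem_coe, LinearMap.mem_ker]
        change (w * w) u = 0
        rw [hW w hw]; rfl) (by
        intro w' hw' v hv
        refine ⟨hst w' hw' v hv.1, ?_⟩
        rw [SetLike.mem_coe, LinearMap.mem_ker]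
        change (w * w') v = 0
        rw [hanti w hw w' hw']
        change -(w' (w v)) = 0
        rw [LinearMap.mem_ker.1 hv.2, map_zero, neg_zero])
      exact ⟨v, hv.1, hv0, hvW⟩

section rules

variable {g : Submodule K (Module.End K V)} {adj : Module.End K V →ₗ[K] Module.End K V}
  {E : Fin 4 → Module.End K V} {N M : Module.End K V} (P : Peirce g adj E N M)

include P

theorem Peirce.mul' (i j : Fin 4) (X : Module.End K V) :
    E i * (E j * X) = if i = j then E i * X else 0 := by
  rw [← mul_assoc, P.mul]; split_ifs <;> simp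

theorem Peirce.EN' (i : Fin 4) (X : Module.End K V) :
    E i * (N * X) = if i = 0 then N * X else 0 := by
  rw [← mul_assoc, P.EN]; split_ifs <;> simp

theorem Peirce.NE' (i : Fin 4) (X : Module.End K V) :
    N * (E i * X) = if i = 3 then N * X else 0 := by
  rw [← mul_assoc, P.NE]; split_ifs <;> simp

theorem Peirce.EM' (i : Fin 4) (X : Module.End K V) :
    E i * (M * X) = if i = 3 then M * X else 0 := by
  rw [← mul_assoc, P.EM]; split_ifs <;> simp

theorem Peirce.ME' (i : Fin 4) (X : Module.End K V) :
    M * (E i * X) = if i = 0 then M * X else 0 := by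
  rw [← mul_assoc, P.ME]; split_ifs <;> simp

theorem Peirce.NN : N * N = 0 := by
  have h1 := P.EN 0
  have h2 := P.NE 0
  simp only [if_true, Fin.reduceEq, if_false] at h1 h2
  calc N * N = N * (E 0 * N) := by rw [h1]
    _ = (N * E 0) * N := by rw [mul_assoc]
    _ = 0 := by rw [h2, zero_mul]

theorem Peirce.MM : M * M = 0 := by
  have h1 := P.EM 3
  have h2 := P.ME 3
  simp only [if_true, Fin.reduceEq, if_false] at h1 h2
  calc M * M = M * (E 3 * M) := by rw [h1]
    _ = (M * E 3) * M := by rw [mul_assoc]
    _ = 0 := by rw [h2, zero_mul]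

theorem Peirce.NM' (X : Module.End K V) : N * (M * X) = E 0 * X := by
  rw [← mul_assoc, P.NM]

theorem Peirce.MN' (X : Module.End K V) : M * (N * X) = E 3 * X := by
  rw [← mul_assoc, P.MN]

theorem Peirce.NN' (X : Module.End K V) : N * (N * X) = 0 := by
  rw [← mul_assoc, P.NN, zero_mul]

theorem Peirce.MM' (X : Module.End K V) : M * (M * X) = 0 := by
  rw [← mul_assoc, P.MM, zero_mul]

theorem Peirce.ee : E 0 * E 0 = E 0 := by rw [P.mul, if_pos rfl]

end rules

section irr

variable {g : Submodule K (Module.End K V)} {adj : Module.End K V →ₗ[K] Module.End K V}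
  {E : Fin 4 → Module.End K V} {N M : Module.End K V}

/-- The lowering part. -/
theorem Peirce.lower (P : Peirce g adj E N M) {z : Module.End K V} (hz : z ∈ g) :
    ∃ w ∈ g, E 0 * w = 0 ∧ z * E 0 = E 0 * z * E 0 + w * E 0 := by
  obtain ⟨c, hc⟩ := P.ext' z hz
  have h30 : E 3 * z * E 0 ∈ g := by rw [hc]; exact g.smul_mem _ P.memM
  refine ⟨_, g.add_mem (g.add_mem (P.mB z hz) (P.mB' z hz)) h30, ?_, ?_⟩
  · simp [mul_add, mul_assoc, P.mul']
  · have e : z * E 0 = (E 0 + E 1 + E 2 + E 3) * z * E 0 := by rw [P.sum, one_mul]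
    rw [e]
    simp [mul_add, add_mul, mul_assoc, P.mul, P.mul']
    abel

theorem Peirce.word_move (h : Setup g adj) (P : Peirce g adj E N M) {U : Submodule K V} {n : ℕ}
    (hn : ∀ l : List (Module.End K V), l.length ≤ n → (∀ x ∈ l, x ∈ g) → ∀ u ∈ U,
      E 0 (l.prod u) ∈ U) {w : Module.End K V} (hw : w ∈ g) (hw0 : E 0 * w = 0)
    (l₁ : List (Module.End K V)) :
    ∀ l₂ : List (Module.End K V), l₁.length + l₂.length ≤ n → (∀ x ∈ l₁, x ∈ g) →
      (∀ x ∈ l₂, x ∈ g) → ∀ u ∈ U, E 0 ((l₁.prod * w * l₂.prod) u) ∈ U := by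
  induction l₁ using List.reverseRecOn with
  | nil =>
    intro l₂ _ _ _ u _
    rw [List.prod_nil, one_mul]
    change (E 0 * (w * l₂.prod)) u ∈ U
    rw [← mul_assoc, hw0, zero_mul]
    exact U.zero_mem
  | append_singleton l₁ x ih =>
    intro l₂ hlen h1 h2 u hu
    have hx : x ∈ g := h1 x (by simp)
    have h1' : ∀ x ∈ l₁, x ∈ g := fun y hy => h1 y (by simp [hy])
    have hlen' : l₁.length + 1 + l₂.length ≤ n := by
      rwa [List.length_append, List.length_singleton] at hlen
    have e : (l₁ ++ [x]).prod * w * l₂.prod = l₁.prod * w * (x :: l₂).prod +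
        (l₁ ++ (x * w - w * x) :: l₂).prod := by
      simp only [List.prod_append, List.prod_cons, List.prod_nil]
      noncomm_ring
    rw [e, LinearMap.add_apply, map_add]
    apply U.add_mem
    · exact ih (x :: l₂) (by simp only [List.length_cons]; omega) h1' (by
        intro y hy
        rcases List.mem_cons.1 hy with rfl | hy
        · exact hx
        · exact h2 y hy) u hu
    · apply hn _ _ _ u hu
      · simp only [List.length_append, List.length_cons]; omega
      · intro y hy
        rcases List.mem_append.1 hy with hy | hy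
        · exact h1' y hy
        · rcases List.mem_cons.1 hy with rfl | hy
          · exact h.lie x hx w hw
          · exact h2 y hy

theorem Peirce.words (h : Setup g adj) (P : Peirce g adj E N M) {U : Submodule K V}
    (hU : ∀ u ∈ U, E 0 u = u) (hst : ∀ C ∈ g, ∀ u ∈ U, E 0 (C u) ∈ U) (n : ℕ) :
    ∀ l : List (Module.End K V), l.length ≤ n → (∀ x ∈ l, x ∈ g) → ∀ u ∈ U,
      E 0 (l.prod u) ∈ U := by
  induction n with
  | zero =>
    intro l hl _ u hu
    have : l = [] := List.eq_nil_of_length_eq_zero (Nat.le_zero.1 hl)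
    rw [this, List.prod_nil]
    change E 0 u ∈ U
    rw [hU u hu]; exact hu
  | succ n ih =>
    intro l hl hlg u hu
    rcases List.eq_nil_or_concat l with rfl | ⟨l', z, rfl⟩
    · rw [List.prod_nil]
      change E 0 u ∈ U
      rw [hU u hu]; exact hu
    · rw [List.concat_eq_append] at hl hlg ⊢
      rw [List.length_append, List.length_singleton] at hl
      have hz : z ∈ g := hlg z (by simp)
      have hl' : ∀ x ∈ l', x ∈ g := fun y hy => hlg y (by simp [hy])
      obtain ⟨w, hw, hw0, hzw⟩ := P.lower hz
      have hzu : z u = E 0 (z u) + w u := by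
        have := LinearMap.congr_fun hzw u
        change z (E 0 u) = E 0 (z (E 0 u)) + w (E 0 u) at this
        rwa [hU u hu] at this
      have e : (l' ++ [z]).prod u = l'.prod (z u) := by
        simp only [List.prod_append, List.prod_cons, List.prod_nil, mul_one]
        rfl
      rw [e, hzu, map_add, map_add]
      apply U.add_mem
      · exact ih l' (by omega) hl' _ (hst z hz u hu)
      · have h1 := P.word_move h ih hw hw0 l' [] (by simp; omega) hl' (by simp) u hu
        simpa using h1

/-- The range of `E 0` is an irreducible piece. -/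
theorem Peirce.irr (h : Setup g adj) (P : Peirce g adj E N M) {U : Submodule K V}
    (hU : ∀ u ∈ U, E 0 u = u) (hU0 : U ≠ ⊥) (hst : ∀ C ∈ g, ∀ u ∈ U, E 0 (C u) ∈ U) (v : V) :
    E 0 v ∈ U := by
  let W : Submodule K V :=
    { carrier := {v | ∀ l : List (Module.End K V), (∀ x ∈ l, x ∈ g) → E 0 (l.prod v) ∈ U}
      add_mem' := by
        intro a b ha hb l hl
        rw [map_add, map_add]
        exact U.add_mem (ha l hl) (hb l hl)
      zero_mem' := by
        intro l _
        rw [map_zero, map_zero]; exact U.zero_mem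
      smul_mem' := by
        intro c a ha l hl
        rw [map_smul, map_smul]
        exact U.smul_mem c (ha l hl) }
  have hUW : U ≤ W := fun u hu l hl => P.words h hU hst _ l le_rfl hl u hu
  have hWst : ∀ X ∈ g, ∀ w ∈ W, X w ∈ W := by
    intro X hX w hw l hl
    have := hw (l ++ [X]) (by
      intro x hx
      rcases List.mem_append.1 hx with hx | hx
      · exact hl x hx
      · rw [List.mem_singleton.1 hx]; exact hX)
    simpa using this
  rcases h.irr W hWst with hW | hW
  · exact absurd (le_bot_iff.1 (hW ▸ hUW)) hU0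
  · have hv : v ∈ W := by rw [hW]; trivial
    simpa using hv [] (by simp)

end irr

end Pool.Agent.H53Toric
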