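import Pool.Agent.Lib.H53Toric.Core4

/-!
# The pairing of the two off-diagonal pieces is scalar
-/

set_option autoImplicit false
set_option linter.unusedSectionVars false
namespace Pool.Agent.H53Toric
open Module
variable {K : Type*} [Field K] {V : Type*} [AddCommGroup V] [Module K V]

/-- The upper piece. -/
def J1 (g : Submodule K (Module.End K V)) (E : Fin 4 → Module.End K V) :
    Submodule K (Module.End K V) where
  carrier := {A | A ∈ g ∧ E 0 * A * E 2 + E 1 * A * E 3 = A}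
  add_mem' := by
    rintro a b ⟨h1, h2⟩ ⟨h3, h4⟩
    refine ⟨g.add_mem h1 h3, ?_⟩
    have e : E 0 * (a + b) * E 2 + E 1 * (a + b) * E 3 =
        (E 0 * a * E 2 + E 1 * a * E 3) + (E 0 * b * E 2 + E 1 * b * E 3) := by noncomm_ring
    rw [e, h2, h4]
  zero_mem' := by simp
  smul_mem' := by
    rintro c a ⟨h1, h2⟩
    refine ⟨g.smul_mem c h1, ?_⟩
    simp only [mul_smul_comm, smul_mul_assoc]
    rw [← smul_add, h2]

/-- The lower piece. -/
def J2 (g : Submodule K (Module.End K V)) (E : Fin 4 → Module.End K V) :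
    Submodule K (Module.End K V) where
  carrier := {A | A ∈ g ∧ E 2 * A * E 0 + E 3 * A * E 1 = A}
  add_mem' := by
    rintro a b ⟨h1, h2⟩ ⟨h3, h4⟩
    refine ⟨g.add_mem h1 h3, ?_⟩
    have e : E 2 * (a + b) * E 0 + E 3 * (a + b) * E 1 =
        (E 2 * a * E 0 + E 3 * a * E 1) + (E 2 * b * E 0 + E 3 * b * E 1) := by noncomm_ring
    rw [e, h2, h4]
  zero_mem' := by simp
  smul_mem' := by
    rintro c a ⟨h1, h2⟩
    refine ⟨g.smul_mem c h1, ?_⟩
    simp only [mul_smul_comm, smul_mul_assoc]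
    rw [← smul_add, h2]

section rules

variable {g : Submodule K (Module.End K V)} {adj : Module.End K V →ₗ[K] Module.End K V}
  {E : Fin 4 → Module.End K V} {N M : Module.End K V} (P : Peirce g adj E N M)
  {A A' B B' : Module.End K V}

include P

theorem Peirce.A2 (hA : A ∈ J1 g E) : E 2 * A = 0 := by
  rw [← hA.2]; simp [mul_add, mul_assoc, P.mul']
theorem Peirce.A3 (hA : A ∈ J1 g E) : E 3 * A = 0 := by
  rw [← hA.2]; simp [mul_add, mul_assoc, P.mul']
theorem Peirce.Ar0 (hA : A ∈ J1 g E) : A * E 0 = 0 := by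
  rw [← hA.2]; simp [add_mul, mul_assoc, P.mul]
theorem Peirce.Ar1 (hA : A ∈ J1 g E) : A * E 1 = 0 := by
  rw [← hA.2]; simp [add_mul, mul_assoc, P.mul]
theorem Peirce.A0 (hA : A ∈ J1 g E) : E 0 * A = A * E 2 := by
  rw [← hA.2]; simp [mul_add, add_mul, mul_assoc, P.mul, P.mul']
theorem Peirce.A1 (hA : A ∈ J1 g E) : E 1 * A = A * E 3 := by
  rw [← hA.2]; simp [mul_add, add_mul, mul_assoc, P.mul, P.mul']
theorem Peirce.B0 (hB : B ∈ J2 g E) : E 0 * B = 0 := by
  rw [← hB.2]; simp [mul_add, mul_assoc, P.mul']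
theorem Peirce.B1 (hB : B ∈ J2 g E) : E 1 * B = 0 := by
  rw [← hB.2]; simp [mul_add, mul_assoc, P.mul']
theorem Peirce.Br2 (hB : B ∈ J2 g E) : B * E 2 = 0 := by
  rw [← hB.2]; simp [add_mul, mul_assoc, P.mul]
theorem Peirce.Br3 (hB : B ∈ J2 g E) : B * E 3 = 0 := by
  rw [← hB.2]; simp [add_mul, mul_assoc, P.mul]
theorem Peirce.B2 (hB : B ∈ J2 g E) : E 2 * B = B * E 0 := by
  rw [← hB.2]; simp [mul_add, add_mul, mul_assoc, P.mul, P.mul']
theorem Peirce.B3 (hB : B ∈ J2 g E) : E 3 * B = B * E 1 := by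
  rw [← hB.2]; simp [mul_add, add_mul, mul_assoc, P.mul, P.mul']

theorem Peirce.expand_left (X : Module.End K V) :
    X = E 0 * X + E 1 * X + E 2 * X + E 3 * X := by
  rw [← add_mul, ← add_mul, ← add_mul, P.sum, one_mul]

theorem Peirce.expand_right (X : Module.End K V) :
    X = X * E 0 + X * E 1 + X * E 2 + X * E 3 := by
  rw [← mul_add, ← mul_add, ← mul_add, P.sum, mul_one]

theorem Peirce.AA (hA : A ∈ J1 g E) : A * A = 0 := by
  have h : A = E 0 * A + E 1 * A := by
    have := P.expand_left A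
    rwa [P.A2 hA, P.A3 hA, add_zero, add_zero] at this
  calc A * A = A * (E 0 * A + E 1 * A) := by rw [← h]
    _ = (A * E 0) * A + (A * E 1) * A := by noncomm_ring
    _ = 0 := by rw [P.Ar0 hA, P.Ar1 hA]; simp

theorem Peirce.BB (hB : B ∈ J2 g E) : B * B = 0 := by
  have h : B = E 2 * B + E 3 * B := by
    have := P.expand_left B
    rwa [P.B0 hB, P.B1 hB, zero_add, zero_add] at this
  calc B * B = B * (E 2 * B + E 3 * B) := by rw [← h]
    _ = (B * E 2) * B + (B * E 3) * B := by noncomm_ring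
    _ = 0 := by rw [P.Br2 hB, P.Br3 hB]; simp

theorem Peirce.AN (hA : A ∈ J1 g E) : A * N = 0 := by
  have h := P.EN 0
  rw [if_pos rfl] at h
  rw [← h, ← mul_assoc, P.Ar0 hA, zero_mul]

theorem Peirce.NA (hA : A ∈ J1 g E) : N * A = 0 := by
  have h := P.NE 3
  rw [if_pos rfl] at h
  rw [← h, mul_assoc, P.A3 hA, mul_zero]

theorem Peirce.BM (hB : B ∈ J2 g E) : B * M = 0 := by
  have h := P.EM 3
  rw [if_pos rfl] at h
  rw [← h, ← mul_assoc, P.Br3 hB, zero_mul]

theorem Peirce.MB (hB : B ∈ J2 g E) : M * B = 0 := by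
  have h := P.ME 0
  rw [if_pos rfl] at h
  rw [← h, mul_assoc, P.B0 hB, mul_zero]

/-- `e A B = A B e`. -/
theorem Peirce.ev (hA : A ∈ J1 g E) (hB : B ∈ J2 g E) : E 0 * A * B = A * B * E 0 := by
  rw [P.A0 hA, mul_assoc, P.B2 hB, mul_assoc]

/-- `e' B A = B A e'`. -/
theorem Peirce.ev' (hA : A ∈ J1 g E) (hB : B ∈ J2 g E) : E 3 * B * A = B * A * E 3 := by
  rw [P.B3 hB, mul_assoc, P.A1 hA, mul_assoc]

theorem Peirce.adj_ev (h : Setup g adj) (hA : A ∈ J1 g E) (hB : B ∈ J2 g E) :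
    adj (E 0 * A * B) = E 3 * B * A := by
  rw [h.adj_mul, h.adj_mul, P.adj0, h.skew A hA.1, h.skew B hB.1, P.ev' hA hB]
  noncomm_ring

theorem Peirce.tr_ev (h : Setup g adj) (hA : A ∈ J1 g E) (hB : B ∈ J2 g E) :
    LinearMap.trace K V (E 3 * B * A) = LinearMap.trace K V (E 0 * A * B) := by
  rw [← P.adj_ev h hA hB, h.adj_tr]

/-- `J1` contains the upper component of an element of `g`. -/
theorem Peirce.J1_mem {X : Module.End K V} (hX : X ∈ g) :
    E 0 * X * E 2 + E 1 * X * E 3 ∈ J1 g E := by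
  refine ⟨P.mA X hX, ?_⟩
  simp [mul_add, add_mul, mul_assoc, P.mul, P.mul']

theorem Peirce.J2_mem {X : Module.End K V} (hX : X ∈ g) :
    E 2 * X * E 0 + E 3 * X * E 1 ∈ J2 g E := by
  refine ⟨P.mB X hX, ?_⟩
  simp [mul_add, add_mul, mul_assoc, P.mul, P.mul']

end rules

section basic

variable [CharZero K] [FiniteDimensional K V]
variable {g : Submodule K (Module.End K V)} {adj : Module.End K V →ₗ[K] Module.End K V}
  {E : Fin 4 → Module.End K V} {N M : Module.End K V} (h : Setup g adj)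
  (P : Peirce g adj E N M) {A A' B B' : Module.End K V}

include P h

/-- First relation: `E + E† = c e`. -/
theorem Peirce.rel1 (hA : A ∈ J1 g E) (hB : B ∈ J2 g E) :
    ∃ c : K, E 0 * A * B + N * (E 3 * B * A) * M = c • E 0 := by
  have h1 := h.lie _ (h.lie A hA.1 B hB.1) N P.memN
  obtain ⟨c, hc⟩ := P.ext _ h1
  have hNE3 := P.NE 3
  rw [if_pos rfl] at hNE3
  have hEN0 := P.EN 0
  rw [if_pos rfl] at hEN0
  have e1 : (A * B - B * A) * N - N * (A * B - B * A) = (E 0 * A * B) * N + N * (E 3 * B * A) := by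
    have e2 : (E 0 * A * B) * N = A * B * N := by rw [P.ev hA hB, mul_assoc, hEN0]
    have e3 : N * (E 3 * B * A) = N * B * A := by
      rw [mul_assoc, ← mul_assoc N, hNE3, mul_assoc]
    rw [e2, e3]
    calc (A * B - B * A) * N - N * (A * B - B * A) =
        A * B * N + N * B * A - B * (A * N) - (N * A) * B := by noncomm_ring
      _ = _ := by rw [P.AN hA, P.NA hA]; simp
  rw [e1] at hc
  refine ⟨c, ?_⟩
  have e4 : E 0 * ((E 0 * A * B) * N + N * (E 3 * B * A)) * E 3 =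
      (E 0 * A * B) * N + N * (E 3 * B * A) := by
    rw [mul_add, add_mul]
    congr 1
    · calc E 0 * (E 0 * A * B * N) * E 3 = (E 0 * E 0) * A * B * (N * E 3) := by noncomm_ring
        _ = _ := by rw [P.ee, hNE3]
    · calc E 0 * (N * (E 3 * B * A)) * E 3 = (E 0 * N) * (E 3 * (B * A * E 3)) := by
            noncomm_ring
        _ = _ := by
          rw [hEN0, ← P.ev' hA hB]
          simp [mul_assoc, P.mul']
  rw [e4] at hc
  have e5 : E 0 * A * B * E 0 = E 0 * A * B := by rw [P.ev hA hB, mul_assoc, P.ee]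
  calc E 0 * A * B + N * (E 3 * B * A) * M =
      (E 0 * A * B * N + N * (E 3 * B * A)) * M := by
        rw [add_mul, mul_assoc _ N M, P.NM, e5]
    _ = c • E 0 := by rw [hc, smul_mul_assoc, P.NM]

/-- Second relation: `E E† = c e`. -/
theorem Peirce.rel2 (hA : A ∈ J1 g E) (hB : B ∈ J2 g E) :
    ∃ c : K, (E 0 * A * B) * (N * (E 3 * B * A) * M) = c • E 0 := by
  have h1 := h.lie.sandwich hA.1 (P.AA hA) (h.lie.sandwich hB.1 (P.BB hB) P.memN)
  obtain ⟨c, hc⟩ := P.ext _ h1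
  have hNE3 := P.NE 3
  rw [if_pos rfl] at hNE3
  have hEN0 := P.EN 0
  rw [if_pos rfl] at hEN0
  have hEM3 := P.EM 3
  rw [if_pos rfl] at hEM3
  refine ⟨c, ?_⟩
  calc (E 0 * A * B) * (N * (E 3 * B * A) * M) =
      E 0 * A * B * N * (E 3 * B * A) * M := by noncomm_ring
    _ = E 0 * A * B * N * B * A * M := by
        rw [mul_assoc (E 0 * A * B) N, mul_assoc (E 3) B A, ← mul_assoc N, hNE3]
        noncomm_ring
    _ = (E 0 * (A * (B * N * B) * A) * E 3) * M := by
        rw [mul_assoc _ (E 3) M, hEM3]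
        noncomm_ring
    _ = c • E 0 := by rw [hc, smul_mul_assoc, P.NM]

end basic

/-! ### Skew parts -/

/-- The rank of `E 0` as a scalar. -/
noncomputable def rk (E : Fin 4 → Module.End K V) : K :=
  (finrank K (LinearMap.range (E 0)) : K)

/-- The traceless part of `X` with respect to `E 0`. -/
noncomputable def sk (E : Fin 4 → Module.End K V) : Module.End K V →ₗ[K] Module.End K V :=
  LinearMap.id - (LinearMap.toSpanSingleton K _ (E 0)) ∘ₗ ((rk E)⁻¹ • LinearMap.trace K V)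

theorem sk_apply (E : Fin 4 → Module.End K V) (X : Module.End K V) :
    sk E X = X - ((rk E)⁻¹ * LinearMap.trace K V X) • E 0 := by
  simp [sk]

section skew

variable [IsAlgClosed K] [CharZero K] [FiniteDimensional K V]
variable {g : Submodule K (Module.End K V)} {adj : Module.End K V →ₗ[K] Module.End K V}
  {E : Fin 4 → Module.End K V} {N M : Module.End K V} (h : Setup g adj)
  (P : Peirce g adj E N M) {A A' B B' : Module.End K V}

include P

theorem Peirce.rk_ne : rk E ≠ 0 := by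
  have h1 := P.odd
  rw [rk, Nat.cast_ne_zero]
  intro h0
  rw [h0] at h1
  exact absurd h1 (by decide)

theorem Peirce.tr_e : LinearMap.trace K V (E 0) = rk E := trace_idem P.ee

theorem Peirce.sk_e : sk E (E 0) = 0 := by
  rw [sk_apply, P.tr_e, inv_mul_cancel₀ P.rk_ne, one_smul, sub_self]

theorem Peirce.tr_sk (X : Module.End K V) : LinearMap.trace K V (sk E X) = 0 := by
  rw [sk_apply, map_sub, map_smul, P.tr_e, smul_eq_mul, mul_comm (rk E)⁻¹, mul_assoc,
    inv_mul_cancel₀ P.rk_ne, mul_one, sub_self]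

theorem Peirce.ev_e (hA : A ∈ J1 g E) (hB : B ∈ J2 g E) :
    E 0 * A * B * E 0 = E 0 * A * B := by
  rw [P.ev hA hB, mul_assoc, P.ee]

theorem Peirce.e_ev (A B : Module.End K V) : E 0 * (E 0 * A * B) = E 0 * A * B := by
  rw [← mul_assoc, ← mul_assoc, P.ee]

theorem Peirce.e_sk (A B : Module.End K V) : E 0 * sk E (E 0 * A * B) = sk E (E 0 * A * B) := by
  rw [sk_apply, mul_sub, mul_smul_comm, P.ee, P.e_ev]

theorem Peirce.sk_mul_e (hA : A ∈ J1 g E) (hB : B ∈ J2 g E) :
    sk E (E 0 * A * B) * E 0 = sk E (E 0 * A * B) := by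
  rw [sk_apply, sub_mul, smul_mul_assoc, P.ee, P.ev_e hA hB]

include h in
theorem Peirce.sk_sq (hA : A ∈ J1 g E) (hB : B ∈ J2 g E) :
    sk E (E 0 * A * B) * sk E (E 0 * A * B) = 0 := by
  obtain ⟨c, hc⟩ := P.rel1 h hA hB
  obtain ⟨c', hc'⟩ := P.rel2 h hA hB
  have htr : LinearMap.trace K V (N * (E 3 * B * A) * M) =
      LinearMap.trace K V (E 0 * A * B) := by
    rw [← P.tr_ev h hA hB, mul_assoc, LinearMap.trace_mul_comm, mul_assoc, P.MN]
    congr 1
    rw [P.ev' hA hB, mul_assoc (B * A), P.mul, if_pos rfl]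
  have h1 := congrArg (LinearMap.trace K V) hc
  rw [map_add, htr, map_smul, P.tr_e, smul_eq_mul] at h1
  have hr := P.rk_ne
  set l := (rk E)⁻¹ * LinearMap.trace K V (E 0 * A * B) with hl
  have hcl : c = 2 * l := by
    rw [hl]
    field_simp
    linear_combination -h1
  have hD : N * (E 3 * B * A) * M = (2 * l) • E 0 - E 0 * A * B := by
    rw [← hcl, ← hc]; abel
  rw [hD, mul_sub, mul_smul_comm, P.ev_e hA hB] at hc'
  have hEE : (E 0 * A * B) * (E 0 * A * B) = (2 * l) • (E 0 * A * B) - c' • E 0 := by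
    rw [← hc']; abel
  apply odd_lemma P.ee (P.e_sk A B) (P.sk_mul_e hA hB) (P.tr_sk _) P.odd (σ := l * l - c')
  rw [sk_apply, ← hl, sub_mul, mul_sub, mul_sub, hEE, mul_smul_comm, P.ev_e hA hB,
    smul_mul_assoc, P.e_ev, smul_mul_smul_comm, P.ee]
  module

omit [IsAlgClosed K] [FiniteDimensional K V] in
include h in
theorem Peirce.ABA (hA : A ∈ J1 g E) (hB : B ∈ J2 g E) : A * B * A ∈ J1 g E := by
  refine ⟨h.lie.sandwich hA.1 (P.AA hA) hB.1, ?_⟩
  have e1 : E 0 * (A * B * A) * E 2 = E 0 * A * B * A := by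
    calc E 0 * (A * B * A) * E 2 = E 0 * A * B * (A * E 2) := by noncomm_ring
      _ = E 0 * A * B * E 0 * A := by rw [← P.A0 hA]; noncomm_ring
      _ = _ := by rw [P.ev hA hB, mul_assoc (A * B), P.ee]
  have e2 : E 1 * (A * B * A) * E 3 = E 1 * A * B * A := by
    have : E 1 * A * B = A * B * E 1 := by
      rw [P.A1 hA, mul_assoc, P.B3 hB, mul_assoc]
    calc E 1 * (A * B * A) * E 3 = E 1 * A * B * (A * E 3) := by noncomm_ring
      _ = E 1 * A * B * E 1 * A := by rw [← P.A1 hA]; noncomm_ring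
      _ = _ := by rw [this, mul_assoc (A * B), P.mul, if_pos rfl]
  rw [e1, e2]
  have e3 := P.expand_left (A * B * A)
  rw [← mul_assoc (E 2), ← mul_assoc (E 2), ← mul_assoc (E 3), ← mul_assoc (E 3), P.A2 hA,
    P.A3 hA, zero_mul, zero_mul, add_zero, add_zero] at e3
  rw [e3]
  noncomm_ring

omit [IsAlgClosed K] [FiniteDimensional K V] in
include h in
theorem Peirce.ABA' (hA : A ∈ J1 g E) (hA' : A' ∈ J1 g E) (hB : B ∈ J2 g E) :
    A * B * A' + A' * B * A ∈ J1 g E := by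
  have h1 := (J1 g E).sub_mem ((J1 g E).sub_mem (P.ABA h ((J1 g E).add_mem hA hA') hB)
    (P.ABA h hA hB)) (P.ABA h hA' hB)
  convert h1 using 1
  noncomm_ring

/-- The product rule for evaluations. -/
theorem Peirce.ev_mul (hA : A ∈ J1 g E) (hB : B ∈ J2 g E) (A' B' : Module.End K V) :
    (E 0 * A * B) * (E 0 * A' * B') = E 0 * (A * B * A') * B' := by
  have : (E 0 * A * B) * (E 0 * A' * B') = (E 0 * A * B * E 0) * A' * B' := by noncomm_ring
  rw [this, P.ev_e hA hB]
  noncomm_ring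

include h in
theorem Peirce.exists_unit (hA : A ∈ J1 g E) (hB : B ∈ J2 g E)
    (hne : LinearMap.trace K V (E 0 * A * B) ≠ 0) : ∃ A₀ ∈ J1 g E, E 0 * A₀ * B = E 0 := by
  have h1 := P.sk_sq h hA hB
  set l := (rk E)⁻¹ * LinearMap.trace K V (E 0 * A * B) with hl
  have hl0 : l ≠ 0 := mul_ne_zero (inv_ne_zero P.rk_ne) hne
  rw [sk_apply, ← hl, sub_mul, mul_sub, mul_sub, mul_smul_comm, P.ev_e hA hB,
    smul_mul_assoc, P.e_ev, smul_mul_smul_comm, P.ee] at h1
  have hEE : (E 0 * A * B) * (E 0 * A * B) = (2 * l) • (E 0 * A * B) - (l * l) • E 0 := by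
    rw [← sub_eq_zero, ← h1]
    module
  rw [P.ev_mul hA hB] at hEE
  refine ⟨(2 / l) • A - (1 / (l * l)) • (A * B * A), (J1 g E).sub_mem
    ((J1 g E).smul_mem _ hA) ((J1 g E).smul_mem _ (P.ABA h hA hB)), ?_⟩
  rw [mul_sub, sub_mul, mul_smul_comm, mul_smul_comm, smul_mul_assoc, smul_mul_assoc, hEE,
    smul_sub, smul_smul, smul_smul]
  have e1 : 1 / (l * l) * (2 * l) = 2 / l := by field_simp
  have e2 : 1 / (l * l) * (l * l) = 1 := by field_simp
  rw [e1, e2, one_smul]
  abel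

end skew

end Pool.Agent.H53Toric
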