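import Pool.Agent.Lib.H53Toric.Core5

/-!
# Evaluations are scalar
-/

set_option autoImplicit false
set_option linter.unusedSectionVars false
namespace Pool.Agent.H53Toric
open Module
variable {K : Type*} [Field K] {V : Type*} [AddCommGroup V] [Module K V]
variable [IsAlgClosed K] [CharZero K] [FiniteDimensional K V]
variable {g : Submodule K (Module.End K V)} {adj : Module.End K V →ₗ[K] Module.End K V}
  {E : Fin 4 → Module.End K V} {N M : Module.End K V} (h : Setup g adj)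
  (P : Peirce g adj E N M) {A A' B B' : Module.End K V}

include P h

/-- A vector on which all evaluations are scalar. -/
theorem Peirce.exists_vec {A₀ B₀ : Module.End K V} (hA₀ : A₀ ∈ J1 g E) (hB₀ : B₀ ∈ J2 g E)
    (h0 : E 0 * A₀ * B₀ = E 0) : ∃ u : V, u ≠ 0 ∧ E 0 u = u ∧ ∀ A ∈ J1 g E, ∀ B ∈ J2 g E,
      (E 0 * A * B) u = ((rk E)⁻¹ * LinearMap.trace K V (E 0 * A * B)) • u := by
  let W : Submodule K (Module.End K V) :=
    { carrier := {w | ∃ A ∈ J1 g E, ∃ B ∈ J2 g E,
        w = sk E (E 0 * A * B₀) + sk E (E 0 * A₀ * B)}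
      add_mem' := by
        rintro _ _ ⟨A, hA, B, hB, rfl⟩ ⟨A', hA', B', hB', rfl⟩
        refine ⟨A + A', (J1 g E).add_mem hA hA', B + B', (J2 g E).add_mem hB hB', ?_⟩
        rw [mul_add, mul_add, add_mul, map_add, map_add]
        abel
      zero_mem' := ⟨0, (J1 g E).zero_mem, 0, (J2 g E).zero_mem, by simp⟩
      smul_mem' := by
        rintro c _ ⟨A, hA, B, hB, rfl⟩
        refine ⟨c • A, (J1 g E).smul_mem c hA, c • B, (J2 g E).smul_mem c hB, ?_⟩
        simp only [mul_smul_comm, smul_mul_assoc, map_smul, smul_add] }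
  have hsq : ∀ w ∈ W, w * w = 0 := by
    rintro _ ⟨A, hA, B, hB, rfl⟩
    set s := sk E (E 0 * A * B₀) with hs
    set t := sk E (E 0 * A₀ * B) with ht
    set S := sk E (E 0 * A * B) with hS
    have hz : sk E (E 0 * A₀ * B₀) = 0 := by rw [h0, P.sk_e]
    have h1 := P.sk_sq h ((J1 g E).add_mem hA₀ hA) ((J2 g E).add_mem hB₀ hB)
    have h2 := P.sk_sq h ((J1 g E).sub_mem hA₀ hA) ((J2 g E).sub_mem hB₀ hB)
    have h3 := P.sk_sq h hA hB
    have e1 : sk E (E 0 * (A₀ + A) * (B₀ + B)) = s + t + S := by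
      have : E 0 * (A₀ + A) * (B₀ + B) = E 0 * A₀ * B₀ + E 0 * A * B₀ + E 0 * A₀ * B +
          E 0 * A * B := by noncomm_ring
      rw [this, map_add, map_add, map_add, hz, zero_add]
    have e2 : sk E (E 0 * (A₀ - A) * (B₀ - B)) = S - s - t := by
      have : E 0 * (A₀ - A) * (B₀ - B) = E 0 * A₀ * B₀ - E 0 * A * B₀ - E 0 * A₀ * B +
          E 0 * A * B := by noncomm_ring
      rw [this, map_add, map_sub, map_sub, hz, zero_sub, ← hs, ← ht, ← hS]
      abel
    rw [e1] at h1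
    rw [e2] at h2
    rw [← hS] at h3
    have h4 : (2 : K) • ((s + t) * (s + t)) = 0 := by
      have e3 : (2 : K) • ((s + t) * (s + t)) = (s + t + S) * (s + t + S) +
          (S - s - t) * (S - s - t) - (S * S + S * S) := by
        rw [two_smul]; noncomm_ring
      rw [e3, h1, h2, h3]; simp
    exact (smul_eq_zero.1 h4).resolve_left (by norm_num)
  obtain ⟨u, hu, hu0, huW⟩ := common_kernel W hsq _ (LinearMap.range (E 0)) le_rfl (by
    intro h1
    have h2 := P.rk_ne
    rw [rk, h1, finrank_bot] at h2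
    exact h2 (by simp)) (by
    rintro _ ⟨A, hA, B, hB, rfl⟩ u _
    refine ⟨(sk E (E 0 * A * B₀) + sk E (E 0 * A₀ * B)) u, ?_⟩
    change (E 0 * (sk E (E 0 * A * B₀) + sk E (E 0 * A₀ * B))) u = _
    rw [mul_add, P.e_sk, P.e_sk])
  have heu : E 0 u = u := by
    obtain ⟨v, rfl⟩ := hu
    change (E 0 * E 0) v = _
    rw [P.ee]
  refine ⟨u, hu0, heu, ?_⟩
  have hsc1 : ∀ A ∈ J1 g E, ∃ c : K, (E 0 * A * B₀) u = c • u := by
    intro A hA
    have h1 := huW (sk E (E 0 * A * B₀)) ⟨A, hA, 0, (J2 g E).zero_mem, by simp⟩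
    rw [sk_apply, LinearMap.sub_apply, LinearMap.smul_apply, heu, sub_eq_zero] at h1
    exact ⟨_, h1⟩
  have hsc2 : ∀ B ∈ J2 g E, ∃ c : K, (E 0 * A₀ * B) u = c • u := by
    intro B hB
    have h1 := huW (sk E (E 0 * A₀ * B)) ⟨0, (J1 g E).zero_mem, B, hB, by simp⟩
    rw [sk_apply, LinearMap.sub_apply, LinearMap.smul_apply, heu, sub_eq_zero] at h1
    exact ⟨_, h1⟩
  intro A hA B hB
  obtain ⟨c1, hc1⟩ := hsc1 _ (P.ABA' h hA hA₀ hB)
  obtain ⟨c2, hc2⟩ := hsc1 A hA
  obtain ⟨c3, hc3⟩ := hsc2 B hB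
  have key : E 0 * A * B = E 0 * (A * B * A₀ + A₀ * B * A) * B₀ -
      (E 0 * A₀ * B) * (E 0 * A * B₀) := by
    rw [P.ev_mul hA₀ hB, mul_add, add_mul, add_sub_cancel_right, ← P.ev_mul hA hB, h0,
      P.ev_e hA hB]
  have h1 : (E 0 * A * B) u = (c1 - c3 * c2) • u := by
    rw [key, LinearMap.sub_apply, hc1, sub_smul]
    congr 1
    change (E 0 * A₀ * B) ((E 0 * A * B₀) u) = _
    rw [hc2, map_smul, hc3, smul_smul, mul_comm]
  have h2 := P.sk_sq h hA hB
  set l := (rk E)⁻¹ * LinearMap.trace K V (E 0 * A * B) with hl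
  have h3 : sk E (E 0 * A * B) u = (c1 - c3 * c2 - l) • u := by
    rw [sk_apply, LinearMap.sub_apply, h1, LinearMap.smul_apply, heu, ← hl, ← sub_smul]
  have h4 : ((c1 - c3 * c2 - l) * (c1 - c3 * c2 - l)) • u = 0 := by
    have : (sk E (E 0 * A * B) * sk E (E 0 * A * B)) u = 0 := by rw [h2]; rfl
    change sk E (E 0 * A * B) (sk E (E 0 * A * B) u) = 0 at this
    rwa [h3, map_smul, h3, smul_smul] at this
  have h5 : c1 - c3 * c2 - l = 0 := by
    rcases smul_eq_zero.1 h4 with h4 | h4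
    · exact mul_self_eq_zero.1 h4
    · exact absurd h4 hu0
  rw [h1, sub_eq_zero.1 h5]

/-- If some evaluation has nonzero trace, all evaluations are scalar. -/
theorem Peirce.scalar_of_ne (hA₁ : A' ∈ J1 g E) (hB₁ : B' ∈ J2 g E)
    (hne : LinearMap.trace K V (E 0 * A' * B') ≠ 0) (hA : A ∈ J1 g E) (hB : B ∈ J2 g E) :
    E 0 * A * B = ((rk E)⁻¹ * LinearMap.trace K V (E 0 * A * B)) • E 0 := by
  obtain ⟨A₀, hA₀, h0⟩ := P.exists_unit h hA₁ hB₁ hne
  obtain ⟨u, hu0, heu, hu⟩ := P.exists_vec h hA₀ hB₁ h0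
  let U : Submodule K V :=
    { carrier := {u | E 0 u = u ∧ ∀ A ∈ J1 g E, ∀ B ∈ J2 g E,
        (E 0 * A * B) u = ((rk E)⁻¹ * LinearMap.trace K V (E 0 * A * B)) • u}
      add_mem' := by
        rintro a b ⟨h1, h2⟩ ⟨h3, h4⟩
        refine ⟨by rw [map_add, h1, h3], fun A hA B hB => ?_⟩
        rw [map_add, h2 A hA B hB, h4 A hA B hB, smul_add]
      zero_mem' := by simp
      smul_mem' := by
        rintro c a ⟨h1, h2⟩
        refine ⟨by rw [map_smul, h1], fun A hA B hB => ?_⟩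
        rw [map_smul, h2 A hA B hB, smul_comm] }
  have hst : ∀ C ∈ g, ∀ u ∈ U, E 0 (C u) ∈ U := by
    intro C hC u hu
    refine ⟨by change (E 0 * E 0) (C u) = _; rw [P.ee], fun A hA B hB => ?_⟩
    have hC₀ := P.mC C hC
    set C₀ := E 0 * C * E 0 + E 1 * C * E 1 + E 2 * C * E 2 + E 3 * C * E 3 with hC₀d
    have c0 : E 0 * C₀ = E 0 * C * E 0 := by
      rw [hC₀d]; simp [mul_add, mul_assoc, P.mul']
    have c0' : C₀ * E 0 = E 0 * C * E 0 := by
      rw [hC₀d]; simp [add_mul, mul_assoc, P.mul]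
    have c1 : E 1 * C₀ = C₀ * E 1 := by
      rw [hC₀d]; simp [mul_add, add_mul, mul_assoc, P.mul, P.mul']
    have c2 : E 2 * C₀ = C₀ * E 2 := by
      rw [hC₀d]; simp [mul_add, add_mul, mul_assoc, P.mul, P.mul']
    have c3 : E 3 * C₀ = C₀ * E 3 := by
      rw [hC₀d]; simp [mul_add, add_mul, mul_assoc, P.mul, P.mul']
    have c00 : E 0 * C₀ = C₀ * E 0 := by rw [c0, c0']
    have hCA : C₀ * A - A * C₀ ∈ J1 g E := by
      refine ⟨h.lie _ hC₀ _ hA.1, ?_⟩
      have e1 : E 0 * (C₀ * A - A * C₀) * E 2 + E 1 * (C₀ * A - A * C₀) * E 3 =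
          C₀ * (E 0 * A * E 2 + E 1 * A * E 3) - (E 0 * A * E 2 + E 1 * A * E 3) * C₀ := by
        have f1 : E 0 * (C₀ * A - A * C₀) * E 2 = C₀ * (E 0 * A * E 2) - (E 0 * A * E 2) * C₀ := by
          calc E 0 * (C₀ * A - A * C₀) * E 2 = (E 0 * C₀) * A * E 2 - E 0 * A * (C₀ * E 2) := by
                noncomm_ring
            _ = _ := by rw [c00, ← c2]; noncomm_ring
        have f2 : E 1 * (C₀ * A - A * C₀) * E 3 = C₀ * (E 1 * A * E 3) - (E 1 * A * E 3) * C₀ := by
          calc E 1 * (C₀ * A - A * C₀) * E 3 = (E 1 * C₀) * A * E 3 - E 1 * A * (C₀ * E 3) := by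
                noncomm_ring
            _ = _ := by rw [c1, ← c3]; noncomm_ring
        rw [f1, f2]; noncomm_ring
      rw [e1, hA.2]
    have hCB : C₀ * B - B * C₀ ∈ J2 g E := by
      refine ⟨h.lie _ hC₀ _ hB.1, ?_⟩
      have e1 : E 2 * (C₀ * B - B * C₀) * E 0 + E 3 * (C₀ * B - B * C₀) * E 1 =
          C₀ * (E 2 * B * E 0 + E 3 * B * E 1) - (E 2 * B * E 0 + E 3 * B * E 1) * C₀ := by
        have f1 : E 2 * (C₀ * B - B * C₀) * E 0 = C₀ * (E 2 * B * E 0) - (E 2 * B * E 0) * C₀ := by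
          calc E 2 * (C₀ * B - B * C₀) * E 0 = (E 2 * C₀) * B * E 0 - E 2 * B * (C₀ * E 0) := by
                noncomm_ring
            _ = _ := by rw [c2, ← c00]; noncomm_ring
        have f2 : E 3 * (C₀ * B - B * C₀) * E 1 = C₀ * (E 3 * B * E 1) - (E 3 * B * E 1) * C₀ := by
          calc E 3 * (C₀ * B - B * C₀) * E 1 = (E 3 * C₀) * B * E 1 - E 3 * B * (C₀ * E 1) := by
                noncomm_ring
            _ = _ := by rw [c3, ← c1]; noncomm_ring
        rw [f1, f2]; noncomm_ring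
      rw [e1, hB.2]
    have hsum : E 0 * (C₀ * A - A * C₀) * B + E 0 * A * (C₀ * B - B * C₀) =
        (E 0 * C * E 0) * (E 0 * A * B) - (E 0 * A * B) * (E 0 * C * E 0) := by
      have f1 : (E 0 * C * E 0) * (E 0 * A * B) = E 0 * C₀ * A * B := by
        rw [← c0', ← c00]
        calc E 0 * C₀ * (E 0 * A * B) = (E 0 * C₀ * E 0) * A * B := by noncomm_ring
          _ = _ := by rw [c0, mul_assoc (E 0 * C), P.ee]
      have f2 : (E 0 * A * B) * (E 0 * C * E 0) = E 0 * A * B * C₀ := by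
        rw [← c0, ← mul_assoc, P.ev_e hA hB]
      rw [f1, f2]; noncomm_ring
    have g1 := hu.2 _ hCA B hB
    have g2 := hu.2 A hA _ hCB
    have g3 := hu.2 A hA B hB
    have g4 : LinearMap.trace K V (E 0 * (C₀ * A - A * C₀) * B) +
        LinearMap.trace K V (E 0 * A * (C₀ * B - B * C₀)) = 0 := by
      rw [← map_add, hsum, map_sub, LinearMap.trace_mul_comm, sub_self]
    have g5 : (E 0 * (C₀ * A - A * C₀) * B) u + (E 0 * A * (C₀ * B - B * C₀)) u = 0 := by
      rw [g1, g2, ← add_smul, ← mul_add, g4, mul_zero, zero_smul]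
    have g6 : (E 0 * C * E 0) ((E 0 * A * B) u) - (E 0 * A * B) ((E 0 * C * E 0) u) = 0 := by
      rw [← LinearMap.add_apply, hsum] at g5
      exact g5
    have g7 : (E 0 * C * E 0) u = E 0 (C u) := by
      change E 0 (C (E 0 u)) = _
      rw [hu.1]
    rw [g3, map_smul, g7, sub_eq_zero] at g6
    exact g6.symm
  have hUr := P.irr h (U := U) (fun u hu => hu.1) (by
    intro h1
    have : u ∈ U := ⟨heu, hu⟩
    rw [h1] at this
    exact hu0 ((Submodule.mem_bot K).1 this)) hst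
  ext v
  have h1 := (hUr v).2 A hA B hB
  rw [LinearMap.smul_apply, ← h1]
  change _ = (E 0 * A * B * E 0) v
  rw [P.ev_e hA hB]

/-- All evaluations are scalar. -/
theorem Peirce.scalar [Nontrivial V] (hA : A ∈ J1 g E) (hB : B ∈ J2 g E) :
    ∃ c : K, E 0 * A * B = c • E 0 := by
  by_cases hex : ∃ A' ∈ J1 g E, ∃ B' ∈ J2 g E, LinearMap.trace K V (E 0 * A' * B') ≠ 0
  · obtain ⟨A', hA', B', hB', hne⟩ := hex
    exact ⟨_, P.scalar_of_ne h hA' hB' hne hA hB⟩
  · push Not at hex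
    have hA0 : A = 0 := by
      apply trace_nondeg h.lie h.irr h.tr hA.1
      intro X hX
      have hBX := P.J2_mem hX
      have e1 : LinearMap.trace K V (A * X) =
          LinearMap.trace K V (A * (E 2 * X * E 0 + E 3 * X * E 1)) := by
        have f1 : A * X = E 0 * (A * E 2 * X) + E 1 * (A * E 3 * X) := by
          rw [← P.A0 hA, ← P.A1 hA]
          have f3 := P.expand_left (A * X)
          have f4 : E 2 * (A * X) = 0 := by rw [← mul_assoc, P.A2 hA, zero_mul]
          have f5 : E 3 * (A * X) = 0 := by rw [← mul_assoc, P.A3 hA, zero_mul]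
          rw [f4, f5, add_zero, add_zero] at f3
          calc A * X = E 0 * (A * X) + E 1 * (A * X) := f3
            _ = (E 0 * E 0) * A * X + (E 1 * E 1) * A * X := by
              rw [P.ee, P.mul 1 1, if_pos rfl]; noncomm_ring
            _ = _ := by noncomm_ring
        rw [f1, map_add, LinearMap.trace_mul_comm K (E 0), LinearMap.trace_mul_comm K (E 1),
          ← map_add]
        congr 1
        noncomm_ring
      rw [e1]
      set B' := E 2 * X * E 0 + E 3 * X * E 1 with hB'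
      have e2 : LinearMap.trace K V (A * B') = LinearMap.trace K V (E 0 * A * B') +
          LinearMap.trace K V (E 3 * B' * A) := by
        have f3 : A * B' = E 0 * A * B' + E 1 * A * B' := by
          have f4 := P.expand_left A
          rw [P.A2 hA, P.A3 hA, add_zero, add_zero] at f4
          nth_rw 1 [f4]
          noncomm_ring
        rw [f3, map_add]
        congr 1
        rw [P.A1 hA, mul_assoc, LinearMap.trace_mul_comm]
      rw [e2, P.tr_ev h hA hBX, hex A hA B' hBX, add_zero]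
    exact ⟨0, by rw [hA0]; simp⟩

end Pool.Agent.H53Toric
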