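import Pool.Agent.Lib.H53Toric.Core6

/-!
# The corner is scalar, and the rank is one
-/

set_option autoImplicit false
set_option linter.unusedSectionVars false
namespace Pool.Agent.H53Toric
open Module
variable {K : Type*} [Field K] {V : Type*} [AddCommGroup V] [Module K V]
variable [IsAlgClosed K] [CharZero K] [FiniteDimensional K V] [Nontrivial V]
variable {g : Submodule K (Module.End K V)} {adj : Module.End K V →ₗ[K] Module.End K V}
  {E : Fin 4 → Module.End K V} {N M : Module.End K V} (h : Setup g adj)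
  (P : Peirce g adj E N M) {X X' : Module.End K V}

include P h

theorem Peirce.scal2 (hX : X ∈ g) (hX' : X' ∈ g) :
    ∃ c : K, E 0 * X * E 2 * X' * E 0 = c • E 0 := by
  obtain ⟨c, hc⟩ := P.scalar h (P.J1_mem hX) (P.J2_mem hX')
  refine ⟨c, ?_⟩
  rw [← hc]
  simp [mul_add, add_mul, mul_assoc, P.mul']

theorem Peirce.scal1 (hX : X ∈ g) (hX' : X' ∈ g) :
    ∃ c : K, E 0 * X * E 1 * X' * E 0 = c • E 0 := by
  have e1 : N * (E 1 * X' * E 0 + E 3 * X' * E 2) - (E 1 * X' * E 0 + E 3 * X' * E 2) * N =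
      N * X' * E 2 - E 1 * X' * N := by
    simp [mul_add, add_mul, mul_assoc, P.EN, P.NE']
  have e2 : M * (E 0 * X * E 1 + E 2 * X * E 3) - (E 0 * X * E 1 + E 2 * X * E 3) * M =
      M * X * E 1 - E 2 * X * M := by
    simp [mul_add, add_mul, mul_assoc, P.EM, P.ME']
  have hA : N * X' * E 2 - E 1 * X' * N ∈ J1 g E := by
    refine ⟨?_, ?_⟩
    · rw [← e1]; exact h.lie _ P.memN _ (P.mB' X' hX')
    · simp [mul_sub, sub_mul, mul_assoc, P.mul, P.mul', P.EN', P.NE]
      abel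
  have hB : M * X * E 1 - E 2 * X * M ∈ J2 g E := by
    refine ⟨?_, ?_⟩
    · rw [← e2]; exact h.lie _ P.memM _ (P.mA' X hX)
    · simp [mul_sub, sub_mul, mul_assoc, P.mul, P.mul', P.EM', P.ME]
      abel
  obtain ⟨c, hc⟩ := P.scalar h hA hB
  have h1 := P.adj_ev h hA hB
  rw [hc, map_smul, P.adj0] at h1
  have h2 : E 3 * (M * X * E 1 - E 2 * X * M) * (N * X' * E 2 - E 1 * X' * N) =
      -(M * X * E 1 * X' * N) := by
    simp [mul_sub, sub_mul, mul_assoc, P.mul', P.EM', P.EN']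
  rw [h2] at h1
  refine ⟨-c, ?_⟩
  calc E 0 * X * E 1 * X' * E 0 = N * (M * X * E 1 * X' * N) * M := by
        rw [← P.NM]; noncomm_ring
    _ = -(N * (c • E 3) * M) := by rw [h1]; noncomm_ring
    _ = (-c) • E 0 := by
      rw [mul_smul_comm, smul_mul_assoc, P.NE 3, if_pos rfl, P.NM, neg_smul]

theorem Peirce.scal3 (hX : X ∈ g) (hX' : X' ∈ g) :
    ∃ c : K, E 0 * X * E 3 * X' * E 0 = c • E 0 := by
  obtain ⟨c, hc⟩ := P.ext X hX
  obtain ⟨d, hd⟩ := P.ext' X' hX'
  refine ⟨c * d, ?_⟩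
  calc E 0 * X * E 3 * X' * E 0 = (E 0 * X * E 3) * (E 3 * X' * E 0) := by
        simp [mul_assoc, P.mul']
    _ = _ := by rw [hc, hd, smul_mul_smul_comm, P.NM]

/-- The relation between the two corners. -/
theorem Peirce.corner (hX : X ∈ g) :
    N * X * M = E 0 * X * E 0 - (2 * ((rk E)⁻¹ * LinearMap.trace K V (E 0 * X * E 0))) • E 0 := by
  have hC := P.mC X hX
  have h1 := h.lie _ hC _ P.memN
  have e1 : (E 0 * X * E 0 + E 1 * X * E 1 + E 2 * X * E 2 + E 3 * X * E 3) * N -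
      N * (E 0 * X * E 0 + E 1 * X * E 1 + E 2 * X * E 2 + E 3 * X * E 3) =
      E 0 * X * N - N * X * E 3 := by
    simp [mul_add, add_mul, mul_assoc, P.EN, P.NE']
  rw [e1] at h1
  obtain ⟨c, hc⟩ := P.ext _ h1
  have e2 : E 0 * (E 0 * X * N - N * X * E 3) * E 3 = E 0 * X * N - N * X * E 3 := by
    simp [mul_sub, sub_mul, mul_assoc, P.mul, P.mul', P.EN', P.NE]
  rw [e2] at hc
  have h2 : E 0 * X * E 0 - N * X * M = c • E 0 := by
    calc E 0 * X * E 0 - N * X * M = (E 0 * X * N - N * X * E 3) * M := by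
          simp [sub_mul, mul_assoc, P.NM, P.EM]
      _ = _ := by rw [hc, smul_mul_assoc, P.NM]
  have h3 : LinearMap.trace K V (N * X * M) = -LinearMap.trace K V (E 0 * X * E 0) := by
    rw [← h.adj_tr (E 0 * X * E 0), h.adj_mul, h.adj_mul, P.adj0, h.skew X hX, mul_assoc N,
      LinearMap.trace_mul_comm, mul_assoc, P.MN, ← map_neg]
    have : -(E 3 * (-X * E 3)) = E 3 * (X * E 3) := by noncomm_ring
    rw [this, LinearMap.trace_mul_comm K (E 3), mul_assoc, P.mul, if_pos rfl]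
  have h4 := congrArg (LinearMap.trace K V) h2
  rw [map_sub, h3, map_smul, P.tr_e, smul_eq_mul] at h4
  have hr := P.rk_ne
  have h5 : c = 2 * ((rk E)⁻¹ * LinearMap.trace K V (E 0 * X * E 0)) := by
    field_simp
    linear_combination -h4
  rw [← h5, ← h2]
  abel

/-- The square of the corner of an involution. -/
theorem Peirce.corner_sq {y : Module.End K V} (hy : y ∈ g) (hy2 : y * y = 1) :
    ∃ c1 c2 c3 : K, (E 0 * y * E 0) * (E 0 * y * E 0) = (1 - c1 - c2 - c3) • E 0 ∧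
      E 0 * y * E 1 * y * E 0 = c1 • E 0 ∧ E 0 * y * E 2 * y * E 0 = c2 • E 0 ∧
      E 0 * y * E 3 * y * E 0 = c3 • E 0 := by
  obtain ⟨c1, h1⟩ := P.scal1 h hy hy
  obtain ⟨c2, h2⟩ := P.scal2 h hy hy
  obtain ⟨c3, h3⟩ := P.scal3 h hy hy
  refine ⟨c1, c2, c3, ?_, h1, h2, h3⟩
  have e1 : E 0 = E 0 * y * (E 0 + E 1 + E 2 + E 3) * y * E 0 := by
    rw [P.sum, mul_one, mul_assoc (E 0), hy2, mul_one, P.ee]
  have e2 : E 0 * y * (E 0 + E 1 + E 2 + E 3) * y * E 0 =
      (E 0 * y * E 0) * (E 0 * y * E 0) + E 0 * y * E 1 * y * E 0 + E 0 * y * E 2 * y * E 0 +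
      E 0 * y * E 3 * y * E 0 := by
    have : (E 0 * y * E 0) * (E 0 * y * E 0) = E 0 * y * E 0 * y * E 0 := by
      simp [mul_assoc, P.mul']
    rw [this]; noncomm_ring
  rw [h1, h2, h3] at e2
  rw [e2] at e1
  have : (E 0 * y * E 0) * (E 0 * y * E 0) = E 0 - c1 • E 0 - c2 • E 0 - c3 • E 0 := by
    nth_rw 5 [e1]
    abel
  rw [this]
  module

/-- The corner of an involution is scalar or has trace zero. -/
theorem Peirce.corner_dich {y : Module.End K V} (hy : y ∈ g) (hy2 : y * y = 1) :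
    LinearMap.trace K V (E 0 * y * E 0) = 0 ∨
      E 0 * y * E 0 = ((rk E)⁻¹ * LinearMap.trace K V (E 0 * y * E 0)) • E 0 := by
  obtain ⟨c1, c2, c3, hsq, -, -, -⟩ := P.corner_sq h hy hy2
  set k := 1 - c1 - c2 - c3 with hk
  set F := E 0 * y * E 0 with hF
  set l := (rk E)⁻¹ * LinearMap.trace K V F with hl
  have hc : N * y * M = F - (2 * l) • E 0 := P.corner h hy
  have hsq' : (N * y * M) * (N * y * M) = k • E 0 := by
    have h1 := congrArg adj hsq
    rw [h.adj_mul, map_smul, P.adj0] at h1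
    have h2 : adj F = -(E 3 * y * E 3) := by
      rw [hF, h.adj_mul, h.adj_mul, P.adj0, h.skew y hy]; noncomm_ring
    rw [h2] at h1
    calc (N * y * M) * (N * y * M) = N * y * (M * N) * y * M := by noncomm_ring
      _ = N * (-(E 3 * y * E 3) * -(E 3 * y * E 3)) * M := by
        rw [P.MN]
        simp [mul_assoc, P.mul', P.NE', P.EM]
      _ = k • E 0 := by
        rw [h1, mul_smul_comm, smul_mul_assoc, P.NE 3, if_pos rfl, P.NM]
  have hFe : F * E 0 = F := by rw [hF, mul_assoc _ (E 0), P.ee]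
  have heF : E 0 * F = F := by rw [hF, ← mul_assoc, ← mul_assoc, P.ee]
  rw [hc, mul_sub, sub_mul, sub_mul, hsq, mul_smul_comm, hFe, smul_mul_assoc, heF,
    smul_mul_smul_comm, P.ee] at hsq'
  have h3 : (4 * l) • (F - l • E 0) = 0 := by
    have : (4 * l) • (F - l • E 0) = k • E 0 - (k • E 0 - (2 * l) • F -
      ((2 * l) • F - (2 * l * (2 * l)) • E 0)) := by module
    rw [this, hsq', sub_self]
  rcases smul_eq_zero.1 h3 with h4 | h4
  · left
    have h5 : l = 0 := (mul_eq_zero.1 h4).resolve_left (by norm_num)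
    rw [hl] at h5
    exact (mul_eq_zero.1 h5).resolve_left (inv_ne_zero P.rk_ne)
  · right
    exact sub_eq_zero.1 h4

/-- Conjugation trick. -/
theorem Peirce.corner_conj {y Z : Module.End K V} (hy : y ∈ g) (hy2 : y * y = 1)
    (htr : LinearMap.trace K V (E 0 * y * E 0) = 0) (hZ : Z ∈ g) (hZ2 : Z * Z = 0)
    (hEZ : E 0 * Z = 0) {k : K} (hk : k ≠ 0) (hyZ : E 0 * y * Z * E 0 = k • E 0) :
    E 0 * y * E 0 = 0 := by
  have hy' : (1 + Z) * y * (1 - Z) ∈ g := by
    have h1 := g.sub_mem (g.add_mem hy (h.lie Z hZ y hy)) (h.lie.sandwich hZ hZ2 hy)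
    convert h1 using 1
    noncomm_ring
  have hy'2 : ((1 + Z) * y * (1 - Z)) * ((1 + Z) * y * (1 - Z)) = 1 := by
    calc ((1 + Z) * y * (1 - Z)) * ((1 + Z) * y * (1 - Z)) =
        (1 + Z) * y * (1 - Z * Z) * y * (1 - Z) := by noncomm_ring
      _ = (1 + Z) * (y * y) * (1 - Z) := by rw [hZ2]; noncomm_ring
      _ = 1 - Z * Z := by rw [hy2]; noncomm_ring
      _ = 1 := by rw [hZ2, sub_zero]
  have hc : E 0 * ((1 + Z) * y * (1 - Z)) * E 0 = E 0 * y * E 0 - k • E 0 := by
    rw [← hyZ]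
    calc E 0 * ((1 + Z) * y * (1 - Z)) * E 0 =
        (E 0 + E 0 * Z) * y * (1 - Z) * E 0 := by noncomm_ring
      _ = _ := by rw [hEZ, add_zero]; noncomm_ring
  have htr' : LinearMap.trace K V (E 0 * ((1 + Z) * y * (1 - Z)) * E 0) = -k * rk E := by
    rw [hc, map_sub, htr, map_smul, P.tr_e, smul_eq_mul]; ring
  rcases P.corner_dich h hy' hy'2 with h1 | h1
  · rw [htr'] at h1
    exact absurd h1 (mul_ne_zero (neg_ne_zero.2 hk) P.rk_ne)
  · rw [htr', hc] at h1
    have hr := P.rk_ne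
    have h2 : (rk E)⁻¹ * (-k * rk E) = -k := by field_simp
    rw [h2, neg_smul] at h1
    have h3 : E 0 * y * E 0 - k • E 0 + k • E 0 = 0 := by rw [h1]; simp
    simpa using h3

/-- The corner of an involution is scalar. -/
theorem Peirce.corner_scalar {y : Module.End K V} (hy : y ∈ g) (hy2 : y * y = 1) :
    ∃ c : K, E 0 * y * E 0 = c • E 0 := by
  rcases P.corner_dich h hy hy2 with htr | h1
  swap
  · exact ⟨_, h1⟩
  refine ⟨0, ?_⟩
  rw [zero_smul]
  obtain ⟨c1, c2, c3, hsq, h1, h2, h3⟩ := P.corner_sq h hy hy2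
  have hFe : (E 0 * y * E 0) * E 0 = E 0 * y * E 0 := by rw [mul_assoc _ (E 0), P.ee]
  have heF : E 0 * (E 0 * y * E 0) = E 0 * y * E 0 := by rw [← mul_assoc, ← mul_assoc, P.ee]
  have h0 := odd_lemma P.ee heF hFe htr P.odd hsq
  have hE0 : E 0 ≠ 0 := by
    intro h4
    have := P.odd
    rw [h4, LinearMap.range_zero, finrank_bot] at this
    exact absurd this (by decide)
  have hsum : 1 - c1 - c2 - c3 = 0 := by
    rw [h0] at hsq
    rcases smul_eq_zero.1 hsq.symm with h4 | h4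
    · exact h4
    · exact absurd h4 hE0
  by_cases hc1 : c1 = 0
  · by_cases hc2 : c2 = 0
    · have hc3 : c3 ≠ 0 := by
        rintro rfl
        rw [hc1, hc2] at hsum
        norm_num at hsum
      obtain ⟨d, hd⟩ := P.ext' y hy
      have hZ : E 3 * y * E 0 ∈ g := by rw [hd]; exact g.smul_mem _ P.memM
      refine P.corner_conj h hy hy2 htr hZ ?_ ?_ hc3 ?_
      · simp [mul_assoc, P.mul']
      · simp [mul_assoc, P.mul']
      · rw [← h3]; simp [mul_assoc, P.mul]
    · refine P.corner_conj h hy hy2 htr (P.mB y hy) ?_ ?_ hc2 ?_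
      · simp [mul_add, add_mul, mul_assoc, P.mul']
      · simp [mul_add, mul_assoc, P.mul']
      · rw [← h2]; simp [mul_add, add_mul, mul_assoc, P.mul]
  · refine P.corner_conj h hy hy2 htr (P.mB' y hy) ?_ ?_ hc1 ?_
    · simp [mul_add, add_mul, mul_assoc, P.mul']
    · simp [mul_add, mul_assoc, P.mul']
    · rw [← h1]; simp [mul_add, add_mul, mul_assoc, P.mul]

/-- The corner of every element of `g` is scalar. -/
theorem Peirce.corner_all (hX : X ∈ g) : ∃ c : K, E 0 * X * E 0 = c • E 0 := by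
  have key : ∀ X ∈ Submodule.span K {y | y ∈ g ∧ y * y = 1}, ∃ c : K,
      E 0 * X * E 0 = c • E 0 := by
    intro X hX
    induction hX using Submodule.span_induction with
    | mem y hy => exact P.corner_scalar h hy.1 hy.2
    | zero => exact ⟨0, by simp⟩
    | add a b _ _ ha hb =>
      obtain ⟨c, hc⟩ := ha
      obtain ⟨d, hd⟩ := hb
      exact ⟨c + d, by rw [mul_add, add_mul, hc, hd, add_smul]⟩
    | smul c a _ ha =>
      obtain ⟨d, hd⟩ := ha
      exact ⟨c * d, by rw [mul_smul_comm, smul_mul_assoc, hd, smul_smul]⟩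
  exact key X (h.span hX)

/-- The range of `E 0` is a line. -/
theorem Peirce.line : ∃ u : V, u ≠ 0 ∧ E 0 u = u ∧ ∀ v, ∃ c : K, E 0 v = c • u := by
  have hE0 : E 0 ≠ 0 := by
    intro h4
    have := P.odd
    rw [h4, LinearMap.range_zero, finrank_bot] at this
    exact absurd this (by decide)
  obtain ⟨v, hv⟩ : ∃ v, E 0 v ≠ 0 := by
    by_contra hcon
    push Not at hcon
    exact hE0 (LinearMap.ext hcon)
  have hu : E 0 (E 0 v) = E 0 v := by
    change (E 0 * E 0) v = _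
    rw [P.ee]
  refine ⟨E 0 v, hv, hu, ?_⟩
  intro w
  have := P.irr h (U := Submodule.span K {E 0 v}) (by
    intro x hx
    obtain ⟨c, rfl⟩ := Submodule.mem_span_singleton.1 hx
    rw [map_smul, hu]) (by
    intro h1
    exact hv (Submodule.span_singleton_eq_bot.1 h1)) (by
    intro C hC x hx
    obtain ⟨c, rfl⟩ := Submodule.mem_span_singleton.1 hx
    obtain ⟨d, hd⟩ := P.corner_all h hC
    rw [map_smul, map_smul]
    apply Submodule.smul_mem
    have h1 : E 0 (C (E 0 v)) = d • E 0 v := by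
      change (E 0 * C * E 0) v = _
      rw [hd]; rfl
    rw [h1]
    exact Submodule.smul_mem _ _ (Submodule.mem_span_singleton_self _)) w
  obtain ⟨c, hc⟩ := Submodule.mem_span_singleton.1 this
  exact ⟨c, hc.symm⟩

end Pool.Agent.H53Toric
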