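import Pool.Agent.Lib.H53Toric.Core7

/-!
# The Lie algebra is the full symplectic one
-/

set_option autoImplicit false
set_option linter.unusedSectionVars false
namespace Pool.Agent.H53Toric
open Module
variable {K : Type*} [Field K] {V : Type*} [AddCommGroup V] [Module K V]
variable [IsAlgClosed K] [CharZero K] [FiniteDimensional K V] [Nontrivial V]
variable {g : Submodule K (Module.End K V)} {adj : Module.End K V →ₗ[K] Module.End K V}
  {E : Fin 4 → Module.End K V} {N M : Module.End K V} (h : Setup g adj)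
  (P : Peirce g adj E N M) {X X' : Module.End K V}

include P h

/-- The middle space is filled by `g u`. -/
theorem Peirce.fill {u : V} (hu0 : u ≠ 0) (hu : E 0 u = u) (hline : ∀ v, ∃ c : K, E 0 v = c • u)
    (v : V) : ∃ X ∈ g, (E 1 + E 2) (X u) = (E 1 + E 2) v := by
  have hM0 : ∀ w : V, (E 1 + E 2) (M w) = 0 := by
    intro w
    change ((E 1 + E 2) * M) w = 0
    rw [add_mul, P.EM, P.EM]; simp
  have hu12 : (E 1 + E 2) u = 0 := by
    rw [← hu]
    change ((E 1 + E 2) * E 0) u = 0
    rw [add_mul, P.mul, P.mul]; simp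
  have h1212 : ∀ w : V, (E 1 + E 2) ((E 1 + E 2) w) = (E 1 + E 2) w := by
    intro w
    change ((E 1 + E 2) * (E 1 + E 2)) w = _
    congr 1
    simp [mul_add, add_mul, P.mul]
  have h3 : ∀ w : V, ∃ c : K, E 3 w = c • M u := by
    intro w
    obtain ⟨c, hc⟩ := hline (N w)
    refine ⟨c, ?_⟩
    rw [← P.MN]
    have e0 := P.EN 0
    rw [if_pos rfl] at e0
    change M (N w) = _
    rw [← e0]
    change M (E 0 (N w)) = _
    rw [hc, map_smul]
  have hsumv : ∀ w : V, w = E 0 w + (E 1 + E 2) w + E 3 w := by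
    intro w
    have := LinearMap.congr_fun P.sum w
    simp only [LinearMap.add_apply, Module.End.one_apply] at this ⊢
    rw [← this]
    have h2 := LinearMap.congr_fun P.sum w
    simp only [LinearMap.add_apply, Module.End.one_apply] at h2
    rw [h2]
    nth_rw 1 [← h2]
    abel
  let W : Submodule K V :=
    { carrier := {v | ∃ a b : K, ∃ X ∈ g, v = a • u + (E 1 + E 2) (X u) + b • M u}
      add_mem' := by
        rintro _ _ ⟨a, b, X, hX, rfl⟩ ⟨a', b', X', hX', rfl⟩
        refine ⟨a + a', b + b', X + X', g.add_mem hX hX', ?_⟩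
        rw [LinearMap.add_apply X, map_add]
        module
      zero_mem' := ⟨0, 0, 0, g.zero_mem, by simp⟩
      smul_mem' := by
        rintro c _ ⟨a, b, X, hX, rfl⟩
        refine ⟨c * a, c * b, c • X, g.smul_mem c hX, ?_⟩
        rw [LinearMap.smul_apply c X, map_smul]
        module }
  have hmemW : ∀ w : V, (∃ X ∈ g, (E 1 + E 2) w = (E 1 + E 2) (X u)) → w ∈ W := by
    rintro w ⟨X, hX, hw⟩
    obtain ⟨a, ha⟩ := hline w
    obtain ⟨b, hb⟩ := h3 w
    refine ⟨a, b, X, hX, ?_⟩
    rw [← ha, ← hb, ← hw]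
    exact hsumv w
  have hst : ∀ X ∈ g, ∀ w ∈ W, X w ∈ W := by
    rintro X hX _ ⟨a, b, X', hX', rfl⟩
    rw [map_add, map_add, map_smul, map_smul]
    apply W.add_mem
    · apply W.add_mem
      · apply W.smul_mem
        exact hmemW _ ⟨X, hX, rfl⟩
      · -- the middle term
        apply hmemW
        obtain ⟨c, hc⟩ := hline (X u)
        set X0 := E 0 * X * E 0 + E 1 * X * E 1 + E 2 * X * E 2 + E 3 * X * E 3 +
          E 1 * X * E 2 + E 2 * X * E 1 with hX0
        have hX0g : X0 ∈ g := g.add_mem (g.add_mem (P.mC X hX) (P.mC1 X hX)) (P.mC2 X hX)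
        set Xm := (E 1 * X' * E 0 + E 3 * X' * E 2) + (E 2 * X' * E 0 + E 3 * X' * E 1) with hXm
        have hXmg : Xm ∈ g := g.add_mem (P.mB' X' hX') (P.mB X' hX')
        refine ⟨X0 * Xm - Xm * X0 + c • X', g.add_mem (h.lie _ hX0g _ hXmg)
          (g.smul_mem c hX'), ?_⟩
        have e1 : (E 1 + E 2) * (X0 * Xm - Xm * X0) * E 0 =
            (E 1 + E 2) * X * (E 1 + E 2) * X' * E 0 -
            (E 1 + E 2) * X' * (E 0 * X * E 0) := by
          rw [hX0, hXm]
          simp [mul_add, add_mul, mul_sub, sub_mul, mul_assoc, P.mul, P.mul']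
          abel
        have e2 := LinearMap.congr_fun e1 u
        simp only [LinearMap.sub_apply, Module.End.mul_apply] at e2
        rw [hu, hc, map_smul, map_smul] at e2
        rw [LinearMap.add_apply (X0 * Xm - Xm * X0), map_add, LinearMap.smul_apply, map_smul,
          LinearMap.sub_apply]
        simp only [Module.End.mul_apply]
        rw [e2]
        abel
    · apply W.smul_mem
      apply hmemW
      set Xp := (E 0 * X * E 2 + E 1 * X * E 3) + (E 0 * X * E 1 + E 2 * X * E 3) with hXp
      have hXpg : Xp ∈ g := g.add_mem (P.mA X hX) (P.mA' X hX)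
      refine ⟨Xp * M - M * Xp, h.lie _ hXpg _ P.memM, ?_⟩
      have e1 : (E 1 + E 2) * (Xp * M - M * Xp) * E 0 = (E 1 + E 2) * X * M := by
        rw [hXp]
        simp [mul_add, add_mul, mul_sub, mul_assoc, P.mul, P.mul', P.ME, P.EM,
          P.EM']
      have e2 := LinearMap.congr_fun e1 u
      simp only [Module.End.mul_apply] at e2
      rw [hu] at e2
      exact e2.symm
  have huW : u ∈ W := hmemW u ⟨0, g.zero_mem, by simp [hu12]⟩
  have hW : W = ⊤ := by
    rcases h.irr W hst with hW | hW
    · rw [hW] at huW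
      exact absurd ((Submodule.mem_bot K).1 huW) hu0
    · exact hW
  have hv : v ∈ W := by rw [hW]; trivial
  obtain ⟨a, b, X, hX, rfl⟩ := hv
  refine ⟨X, hX, ?_⟩
  rw [map_add, map_add, map_smul, map_smul, hu12, hM0, h1212]
  simp

end Pool.Agent.H53Toric
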