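import Pool.Agent.Lib.H53Toric.Core8

/-!
# All skew operators belong to the Lie algebra
-/

set_option autoImplicit false
set_option linter.unusedSectionVars false
namespace Pool.Agent.H53Toric
open Module
variable {K : Type*} [Field K] {V : Type*} [AddCommGroup V] [Module K V]
variable [IsAlgClosed K] [CharZero K] [FiniteDimensional K V] [Nontrivial V]
variable {g : Submodule K (Module.End K V)} {adj : Module.End K V →ₗ[K] Module.End K V}
  {E : Fin 4 → Module.End K V} {N M : Module.End K V} (h : Setup g adj)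
  (P : Peirce g adj E N M) {X X' : Module.End K V}

include P h

theorem Peirce.skew_mem {u : V} (hu0 : u ≠ 0) (hu : E 0 u = u)
    (hline : ∀ v, ∃ c : K, E 0 v = c • u) {X : Module.End K V} (hX : adj X = -X) : X ∈ g := by
  -- adj of h0
  have adjh : adj (E 1 + E 2) = E 1 + E 2 := by rw [map_add, P.adj1, P.adj2, add_comm]
  have hEE : ∀ Y : Module.End K V, ∃ c : K, E 0 * Y * E 0 = c • E 0 := by
    intro Y
    obtain ⟨c, hc⟩ := hline (Y u)
    refine ⟨c, ?_⟩
    ext v
    obtain ⟨a, ha⟩ := hline v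
    change E 0 (Y (E 0 v)) = c • E 0 v
    rw [ha, map_smul, map_smul, hc, smul_comm]
  have heq : ∀ Y Y' : Module.End K V, (E 1 + E 2) (Y u) = (E 1 + E 2) (Y' u) →
      (E 1 + E 2) * Y * E 0 = (E 1 + E 2) * Y' * E 0 := by
    intro Y Y' hY
    ext v
    obtain ⟨a, ha⟩ := hline v
    change (E 1 + E 2) (Y (E 0 v)) = (E 1 + E 2) (Y' (E 0 v))
    rw [ha, map_smul, map_smul, map_smul, map_smul, hY]
  have hH : E 0 - E 3 ∈ g := by
    have := h.lie N P.memN M P.memM
    rwa [P.NM, P.MN] at this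
  -- lower part
  have hlow : ∀ Y : Module.End K V,
      (E 1 + E 2) * Y * E 0 - E 3 * adj Y * (E 1 + E 2) ∈ g := by
    intro Y
    obtain ⟨X', hX', hX'u⟩ := P.fill h hu0 hu hline (Y u)
    have e1 := heq X' Y hX'u
    have e2 := congrArg adj e1
    rw [h.adj_mul, h.adj_mul, h.adj_mul, h.adj_mul, adjh, P.adj0, h.skew X' hX'] at e2
    have e3 : E 3 * adj Y * (E 1 + E 2) = -(E 3 * X' * (E 1 + E 2)) := by
      rw [mul_assoc, ← e2]; noncomm_ring
    rw [← e1, e3, sub_neg_eq_add]
    have h1 := g.add_mem (P.mB' X' hX') (P.mB X' hX')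
    convert h1 using 1
    noncomm_ring
  -- upper part
  have hupp : ∀ Y : Module.End K V,
      (E 1 + E 2) * Y * E 3 - E 0 * adj Y * (E 1 + E 2) ∈ g := by
    intro Y
    have h1 := h.lie _ (hlow (Y * M)) N P.memN
    have adjN := h.skew N P.memN
    have adjM := h.skew M P.memM
    have e1 : ((E 1 + E 2) * (Y * M) * E 0 - E 3 * adj (Y * M) * (E 1 + E 2)) * N -
        N * ((E 1 + E 2) * (Y * M) * E 0 - E 3 * adj (Y * M) * (E 1 + E 2)) =
        (E 1 + E 2) * Y * E 3 - E 0 * adj Y * (E 1 + E 2) := by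
      rw [h.adj_mul, adjM]
      simp [mul_add, add_mul, mul_sub, sub_mul, mul_assoc, P.EN, P.NE', P.MN, P.ME, P.NM',
        P.EM']
      abel
    rwa [e1] at h1
  -- the pieces of X
  have p1 : (E 1 + E 2) * X * E 0 + E 3 * X * (E 1 + E 2) ∈ g := by
    have := hlow X
    rw [hX] at this
    convert this using 1
    noncomm_ring
  have p2 : (E 1 + E 2) * X * E 3 + E 0 * X * (E 1 + E 2) ∈ g := by
    have := hupp X
    rw [hX] at this
    convert this using 1
    noncomm_ring
  have p3 : E 0 * X * E 3 ∈ g := by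
    obtain ⟨c, hc⟩ := hEE (X * M)
    have : E 0 * X * E 3 = c • N := by
      calc E 0 * X * E 3 = (E 0 * (X * M) * E 0) * N := by
            simp [mul_assoc, P.EN, P.MN]
        _ = c • N := by rw [hc, smul_mul_assoc, P.EN 0, if_pos rfl]
    rw [this]; exact g.smul_mem _ P.memN
  have p4 : E 3 * X * E 0 ∈ g := by
    obtain ⟨c, hc⟩ := hEE (N * X)
    have : E 3 * X * E 0 = c • M := by
      calc E 3 * X * E 0 = M * (E 0 * (N * X) * E 0) := by
            simp [mul_assoc, P.ME', P.MN']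
        _ = c • M := by rw [hc, mul_smul_comm, P.ME 0, if_pos rfl]
    rw [this]; exact g.smul_mem _ P.memM
  have p5 : E 0 * X * E 0 + E 3 * X * E 3 ∈ g := by
    obtain ⟨c, hc⟩ := hEE X
    have e1 := congrArg adj hc
    rw [h.adj_mul, h.adj_mul, map_smul, P.adj0, hX] at e1
    have e2 : E 3 * X * E 3 = -(c • E 3) := by rw [← e1]; noncomm_ring
    have : E 0 * X * E 0 + E 3 * X * E 3 = c • (E 0 - E 3) := by
      rw [hc, e2, smul_sub, sub_eq_add_neg]
    rw [this]; exact g.smul_mem _ hH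
  -- the middle block
  have hmid : ∀ Y Y' : Module.End K V, (E 1 + E 2) * (Y * E 0 * Y') * (E 1 + E 2) -
      adj ((E 1 + E 2) * (Y * E 0 * Y') * (E 1 + E 2)) ∈ g := by
    intro Y Y'
    obtain ⟨c, hc⟩ := hEE (Y' * (E 1 + E 2) * Y)
    have e1 := congrArg adj hc
    simp only [h.adj_mul, map_smul, P.adj0, adjh] at e1
    have h1 := h.lie _ (hlow Y) _ (hupp (adj Y'))
    have e2 : ((E 1 + E 2) * Y * E 0 - E 3 * adj Y * (E 1 + E 2)) *
          ((E 1 + E 2) * adj Y' * E 3 - E 0 * adj (adj Y') * (E 1 + E 2)) -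
        ((E 1 + E 2) * adj Y' * E 3 - E 0 * adj (adj Y') * (E 1 + E 2)) *
          ((E 1 + E 2) * Y * E 0 - E 3 * adj Y * (E 1 + E 2)) =
        (E 0 * (Y' * (E 1 + E 2) * Y) * E 0 -
          E 3 * (adj Y * ((E 1 + E 2) * adj Y')) * E 3) -
        ((E 1 + E 2) * (Y * E 0 * Y') * (E 1 + E 2) -
          adj ((E 1 + E 2) * (Y * E 0 * Y') * (E 1 + E 2))) := by
      simp only [h.adj_mul, h.adj_adj, P.adj0, adjh]
      have k1 : (E 1 + E 2) * (E 1 + E 2) = E 1 + E 2 := by
        simp [mul_add, add_mul, P.mul]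
      have k2 : (E 1 + E 2) * E 0 = 0 := by simp [add_mul, P.mul]
      have k3 : (E 1 + E 2) * E 3 = 0 := by simp [add_mul, P.mul]
      have k4 : E 0 * (E 1 + E 2) = 0 := by simp [mul_add, P.mul]
      have k5 : E 3 * (E 1 + E 2) = 0 := by simp [mul_add, P.mul]
      have k1' : ∀ Z, (E 1 + E 2) * ((E 1 + E 2) * Z) = (E 1 + E 2) * Z := by
        intro Z; rw [← mul_assoc, k1]
      have k2' : ∀ Z, (E 1 + E 2) * (E 0 * Z) = 0 := by
        intro Z; rw [← mul_assoc, k2, zero_mul]
      have k3' : ∀ Z, (E 1 + E 2) * (E 3 * Z) = 0 := by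
        intro Z; rw [← mul_assoc, k3, zero_mul]
      have k4' : ∀ Z, E 0 * ((E 1 + E 2) * Z) = 0 := by
        intro Z; rw [← mul_assoc, k4, zero_mul]
      have k5' : ∀ Z, E 3 * ((E 1 + E 2) * Z) = 0 := by
        intro Z; rw [← mul_assoc, k5, zero_mul]
      generalize E 1 + E 2 = H at *
      simp [mul_sub, sub_mul, mul_assoc, k1', k2', k3', k4', k5', P.mul']
      abel
    rw [e2] at h1
    have e3 : E 3 * (adj Y * ((E 1 + E 2) * adj Y')) * E 3 = c • E 3 := by
      rw [← e1]; noncomm_ring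
    rw [hc, e3, ← smul_sub] at h1
    have h2 := g.sub_mem (g.smul_mem c hH) h1
    rwa [sub_sub_cancel] at h2
  have hmid' : ∀ Y : Module.End K V, (E 1 + E 2) * Y * (E 1 + E 2) -
      adj ((E 1 + E 2) * Y * (E 1 + E 2)) ∈ g := by
    obtain ⟨f, hf0, -⟩ := Submodule.exists_le_ker_of_notMem (p := (⊥ : Submodule K V))
      (v := u) (by rw [Submodule.mem_bot]; exact hu0)
    intro Y
    let b := Module.finBasis K V
    have hY : Y = ∑ i, ((f.smulRight ((f u)⁻¹ • Y (b i)) : Module.End K V) * E 0 *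
        ((b.coord i).smulRight u : Module.End K V)) := by
      ext v
      rw [LinearMap.sum_apply]
      have hv : v = ∑ i, b.coord i v • b i := (b.sum_repr v).symm
      nth_rw 1 [hv]
      rw [map_sum]
      apply Finset.sum_congr rfl
      intro i _
      simp only [Module.End.mul_apply, LinearMap.smulRight_apply, map_smul, hu]
      rw [smul_smul (f u), mul_inv_cancel₀ hf0, one_smul]
    rw [hY, Finset.mul_sum, Finset.sum_mul, map_sum, ← Finset.sum_sub_distrib]
    exact g.sum_mem fun i _ => hmid _ _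
  have p6 : (E 1 + E 2) * X * (E 1 + E 2) ∈ g := by
    have h1 := hmid' X
    rw [h.adj_mul, h.adj_mul, adjh, hX] at h1
    have h2 := g.smul_mem (2 : K)⁻¹ h1
    have : (2 : K)⁻¹ • ((E 1 + E 2) * X * (E 1 + E 2) - (E 1 + E 2) * (-X * (E 1 + E 2))) =
        (E 1 + E 2) * X * (E 1 + E 2) := by
      have e : (E 1 + E 2) * X * (E 1 + E 2) - (E 1 + E 2) * (-X * (E 1 + E 2)) =
          (2 : K) • ((E 1 + E 2) * X * (E 1 + E 2)) := by
        rw [two_smul]; noncomm_ring
      rw [e, smul_smul, inv_mul_cancel₀ (by norm_num), one_smul]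
    rwa [this] at h2
  have hall := g.add_mem (g.add_mem (g.add_mem (g.add_mem (g.add_mem p1 p2) p3) p4) p5) p6
  have e : X = (E 0 + E 1 + E 2 + E 3) * X * (E 0 + E 1 + E 2 + E 3) := by
    rw [P.sum, one_mul, mul_one]
  rw [e]
  convert hall using 1
  noncomm_ring

omit P in
/-- **Main theorem on Lie algebras.** An irreducible Lie algebra of skew operators which is
spanned by involutions and contains a square zero element of odd rank consists of all skew
operators. -/
theorem Setup.full {N : Module.End K V} (hN : N ∈ g) (hN2 : N * N = 0)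
    (hodd : Odd (finrank K (LinearMap.range N))) {X : Module.End K V} (hX : adj X = -X) :
    X ∈ g := by
  obtain ⟨E, N, M, P⟩ := exists_peirce h hN hN2 hodd
  obtain ⟨u, hu0, hu, hline⟩ := P.line h
  exact P.skew_mem h hu0 hu hline hX

end Pool.Agent.H53Toric
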