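import Mathlib

/-!
# Definitions: Zariski closure of a group of matrices, weak Hodge cocharacters
-/

set_option autoImplicit false

namespace Pool.Agent.H53Toric

open MvPolynomial Matrix

variable {ι : Type*} [Fintype ι] [DecidableEq ι] {K : Type*} [Field K]

/-- The value at the matrix `x` of a polynomial in the matrix entries. -/
noncomputable def ev (x : Matrix ι ι K) : MvPolynomial (ι × ι) K →ₐ[K] K :=
  aeval (fun p => x p.1 p.2)

/-- The Zariski closure of a set `S` of matrices: all matrices at which every polynomial in the
entries that vanishes on `S` vanishes. -/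
def zar (S : Set (Matrix ι ι K)) : Set (Matrix ι ι K) :=
  {x | ∀ f : MvPolynomial (ι × ι) K, (∀ s ∈ S, ev s f = 0) → ev x f = 0}

/-- The projectors `h` such that the one parameter group `t ^ h = 1 + (t - 1) h` (weight one on
the range of `h`, weight zero on its kernel) has values in the Zariski closure of `S`. -/
def hodgeProj (S : Set (Matrix ι ι K)) : Set (Matrix ι ι K) :=
  {h | h * h = h ∧ ∀ t : K, t ≠ 0 → 1 + (t - 1) • h ∈ zar S}

/-- The submonoid (in fact a group) generated by these one parameter groups. -/
def hodgeMonoid (S : Set (Matrix ι ι K)) : Submonoid (Matrix ι ι K) :=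
  Submonoid.closure {m | ∃ h ∈ hodgeProj S, ∃ t : K, t ≠ 0 ∧ m = 1 + (t - 1) • h}

/-- The image of a subgroup `H` under a representation over the field `L`, as a set of matrices
over the extension field `K`. -/
def img {L : Type*} [Field L] (K : Type*) [Field K] [Algebra L K] {G : Type*} [Group G]
    (ρ : G →* Matrix.GeneralLinearGroup ι L) (H : Subgroup G) : Set (Matrix ι ι K) :=
  {m | ∃ σ ∈ H, m = (ρ σ).1.map (algebraMap L K)}

/-- The `K`-points of the algebraic monodromy group of the restriction of `ρ` to `H`: the
Zariski closure of `ρ(H)` in the general linear group. -/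
def monodromy {L : Type*} [Field L] (K : Type*) [Field K] [Algebra L K] {G : Type*} [Group G]
    (ρ : G →* Matrix.GeneralLinearGroup ι L) (H : Subgroup G) : Set (Matrix ι ι K) :=
  {x | x.det ≠ 0 ∧ x ∈ zar (img K ρ H)}

/-- The `K`-points of the group of symplectic similitudes of the alternating form with Gram
matrix `ψ`. -/
def simil (K : Type*) [Field K] [Algebra ℚ K] (ψ : Matrix ι ι ℚ) : Set (Matrix ι ι K) :=
  {x | x.det ≠ 0 ∧ ∃ c : K, xᵀ * ψ.map (algebraMap ℚ K) * x = c • ψ.map (algebraMap ℚ K)}

end Pool.Agent.H53Toric
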