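import Pool.Agent.Lib.H53Toric.Monodromy

/-!
# The monodromy group for one representation
-/

set_option autoImplicit false
namespace Pool.Agent.H53Toric
open Module Matrix

theorem monodromy_eq {ι : Type*} [Fintype ι] [DecidableEq ι] {ψ : Matrix ι ι ℚ}
    (hψ : ψᵀ = -ψ) (hψ0 : ψ.det ≠ 0) {L : Type*} [Field L] [CharZero L] {K : Type*} [Field K]
    [Algebra L K] [IsAlgClosed K] [CharZero K] {G : Type*} [Group G]
    (ρ : G →* Matrix.GeneralLinearGroup ι L)
    (sim : ∀ σ : G, ∃ c : L, (ρ σ).1ᵀ * ψ.map (algebraMap ℚ L) * (ρ σ).1 =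
      c • ψ.map (algebraMap ℚ L))
    (hodge : ∃ H₀ : Subgroup G,
      (∀ W : Submodule K (ι → K), (∀ s ∈ img K ρ H₀, ∀ w ∈ W, s *ᵥ w ∈ W) → W = ⊥ ∨ W = ⊤) ∧
      img K ρ H₀ ⊆ zar (hodgeMonoid (img K ρ ⊤) : Set (Matrix ι ι K)))
    (toric : ∃ N : Matrix ι ι K, N * N = 0 ∧ Odd N.rank ∧ 1 + N ∈ zar (img K ρ ⊤))
    (H : Subgroup G) (hH : H.FiniteIndex) : monodromy K ρ H = simil K ψ := by
  obtain ⟨H₀, hirr, hpink⟩ := hodge
  obtain ⟨N, hN2, hodd, hN⟩ := toric
  set J : Matrix ι ι K := ψ.map (algebraMap ℚ K) with hJdef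
  have hJ : Jᵀ = -J := by
    rw [hJdef, ← Matrix.transpose_map, hψ]
    ext i j
    simp
  have hdet : IsUnit J.det := by
    have h1 : J.det = algebraMap ℚ K ψ.det := by
      rw [hJdef]
      exact (RingHom.map_det (algebraMap ℚ K) ψ).symm
    rw [h1, isUnit_iff_ne_zero]
    exact (map_ne_zero _).2 hψ0
  have hι : Nonempty ι := by
    by_contra hemp
    rw [not_nonempty_iff] at hemp
    have : N = 0 := by
      ext i
      exact (hemp.false i).elim
    rw [this, Matrix.rank_zero] at hodd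
    exact absurd hodd (by decide)
  obtain ⟨k, l, hkl⟩ : ∃ k l, J k l ≠ 0 := by
    by_contra hcon
    push Not at hcon
    have : J = 0 := by
      ext i j
      exact hcon i j
    rw [this, Matrix.det_zero] at hdet
    exact not_isUnit_zero hdet
  have hsim : ∀ (H : Subgroup G), ∀ s ∈ img K ρ H, ∃ c : K, sᵀ * J * s = c • J := by
    rintro H _ ⟨σ, -, rfl⟩
    obtain ⟨c, hc⟩ := sim σ
    refine ⟨algebraMap L K c, ?_⟩
    have h1 := congrArg (fun m : Matrix ι ι L => m.map (algebraMap L K)) hc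
    have h2 : (ψ.map (algebraMap ℚ L)).map (algebraMap L K) = J := by
      rw [hJdef]
      ext i j
      simp
    have h3 : (c • ψ.map (algebraMap ℚ L)).map (algebraMap L K) = algebraMap L K c • J := by
      rw [← h2]
      ext i j
      simp
    simp only [Matrix.map_mul, Matrix.transpose_map] at h1
    rw [h3, h2] at h1
    exact h1
  have hodgeG := hodge_of_pink hpink hirr
  have hodgeH : ∀ W : Submodule K (ι → K), (∀ h ∈ hodgeProj (img K ρ H), ∀ w ∈ W,
      h *ᵥ w ∈ W) → W = ⊥ ∨ W = ⊤ := fun W hW =>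
    hodgeG W fun h hh => hW h (hodgeProj_finite ρ H hh)
  have hline : ∀ t : K, 1 + t • N ∈ zar (img K ρ H) := by
    refine line_finite ρ H (T := Set.range (Nat.cast : ℕ → K))
      (Set.infinite_range_of_injective Nat.cast_injective) ?_
    rintro _ ⟨n, rfl⟩
    exact pow_line (img_one ρ ⊤) (img_mul ρ ⊤) hN2 hN n
  ext x
  constructor
  · rintro ⟨hx, hxz⟩
    exact ⟨hx, zar_sim hkl (hsim H) hxz⟩
  · rintro ⟨hx, c, hc⟩
    refine ⟨hx, ?_⟩
    exact gsp_mem hJ hdet hkl (img_one ρ H) (img_mul ρ H) (hsim H) hodgeH hN2 hline hodd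
      (isUnit_iff_ne_zero.2 hx) hc

end Pool.Agent.H53Toric
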