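import Pool.Agent.Lib.H53Toric.Assemble2

/-!
# Density from an independent eigenvalue: the main theorem for one group
-/

set_option autoImplicit false
set_option linter.unusedSectionVars false
namespace Pool.Agent.H53Toric
open Module Matrix

variable {ι : Type*} [Fintype ι] [DecidableEq ι] {K : Type*} [Field K]

/-- The elementary projector in the basis given by `P`. -/
noncomputable def prj (P Q : Matrix ι ι K) (i : ι) : Matrix ι ι K :=
  P * Matrix.single i i (1 : K) * Q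

theorem prj_mulVec (P Q : Matrix ι ι K) (i : ι) (v : ι → K) :
    prj P Q i *ᵥ v = (Q *ᵥ v) i • (P *ᵥ Pi.single i 1) := by
  rw [prj, ← Matrix.mulVec_mulVec, ← Matrix.mulVec_mulVec, ← Matrix.mulVec_smul]
  congr 1
  ext j
  rw [Matrix.single_mulVec]
  simp [Pi.single_apply, Function.update_apply]

theorem prj_mul {P Q : Matrix ι ι K} (hQP : Q * P = 1) (i j : ι) :
    prj P Q i * prj P Q j = if i = j then prj P Q i else 0 := by
  have : prj P Q i * prj P Q j = P * (Matrix.single i i (1 : K) * Matrix.single j j 1) * Q := by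
    calc prj P Q i * prj P Q j = P * Matrix.single i i (1 : K) * (Q * P) *
          Matrix.single j j 1 * Q := by rw [prj, prj]; noncomm_ring
      _ = _ := by rw [hQP]; noncomm_ring
  rw [this]
  split_ifs with h
  · rw [h, Matrix.single_mul_single_same, one_mul, prj]
  · rw [Matrix.single_mul_single_of_ne _ _ _ _ h, mul_zero, zero_mul]

section

variable {J P Q : Matrix ι ι K} {d : ι → Kˣ} {c : Kˣ} {i₁ i₂ : ι} {B : Subgroup Kˣ}
  (hJ : Jᵀ = -J) (hQP : Q * P = 1) (hPQ : P * Q = 1)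
  (hsim : (P * Matrix.diagonal (fun k => (d k : K)) * Q)ᵀ * J *
    (P * Matrix.diagonal (fun k => (d k : K)) * Q) = (c : K) • J)
  (h12 : d i₁ * d i₂ = c) (hne : i₁ ≠ i₂) (hc : c ∈ B) (hd : ∀ k, k ≠ i₁ → k ≠ i₂ → d k ∈ B)
  (ha : ∀ n : ℤ, n ≠ 0 → d i₁ ^ n ∉ B)

include hsim hPQ hQP in
theorem gram_entry (i j : ι) (h : (Pᵀ * J * P) i j ≠ 0) : d i * d j = c := by
  have h1 : Matrix.diagonal (fun k => (d k : K)) * (Pᵀ * J * P) *
      Matrix.diagonal (fun k => (d k : K)) = (c : K) • (Pᵀ * J * P) := by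
    have h2 : Pᵀ * Qᵀ = 1 := by rw [← Matrix.transpose_mul, hQP, Matrix.transpose_one]
    have h3 : (P * Matrix.diagonal (fun k => (d k : K)) * Q)ᵀ =
        Qᵀ * Matrix.diagonal (fun k => (d k : K)) * Pᵀ := by
      rw [Matrix.transpose_mul, Matrix.transpose_mul, Matrix.diagonal_transpose, mul_assoc]
    rw [h3] at hsim
    calc Matrix.diagonal (fun k => (d k : K)) * (Pᵀ * J * P) *
          Matrix.diagonal (fun k => (d k : K)) =
        (Pᵀ * Qᵀ) * (Matrix.diagonal (fun k => (d k : K)) * Pᵀ * J * P *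
          Matrix.diagonal (fun k => (d k : K))) * (Q * P) := by
          rw [h2, hQP, one_mul, mul_one]; noncomm_ring
      _ = Pᵀ * (Qᵀ * Matrix.diagonal (fun k => (d k : K)) * Pᵀ * J *
          (P * Matrix.diagonal (fun k => (d k : K)) * Q)) * P := by noncomm_ring
      _ = _ := by rw [hsim, mul_smul_comm, smul_mul_assoc]
  have h2 := congrArg (fun m => m i j) h1
  simp only [Matrix.mul_diagonal, Matrix.diagonal_mul, Matrix.smul_apply, smul_eq_mul] at h2
  apply Units.ext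
  have h3 : ((d i : K) * d j - c) * (Pᵀ * J * P) i j = 0 := by linear_combination h2
  rw [Units.val_mul]
  exact sub_eq_zero.1 ((mul_eq_zero.1 h3).resolve_right h)

include hsim hPQ hQP h12 hc hd ha in
theorem gram_row (j : ι) (hj : j ≠ i₂) : (Pᵀ * J * P) i₁ j = 0 := by
  by_contra h
  have h1 := gram_entry hQP hPQ hsim i₁ j h
  by_cases hj1 : j = i₁
  · subst hj1
    apply ha 2 (by norm_num)
    rw [zpow_two, h1]; exact hc
  · apply ha 1 (by norm_num)
    rw [zpow_one, show d i₁ = c * (d j)⁻¹ by rw [← h1]; simp]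
    exact B.mul_mem hc (B.inv_mem (hd j hj1 hj))

include hsim hPQ hQP h12 hc hd ha in
theorem gram_col (i : ι) (hi : i ≠ i₁) : (Pᵀ * J * P) i i₂ = 0 := by
  by_contra h
  have h1 := gram_entry hQP hPQ hsim i i₂ h
  by_cases hi1 : i = i₂
  · subst hi1
    apply ha 2 (by norm_num)
    have h2 : d i₁ = d i := mul_right_cancel (h12.trans h1.symm)
    rw [zpow_two]
    nth_rw 2 [h2]
    rw [h12]; exact hc
  · apply ha 1 (by norm_num)
    have h2 : d i₁ = d i := mul_right_cancel (h12.trans h1.symm)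
    rw [zpow_one, h2]
    exact hd i hi hi1

include hsim hPQ hQP h12 hc hd ha in
theorem prj_adj : (prj P Q i₁)ᵀ * J = J * prj P Q i₂ := by
  have hM : Matrix.single i₁ i₁ (1 : K) * (Pᵀ * J * P) =
      (Pᵀ * J * P) * Matrix.single i₂ i₂ (1 : K) := by
    ext i j
    by_cases hi : i = i₁
    · subst hi
      rw [Matrix.single_mul_apply_same, one_mul]
      by_cases hj : j = i₂
      · subst hj
        rw [Matrix.mul_single_apply_same, mul_one]
      · rw [gram_row hQP hPQ hsim h12 hc hd ha j hj, Matrix.mul_single_apply_of_ne _ _ _ _ _ hj]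
    · rw [Matrix.single_mul_apply_of_ne _ _ _ _ _ hi]
      by_cases hj : j = i₂
      · subst hj
        rw [Matrix.mul_single_apply_same, gram_col hQP hPQ hsim h12 hc hd ha i hi, zero_mul]
      · rw [Matrix.mul_single_apply_of_ne _ _ _ _ _ hj]
  have h2 : Qᵀ * Pᵀ = 1 := by rw [← Matrix.transpose_mul, hPQ, Matrix.transpose_one]
  have h3 : (prj P Q i₁)ᵀ = Qᵀ * Matrix.single i₁ i₁ (1 : K) * Pᵀ := by
    rw [prj, Matrix.transpose_mul, Matrix.transpose_mul, Matrix.transpose_single, mul_assoc]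
  rw [h3]
  calc Qᵀ * Matrix.single i₁ i₁ (1 : K) * Pᵀ * J =
      Qᵀ * (Matrix.single i₁ i₁ (1 : K) * (Pᵀ * J * P)) * Q := by
        have : Qᵀ * Matrix.single i₁ i₁ (1 : K) * Pᵀ * J =
            Qᵀ * Matrix.single i₁ i₁ (1 : K) * Pᵀ * J * (P * Q) := by rw [hPQ, mul_one]
        rw [this]; noncomm_ring
    _ = (Qᵀ * Pᵀ) * J * (P * Matrix.single i₂ i₂ (1 : K) * Q) := by
        rw [hM]; noncomm_ring
    _ = _ := by rw [h2, one_mul, prj]

end

/-- An alternating operator concentrated in a corner of rank one vanishes. -/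
theorem corner_alt [CharZero K] {J P Q : Matrix ι ι K} (hJ : Jᵀ = -J) (hdet : IsUnit J.det)
    {i₁ i₂ : ι} (hadj : (prj P Q i₁)ᵀ * J = J * prj P Q i₂)
    {Z : Matrix ι ι K} (h1 : prj P Q i₂ * Z * prj P Q i₁ = Z) (h2 : Zᵀ * J = J * Z) : Z = 0 := by
  set A := J * Z with hA
  have hAt : Aᵀ = -A := by
    rw [hA, Matrix.transpose_mul, hJ, mul_neg, h2]
  have hA1 : (prj P Q i₁)ᵀ * A * prj P Q i₁ = A := by
    calc (prj P Q i₁)ᵀ * A * prj P Q i₁ = ((prj P Q i₁)ᵀ * J) * Z * prj P Q i₁ := by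
          rw [hA]; noncomm_ring
      _ = J * (prj P Q i₂ * Z * prj P Q i₁) := by rw [hadj]; noncomm_ring
      _ = A := by rw [h1]
  have h3 : (prj P Q i₁)ᵀ = Qᵀ * Matrix.single i₁ i₁ (1 : K) * Pᵀ := by
    rw [prj, Matrix.transpose_mul, Matrix.transpose_mul, Matrix.transpose_single, mul_assoc]
  set D := Pᵀ * A * P with hD
  have hDt : Dᵀ = -D := by
    rw [hD, Matrix.transpose_mul, Matrix.transpose_mul, hAt, Matrix.transpose_transpose]
    noncomm_ring
  have hD0 : D i₁ i₁ = 0 := by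
    have := congrArg (fun m => m i₁ i₁) hDt
    simp only [Matrix.transpose_apply, Matrix.neg_apply] at this
    have h5 : (2 : K) * D i₁ i₁ = 0 := by linear_combination this
    exact (mul_eq_zero.1 h5).resolve_left (by norm_num)
  have h4 : Matrix.single i₁ i₁ (1 : K) * D * Matrix.single i₁ i₁ (1 : K) = 0 := by
    ext i j
    by_cases hj : j = i₁
    · subst hj
      rw [Matrix.mul_single_apply_same, mul_one]
      by_cases hi : i = j
      · subst hi
        rw [Matrix.single_mul_apply_same, one_mul, hD0]; rfl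
      · rw [Matrix.single_mul_apply_of_ne _ _ _ _ _ hi]; rfl
    · rw [Matrix.mul_single_apply_of_ne _ _ _ _ _ hj]; rfl
  have hA0 : A = 0 := by
    rw [← hA1, h3, prj]
    calc Qᵀ * Matrix.single i₁ i₁ (1 : K) * Pᵀ * A * (P * Matrix.single i₁ i₁ (1 : K) * Q) =
        Qᵀ * (Matrix.single i₁ i₁ (1 : K) * D * Matrix.single i₁ i₁ (1 : K)) * Q := by
          rw [hD]; noncomm_ring
      _ = 0 := by rw [h4]; simp
  calc Z = J⁻¹ * A := by
        rw [hA, ← mul_assoc, Matrix.nonsing_inv_mul _ hdet, one_mul]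
    _ = 0 := by rw [hA0, mul_zero]

theorem comm_of_comm [CharZero K] {A : Type*} [Ring A] [Algebra K A] {e e' T : A}
    (hee : e * e = e) (hee' : e * e' = 0) (he'e : e' * e = 0) (he'e' : e' * e' = e')
    (h1 : (e - e') * T = T * (e - e')) : T * e = e * T := by
  have h2 : (2 : K) • e = (e - e') * (e - e') + (e - e') := by
    have : (e - e') * (e - e') = e * e - e * e' - e' * e + e' * e' := by noncomm_ring
    rw [this, hee, hee', he'e, he'e', two_smul]
    abel
  have h3 : ((2 : K) • e) * T = T * ((2 : K) • e) := by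
    rw [h2, add_mul, mul_add, h1]
    congr 1
    rw [mul_assoc, h1, ← mul_assoc, h1, mul_assoc]
  rw [smul_mul_assoc, mul_smul_comm] at h3
  have h4 := congrArg (fun z => (2 : K)⁻¹ • z) h3
  simp only [smul_smul] at h4
  rw [inv_mul_cancel₀ (by norm_num), one_smul, one_smul] at h4
  exact h4.symm

theorem phi_comm {X Y : Matrix ι ι K} : phi X * phi Y = phi (X * Y) :=
  (map_mul (phi (ι := ι) (K := K)) X Y).symm

/-- **Main theorem for one group.** -/
theorem gsp_indep [IsAlgClosed K] [CharZero K] [Nonempty ι] {J : Matrix ι ι K} (hJ : Jᵀ = -J)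
    (hdet : IsUnit J.det) {Γ : Type*} [Group Γ] (r : Γ →* Matrix ι ι K)
    (hsimr : ∀ x : Γ, ∃ c : K, (r x)ᵀ * J * r x = c • J)
    (hirr : ∀ H : Subgroup Γ, H.FiniteIndex → ∀ W : Submodule K (ι → K),
      (∀ h ∈ H, ∀ w ∈ W, r h *ᵥ w ∈ W) → W = ⊥ ∨ W = ⊤)
    {x₀ : Γ} {P Q : Matrix ι ι K} {d : ι → Kˣ} {c : Kˣ} {i₁ i₂ : ι} {B : Subgroup Kˣ}
    (hQP : Q * P = 1) (hPQ : P * Q = 1)
    (hx₀ : r x₀ = P * Matrix.diagonal (fun k => (d k : K)) * Q)
    (hsim : (r x₀)ᵀ * J * r x₀ = (c : K) • J) (hroot : ∀ n : ℕ, n ≠ 0 → c ^ n ≠ 1)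
    (h12 : d i₁ * d i₂ = c) (hne : i₁ ≠ i₂) (hc : c ∈ B) (hd : ∀ k, k ≠ i₁ → k ≠ i₂ → d k ∈ B)
    (ha : ∀ n : ℤ, n ≠ 0 → d i₁ ^ n ∉ B)
    {x : Matrix ι ι K} (hx : IsUnit x.det) {c' : K} (hc' : xᵀ * J * x = c' • J) :
    x ∈ zar (Set.range r) := by
  set S : Set (Matrix ι ι K) := Set.range r with hSdef
  have hS1 : (1 : Matrix ι ι K) ∈ S := ⟨1, map_one r⟩
  have hS : ∀ a ∈ S, ∀ b ∈ S, a * b ∈ S := by
    rintro _ ⟨a, rfl⟩ _ ⟨b, rfl⟩
    exact ⟨a * b, map_mul r a b⟩
  have hadj := prj_adj hQP hPQ (hx₀ ▸ hsim) h12 hc hd ha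
  -- the element of rank two
  set ε : ι → ℤ := fun k => if k = i₁ then 1 else if k = i₂ then -1 else 0 with hε
  have hD0 : P * Matrix.diagonal (fun k => (ε k : K)) * Q ∈ zlie S := by
    refine torus_zlie hQP hPQ (d := d) hS ?_ ha ?_
    · intro n
      rw [← hx₀, ← map_pow]
      exact ⟨x₀ ^ n, rfl⟩
    · intro k
      by_cases h1 : k = i₁
      · subst h1
        rw [hε]
        simp only [if_true, zpow_one, mul_inv_cancel]
        exact B.one_mem
      by_cases h2 : k = i₂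
      · subst h2
        rw [hε]
        simp only [if_neg h1, if_true, _root_.zpow_neg, zpow_one, inv_inv]
        rw [mul_comm, h12]; exact hc
      · rw [hε]
        simp only [if_neg h1, if_neg h2, zpow_zero, inv_one, mul_one]
        exact hd k h1 h2
  have hDe : P * Matrix.diagonal (fun k => (ε k : K)) * Q = prj P Q i₁ - prj P Q i₂ := by
    have : Matrix.diagonal (fun k => (ε k : K)) =
        Matrix.single i₁ i₁ (1 : K) - Matrix.single i₂ i₂ (1 : K) := by
      ext i j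
      rw [Matrix.sub_apply, Matrix.single_apply, Matrix.single_apply, Matrix.diagonal_apply]
      by_cases hij : i = j
      · subst hij
        by_cases h1 : i = i₁
        · subst h1
          simp [hε, hne.symm]
        · by_cases h2 : i = i₂
          · subst h2
            simp [hε, h1, Ne.symm h1]
          · simp [hε, h1, h2, Ne.symm h1, Ne.symm h2]
      · have h3 : ¬ (i₁ = i ∧ i₁ = j) := fun h => hij (h.1.symm.trans h.2)
        have h4 : ¬ (i₂ = i ∧ i₂ = j) := fun h => hij (h.1.symm.trans h.2)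
        rw [if_neg hij, if_neg h3, if_neg h4, sub_zero]
    rw [this, prj, prj]
    noncomm_ring
  rw [hDe] at hD0
  have hadjE : adjE J (phi (prj P Q i₁)) = phi (prj P Q i₂) := by
    rw [adjE_phi, mul_assoc, hadj, ← mul_assoc, Matrix.nonsing_inv_mul _ hdet, one_mul]
  have hadjE' : adjE J (phi (prj P Q i₂)) = phi (prj P Q i₁) := by
    rw [← hadjE, adjE_adjE hJ hdet]
  have hDg : phi (prj P Q i₁) - phi (prj P Q i₂) ∈ lieE J S := by
    rw [← map_sub, mem_lieE]
    refine ⟨hD0, ?_⟩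
    rw [map_sub, map_sub, hadjE, hadjE', neg_sub]
  -- conjugation
  set rE : Γ →* Module.End K (ι → K) :=
    ((phi (ι := ι) (K := K)) : Matrix ι ι K →* Module.End K (ι → K)).comp r with hrE
  have hrEa : ∀ y : Γ, rE y = phi (r y) := fun y => rfl
  have hconj : ∀ y : Γ, ∀ X ∈ lieE J S, rE y * X * rE y⁻¹ ∈ lieE J S := by
    intro y X hX
    obtain ⟨a, ha'⟩ := hsimr y
    exact lieE_conj hdet hS ⟨y, rfl⟩ ⟨y⁻¹, rfl⟩ (by rw [← map_mul, mul_inv_cancel, map_one])
      ha' hX
  have hirrE : ∀ H : Subgroup Γ, H.FiniteIndex → ∀ W : Submodule K (ι → K),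
      (∀ h ∈ H, ∀ w ∈ W, rE h w ∈ W) → W = ⊥ ∨ W = ⊤ := by
    intro H hH W hW
    refine hirr H hH W fun h hh w hw => ?_
    have := hW h hh w hw
    rwa [hrEa, phi_apply] at this
  set u : ι → K := P *ᵥ Pi.single i₁ 1 with hu
  have hu0 : u ≠ 0 := by
    intro h0
    have h1 : Q *ᵥ u = Pi.single i₁ 1 := by
      rw [hu, Matrix.mulVec_mulVec, hQP, Matrix.one_mulVec]
    rw [h0, Matrix.mulVec_zero] at h1
    have h2 := congrFun h1 i₁
    rw [Pi.single_eq_same] at h2
    exact zero_ne_one h2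
  have hline : ∀ v : ι → K, phi (prj P Q i₁) v = (Q *ᵥ v) i₁ • u := by
    intro v
    rw [phi_apply, prj_mulVec]
  have hfix : phi (prj P Q i₁) u = u := by
    rw [hline, hu, Matrix.mulVec_mulVec, hQP, Matrix.one_mulVec, Pi.single_eq_same, one_smul]
  have hee : phi (prj P Q i₁) * phi (prj P Q i₁) = phi (prj P Q i₁) := by
    rw [phi_comm, prj_mul hQP, if_pos rfl]
  have hee' : phi (prj P Q i₁) * phi (prj P Q i₂) = 0 := by
    rw [phi_comm, prj_mul hQP, if_neg hne, map_zero]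
  have he'e : phi (prj P Q i₂) * phi (prj P Q i₁) = 0 := by
    rw [phi_comm, prj_mul hQP, if_neg hne.symm, map_zero]
  have he'e' : phi (prj P Q i₂) * phi (prj P Q i₂) = phi (prj P Q i₂) := by
    rw [phi_comm, prj_mul hQP, if_pos rfl]
  have hcomm : ∀ T ∈ comt (lieE J S), T * phi (prj P Q i₁) = phi (prj P Q i₁) * T := by
    intro T hT
    rw [mem_comt] at hT
    exact comm_of_comm (K := K) hee hee' he'e he'e' (hT _ hDg)
  have hbase : Base (lieE J S) (adjE J) :=
    { lie := lieE_lie hdet S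
      irr := irr_of_line hconj hirrE hu0 hfix (fun v => ⟨_, hline v⟩) hcomm
      adj_mul := adjE_mul hdet
      adj_adj := adjE_adjE hJ hdet
      adj_tr := adjE_tr hdet
      skew := fun X hX => mem_skewE.1 hX.2 }
  have hlie : ∀ X : Matrix ι ι K, Xᵀ * J + J * X = 0 → X ∈ zlie S := by
    intro X hX
    refine (mem_lieE.1 (rank_two hbase hee hee' he'e hadjE hDg hu0 hfix
      (fun v => ⟨_, hline v⟩) ?_ ((skew_iff hdet X).2 hX))).1
    intro Z hZ1 hZ2
    obtain ⟨z, rfl⟩ := (phi (ι := ι) (K := K)).surjective Z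
    rw [phi_comm, phi_comm] at hZ1
    have hz1 := (phi (ι := ι) (K := K)).injective hZ1
    rw [adjE_phi] at hZ2
    have hz2 := (phi (ι := ι) (K := K)).injective hZ2
    have hz3 : zᵀ * J = J * z := by
      nth_rw 2 [← hz2]
      rw [← mul_assoc, ← mul_assoc, Matrix.mul_nonsing_inv _ hdet, one_mul]
    rw [corner_alt hJ hdet hadj hz1 hz3, map_zero]
  exact gsp_of_lie hJ hdet hS1 hS hlie ⟨x₀, rfl⟩ ⟨x₀⁻¹, rfl⟩
    (by rw [← map_mul, mul_inv_cancel, map_one]) hsim
    (fun n hn h => hroot n hn (Units.ext (by rw [Units.val_pow_eq_pow_val, h, Units.val_one])))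
    hx hc'

end Pool.Agent.H53Toric
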