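import Pool.Agent.Lib.H53Toric.Three3

/-!
# Irreducibility of a Lie algebra normalised by a group with irreducible finite index subgroups
-/

set_option autoImplicit false
set_option linter.unusedSectionVars false
namespace Pool.Agent.H53Toric
open Module
variable {K : Type*} [Field K] {V : Type*} [AddCommGroup V] [Module K V]
variable [FiniteDimensional K V]
variable {Γ : Type*} [Group Γ] {r : Γ →* Module.End K V} {g : Submodule K (Module.End K V)}

/-- The commutant. -/
def comt (g : Submodule K (Module.End K V)) : Subalgebra K (Module.End K V) :=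
  Subalgebra.centralizer K (g : Set (Module.End K V))

theorem mem_comt {T : Module.End K V} : T ∈ comt g ↔ ∀ X ∈ g, X * T = T * X :=
  Subalgebra.mem_centralizer_iff K

theorem rinv (r : Γ →* Module.End K V) (x : Γ) : r x * r x⁻¹ = 1 := by
  rw [← map_mul, mul_inv_cancel, map_one]

theorem rinv' (r : Γ →* Module.End K V) (x : Γ) : r x⁻¹ * r x = 1 := by
  rw [← map_mul, inv_mul_cancel, map_one]

section

variable (hconj : ∀ x, ∀ X ∈ g, r x * X * r x⁻¹ ∈ g)

include hconj

theorem comt_conj {T : Module.End K V} (hT : T ∈ comt g) (x : Γ) :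
    r x⁻¹ * T * r x ∈ comt g := by
  rw [mem_comt] at hT ⊢
  intro X hX
  have h1 := hT _ (hconj x X hX)
  calc X * (r x⁻¹ * T * r x) = (r x⁻¹ * r x) * X * r x⁻¹ * T * r x := by
        rw [rinv']; noncomm_ring
    _ = r x⁻¹ * ((r x * X * r x⁻¹) * T) * r x := by noncomm_ring
    _ = r x⁻¹ * (T * (r x * X * r x⁻¹)) * r x := by rw [h1]
    _ = r x⁻¹ * T * r x * X * (r x⁻¹ * r x) := by noncomm_ring
    _ = r x⁻¹ * T * r x * X := by rw [rinv', mul_one]

theorem comt_conj' {T : Module.End K V} (hT : T ∈ comt g) (x : Γ) :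
    r x * T * r x⁻¹ ∈ comt g := by
  have := comt_conj hconj hT x⁻¹
  rwa [inv_inv] at this

variable (hirr : ∀ H : Subgroup Γ, H.FiniteIndex → ∀ W : Submodule K V,
    (∀ h ∈ H, ∀ w ∈ W, r h w ∈ W) → W = ⊥ ∨ W = ⊤)
  {e : Module.End K V} {u : V} (hu0 : u ≠ 0) (hu : e u = u)
  (hline : ∀ v, ∃ c : K, e v = c • u) (hcomm : ∀ T ∈ comt g, T * e = e * T)

include hirr hu0 hu hline hcomm

theorem comt_scalar {T : Module.End K V} (hT : T ∈ comt g) : ∃ c : K, ∀ v, T v = c • v := by
  classical
  -- every element of the commutant acts on the line of `u` by a scalar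
  have hev : ∀ T ∈ comt g, ∃ c : K, T u = c • u := by
    intro T hT
    obtain ⟨c, hc⟩ := hline (T u)
    refine ⟨c, ?_⟩
    rw [← hc]
    have := LinearMap.congr_fun (hcomm T hT) u
    simp only [Module.End.mul_apply, hu] at this
    exact this
  obtain ⟨φ₀, hφ₀, -⟩ := Submodule.exists_le_ker_of_notMem (p := (⊥ : Submodule K V))
    (v := u) (by rw [Submodule.mem_bot]; exact hu0)
  set φ : V →ₗ[K] K := (φ₀ u)⁻¹ • φ₀ with hφ
  have hφu : φ u = 1 := by
    rw [hφ, LinearMap.smul_apply, smul_eq_mul, inv_mul_cancel₀ hφ₀]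
  have hevφ : ∀ T ∈ comt g, T u = φ (T u) • u := by
    intro T hT
    obtain ⟨c, hc⟩ := hev T hT
    rw [hc, map_smul, hφu, smul_eq_mul, mul_one]
  let τ : Γ → (comt g →ₐ[K] K) := fun x =>
    AlgHom.ofLinearMap
      { toFun := fun T => φ ((r x⁻¹ * T.1 * r x) u)
        map_add' := by
          intro a b
          rw [← map_add, ← LinearMap.add_apply]
          congr 2
          change r x⁻¹ * (a.1 + b.1) * r x = _
          noncomm_ring
        map_smul' := by
          intro c a
          rw [RingHom.id_apply, ← map_smul, ← LinearMap.smul_apply]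
          congr 2
          change r x⁻¹ * (c • a.1) * r x = _
          rw [mul_smul_comm, smul_mul_assoc] }
      (by
        change φ ((r x⁻¹ * 1 * r x) u) = 1
        rw [mul_one, rinv', Module.End.one_apply, hφu])
      (by
        intro a b
        change φ ((r x⁻¹ * (a.1 * b.1) * r x) u) =
          φ ((r x⁻¹ * a.1 * r x) u) * φ ((r x⁻¹ * b.1 * r x) u)
        have e1 : r x⁻¹ * (a.1 * b.1) * r x = (r x⁻¹ * a.1 * r x) * (r x⁻¹ * b.1 * r x) := by
          calc r x⁻¹ * (a.1 * b.1) * r x = r x⁻¹ * a.1 * 1 * b.1 * r x := by noncomm_ring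
            _ = r x⁻¹ * a.1 * (r x * r x⁻¹) * b.1 * r x := by rw [rinv]
            _ = _ := by noncomm_ring
        rw [e1, Module.End.mul_apply, hevφ _ (comt_conj hconj b.2 x), map_smul, map_smul,
          smul_eq_mul, mul_comm, map_smul, hφu, smul_eq_mul, mul_one])
  have hτ : ∀ x, ∀ T : comt g, (r x⁻¹ * T.1 * r x) u = τ x T • u :=
    fun x T => hevφ _ (comt_conj hconj T.2 x)
  let H : Subgroup Γ :=
    { carrier := {y | ∀ T ∈ comt g, (r y⁻¹ * T * r y) u = T u}
      mul_mem' := by
        intro y z hy hz T hT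
        have h1 := hz _ (comt_conj hconj hT y)
        rw [hy T hT] at h1
        rw [← h1]
        congr 1
        rw [mul_inv_rev, map_mul, map_mul]
        noncomm_ring
      one_mem' := by
        intro T _
        rw [inv_one, map_one, one_mul, mul_one]
      inv_mem' := by
        intro y hy T hT
        have h1 := hy _ (comt_conj' hconj hT y)
        rw [inv_inv, ← h1]
        congr 1
        calc r y⁻¹ * (r y * T * r y⁻¹) * r y = (r y⁻¹ * r y) * T * (r y⁻¹ * r y) := by
              noncomm_ring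
          _ = T := by rw [rinv', one_mul, mul_one] }
  have hfin : Finite (Γ ⧸ H) := by
    have hfinA : Finite (comt g →ₐ[K] K) := inferInstance
    apply Finite.of_injective (fun q : Γ ⧸ H => τ q.out)
    intro q q' hqq
    have hmem : q.out⁻¹ * q'.out ∈ H := by
      intro T hT
      have hT' := comt_conj' hconj hT q.out
      have h1 := hτ q.out ⟨_, hT'⟩
      have h2 := hτ q'.out ⟨_, hT'⟩
      have hqq' : τ q.out = τ q'.out := hqq
      rw [← hqq', ← h1] at h2
      have e1 : r q.out⁻¹ * (r q.out * T * r q.out⁻¹) * r q.out = T := by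
        calc r q.out⁻¹ * (r q.out * T * r q.out⁻¹) * r q.out =
            (r q.out⁻¹ * r q.out) * T * (r q.out⁻¹ * r q.out) := by noncomm_ring
          _ = T := by rw [rinv', one_mul, mul_one]
      simp only [e1] at h2
      rw [← h2]
      congr 1
      rw [mul_inv_rev, inv_inv, map_mul, map_mul]
      noncomm_ring
    rw [← QuotientGroup.out_eq' q, ← QuotientGroup.out_eq' q', QuotientGroup.eq]
    exact hmem
  have hHfin : H.FiniteIndex := Subgroup.finiteIndex_of_finite_quotient
  obtain ⟨c, hc⟩ := hev T hT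
  refine ⟨c, ?_⟩
  let W : Submodule K V := Submodule.span K {v | ∃ h ∈ H, v = r h u}
  have hW : W = ⊤ := by
    rcases hirr H hHfin W (by
      intro h hh w hw
      induction hw using Submodule.span_induction with
      | mem w hw =>
        obtain ⟨h', hh', rfl⟩ := hw
        apply Submodule.subset_span
        exact ⟨h * h', H.mul_mem hh hh', by rw [map_mul, Module.End.mul_apply]⟩
      | zero => rw [map_zero]; exact W.zero_mem
      | add a b _ _ ha hb => rw [map_add]; exact W.add_mem ha hb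
      | smul a b _ hb => rw [map_smul]; exact W.smul_mem _ hb) with h0 | h0
    · have : u ∈ W := Submodule.subset_span ⟨1, H.one_mem, by rw [map_one]; rfl⟩
      rw [h0] at this
      exact absurd ((Submodule.mem_bot K).1 this) hu0
    · exact h0
  intro v
  have hv : v ∈ W := by rw [hW]; trivial
  induction hv using Submodule.span_induction with
  | mem w hw =>
    obtain ⟨h, hh, rfl⟩ := hw
    have h1 := hh T hT
    rw [hc] at h1
    have h2 := congrArg (r h) h1
    rw [map_smul] at h2
    rw [← h2]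
    calc T (r h u) = (1 * T * r h) u := by rw [one_mul]; rfl
      _ = (r h * r h⁻¹ * T * r h) u := by rw [rinv]
      _ = _ := by
        rw [← Module.End.mul_apply]
        congr 1
  | zero => simp
  | add a b _ _ ha hb => rw [map_add, ha, hb, smul_add]
  | smul a b _ hb => rw [map_smul, hb, smul_comm]

/-- The Lie algebra acts irreducibly. -/
theorem irr_of_line [Nontrivial V] : Irr g := by
  classical
  obtain ⟨U, hUs, hU0, hUmin⟩ : ∃ U : Submodule K V, (∀ X ∈ g, ∀ w ∈ U, X w ∈ U) ∧ U ≠ ⊥ ∧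
      ∀ W : Submodule K V, (∀ X ∈ g, ∀ w ∈ W, X w ∈ W) → W ≠ ⊥ → finrank K U ≤ finrank K W := by
    have hex : ∃ n : ℕ, ∃ U : Submodule K V, (∀ X ∈ g, ∀ w ∈ U, X w ∈ U) ∧ U ≠ ⊥ ∧
        finrank K U = n := ⟨_, ⊤, fun _ _ _ _ => trivial, top_ne_bot, rfl⟩
    obtain ⟨U, h1, h2, h3⟩ := Nat.find_spec hex
    refine ⟨U, h1, h2, fun W hW hW0 => ?_⟩
    rw [h3]
    exact Nat.find_min' hex ⟨W, hW, hW0, rfl⟩
  have hst : ∀ x : Γ, ∀ X ∈ g, ∀ w ∈ U.map (r x), X w ∈ U.map (r x) := by
    rintro x X hX _ ⟨w, hw, rfl⟩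
    have h1 := hconj x⁻¹ X hX
    rw [inv_inv] at h1
    refine ⟨_, hUs _ h1 w hw, ?_⟩
    change (r x * (r x⁻¹ * X * r x)) w = (X * r x) w
    congr 1
    calc r x * (r x⁻¹ * X * r x) = (r x * r x⁻¹) * X * r x := by noncomm_ring
      _ = X * r x := by rw [rinv, one_mul]
  have hdich : ∀ (x : Γ) (W : Submodule K V), (∀ X ∈ g, ∀ w ∈ W, X w ∈ W) →
      U.map (r x) ≤ W ∨ U.map (r x) ⊓ W = ⊥ := by
    intro x W hW
    by_cases h0 : U.map (r x) ⊓ W = ⊥
    · exact Or.inr h0
    left
    have h1 := hUmin (U.map (r x) ⊓ W) (fun X hX w hw => ⟨hst x X hX w hw.1, hW X hX w hw.2⟩) h0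
    have h2 : U.map (r x) ⊓ W = U.map (r x) :=
      Submodule.eq_of_le_of_finrank_le inf_le_left ((Submodule.finrank_map_le _ _).trans h1)
    rw [← h2]; exact inf_le_right
  have hsup : (⨆ x : Γ, U.map (r x)) = ⊤ := by
    rcases hirr ⊤ inferInstance (⨆ x : Γ, U.map (r x)) (by
      intro y _ w hw
      have h1 : (⨆ x : Γ, U.map (r x)).map (r y) ≤ ⨆ x : Γ, U.map (r x) := by
        rw [Submodule.map_iSup]
        apply iSup_le
        intro x
        rw [← Submodule.map_comp]
        have : (r y).comp (r x) = r (y * x) := by rw [map_mul]; rfl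
        rw [this]
        exact le_iSup (fun x : Γ => U.map (r x)) (y * x)
      exact h1 ⟨w, hw, rfl⟩) with h0 | h0
    · exfalso
      apply hU0
      rw [eq_bot_iff, ← h0]
      have h1 : U = U.map (r 1) := by
        rw [map_one]; exact (Submodule.map_id U).symm
      nth_rw 1 [h1]
      exact le_iSup (fun x : Γ => U.map (r x)) 1
    · exact h0
  obtain ⟨W, ⟨hWs, hWU⟩, hWmax⟩ := (wellFounded_gt (α := Submodule K V)).has_min
    {W | (∀ X ∈ g, ∀ w ∈ W, X w ∈ W) ∧ U ⊓ W = ⊥}
    ⟨⊥, fun X _ w hw => by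
      rw [(Submodule.mem_bot K).1 hw, map_zero]; exact Submodule.zero_mem _, inf_bot_eq _⟩
  have hadd : ∀ W₁ W₂ : Submodule K V, (∀ X ∈ g, ∀ w ∈ W₁, X w ∈ W₁) →
      (∀ X ∈ g, ∀ w ∈ W₂, X w ∈ W₂) → (∀ X ∈ g, ∀ w ∈ W₁ ⊔ W₂, X w ∈ W₁ ⊔ W₂) := by
    intro W₁ W₂ h1 h2 X hX w hw
    obtain ⟨a, ha, b, hb, rfl⟩ := Submodule.mem_sup.1 hw
    rw [map_add]
    exact Submodule.add_mem_sup (h1 X hX a ha) (h2 X hX b hb)
  have htop : U ⊔ W = ⊤ := by
    by_contra hne
    obtain ⟨x, hx⟩ : ∃ x : Γ, ¬ U.map (r x) ≤ U ⊔ W := by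
      by_contra hcon
      push Not at hcon
      apply hne
      rw [eq_top_iff, ← hsup]
      exact iSup_le hcon
    have h1 := (hdich x _ (hadd U W hUs hWs)).resolve_left hx
    apply hWmax (W ⊔ U.map (r x)) ⟨hadd _ _ hWs (hst x), ?_⟩
    · apply lt_of_le_of_ne le_sup_left
      intro h2
      apply hx
      have h3 : U.map (r x) ≤ W := by rw [h2]; exact le_sup_right
      exact h3.trans le_sup_right
    · rw [eq_bot_iff]
      rintro v ⟨hvU, hv⟩
      obtain ⟨w, hw, z, hz, hwz⟩ := Submodule.mem_sup.1 hv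
      have hz0 : z = 0 := by
        have : z ∈ U.map (r x) ⊓ (U ⊔ W) := by
          refine ⟨hz, ?_⟩
          have : z = v - w := by rw [← hwz]; abel
          rw [this]
          exact Submodule.sub_mem _ (Submodule.mem_sup_left hvU) (Submodule.mem_sup_right hw)
        rw [h1] at this
        exact (Submodule.mem_bot K).1 this
      rw [hz0, add_zero] at hwz
      rw [← hWU]
      exact ⟨hvU, hwz ▸ hw⟩
  have hcompl : IsCompl U W := isCompl_iff.2 ⟨disjoint_iff.2 hWU, codisjoint_iff.2 htop⟩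
  -- the projection
  obtain ⟨T, hTU, hTW⟩ : ∃ T : Module.End K V, (∀ v ∈ U, T v = v) ∧ ∀ v ∈ W, T v = 0 := by
    refine ⟨U.subtype ∘ₗ U.projectionOnto W hcompl, ?_, ?_⟩
    · intro v hv
      exact congrArg Subtype.val (Submodule.projectionOnto_apply_left hcompl ⟨v, hv⟩)
    · intro v hv
      exact congrArg Subtype.val (Submodule.projectionOnto_apply_right hcompl ⟨v, hv⟩)
  have hTc : T ∈ comt g := by
    rw [mem_comt]
    intro X hX
    ext v
    have hv : v ∈ U ⊔ W := by rw [htop]; trivial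
    obtain ⟨a, ha, b, hb, rfl⟩ := Submodule.mem_sup.1 hv
    change X (T (a + b)) = T (X (a + b))
    rw [map_add X a b, map_add T a b, map_add T (X a) (X b), hTU a ha, hTW b hb,
      hTU _ (hUs X hX a ha), hTW _ (hWs X hX b hb), add_zero, add_zero]
  obtain ⟨c, hc⟩ := comt_scalar hconj hirr hu0 hu hline hcomm hTc
  have hW0 : W = ⊥ := by
    by_contra hne
    obtain ⟨w, hw, hw0⟩ := Submodule.exists_mem_ne_zero_of_ne_bot hne
    have h1 := hc w
    rw [hTW w hw] at h1
    have hc0 : c = 0 := (smul_eq_zero.1 h1.symm).resolve_right hw0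
    apply hU0
    rw [eq_bot_iff]
    intro v hv
    rw [Submodule.mem_bot, ← hTU v hv, hc v, hc0, zero_smul]
  have hUtop : U = ⊤ := by rw [← htop, hW0, sup_bot_eq]
  intro W' hW'
  by_cases h0 : W' = ⊥
  · exact Or.inl h0
  right
  apply Submodule.eq_top_of_finrank_eq
  apply le_antisymm (Submodule.finrank_le _)
  have := hUmin W' hW' h0
  rwa [hUtop, finrank_top] at this

end

end Pool.Agent.H53Toric
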