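import Pool.Agent.Lib.H53Toric.Core10

/-!
# Lie algebras containing a semisimple element of rank two
-/

set_option autoImplicit false
set_option linter.unusedSectionVars false
namespace Pool.Agent.H53Toric
open Module
variable {K : Type*} [Field K] {V : Type*} [AddCommGroup V] [Module K V]

/-- An irreducible Lie algebra of skew operators. -/
structure Base (g : Submodule K (Module.End K V))
    (adj : Module.End K V →ₗ[K] Module.End K V) : Prop where
  lie : IsLie g
  irr : Irr g
  adj_mul : ∀ X Y, adj (X * Y) = adj Y * adj X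
  adj_adj : ∀ X, adj (adj X) = X
  adj_tr : ∀ X, LinearMap.trace K V (adj X) = LinearMap.trace K V X
  skew : ∀ X ∈ g, adj X = -X

theorem Base.tr [CharZero K] {g : Submodule K (Module.End K V)}
    {adj : Module.End K V →ₗ[K] Module.End K V} (h : Base g adj) :
    ∀ X ∈ g, LinearMap.trace K V X = 0 := by
  intro X hX
  have h1 := h.adj_tr X
  rw [h.skew X hX, map_neg] at h1
  have h2 : (2 : K) * LinearMap.trace K V X = 0 := by linear_combination -h1
  exact (mul_eq_zero.1 h2).resolve_left (by norm_num)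

/-- The grading defined by `E 0 - E 2`. -/
theorem three_mem [CharZero K] {g : Submodule K (Module.End K V)} (hg : IsLie g)
    {E : Fin 3 → Module.End K V} (hsum : E 0 + E 1 + E 2 = 1)
    (hmul : ∀ i j, E i * E j = if i = j then E i else 0) (hH : E 0 - E 2 ∈ g)
    {X : Module.End K V} (hX : X ∈ g) :
    (E 0 * X * E 2 ∈ g) ∧ (E 2 * X * E 0 ∈ g) ∧
    (E 0 * X * E 1 + E 1 * X * E 2 ∈ g) ∧ (E 1 * X * E 0 + E 2 * X * E 1 ∈ g) ∧
    (E 0 * X * E 0 + E 1 * X * E 1 + E 2 * X * E 2 ∈ g) := by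
  have hmul' : ∀ i j (Z : Module.End K V), E i * (E j * Z) = if i = j then E i * Z else 0 := by
    intro i j Z
    rw [← mul_assoc, hmul]
    split_ifs <;> simp
  have a2 : (E 0 - E 2) * (E 0 * X * E 2) - (E 0 * X * E 2) * (E 0 - E 2) =
      (2 : K) • (E 0 * X * E 2) := by
    simp [mul_sub, sub_mul, mul_assoc, hmul, hmul']
    module
  have a1 : (E 0 - E 2) * (E 0 * X * E 1 + E 1 * X * E 2) -
      (E 0 * X * E 1 + E 1 * X * E 2) * (E 0 - E 2) = E 0 * X * E 1 + E 1 * X * E 2 := by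
    simp [mul_add, add_mul, mul_sub, sub_mul, mul_assoc, hmul, hmul']
  have b1 : (E 0 - E 2) * (E 1 * X * E 0 + E 2 * X * E 1) -
      (E 1 * X * E 0 + E 2 * X * E 1) * (E 0 - E 2) = -(E 1 * X * E 0 + E 2 * X * E 1) := by
    simp [mul_add, add_mul, mul_sub, sub_mul, mul_assoc, hmul, hmul']
    abel
  have b2 : (E 0 - E 2) * (E 2 * X * E 0) - (E 2 * X * E 0) * (E 0 - E 2) =
      (-2 : K) • (E 2 * X * E 0) := by
    simp [mul_sub, sub_mul, mul_assoc, hmul, hmul']
    module
  have e0 : X = E 0 * X * E 2 + (E 0 * X * E 1 + E 1 * X * E 2) +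
      (E 0 * X * E 0 + E 1 * X * E 1 + E 2 * X * E 2) +
      (E 1 * X * E 0 + E 2 * X * E 1) + E 2 * X * E 0 := by
    have : X = (E 0 + E 1 + E 2) * X * (E 0 + E 1 + E 2) := by rw [hsum, mul_one, one_mul]
    rw [this]
    simp [mul_add, add_mul, mul_assoc, hmul, hmul']
    abel
  have c0 : (E 0 - E 2) * (E 0 * X * E 0 + E 1 * X * E 1 + E 2 * X * E 2) -
      (E 0 * X * E 0 + E 1 * X * E 1 + E 2 * X * E 2) * (E 0 - E 2) = 0 := by
    simp [mul_add, add_mul, mul_sub, sub_mul, mul_assoc, hmul, hmul']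
  generalize E 0 * X * E 0 + E 1 * X * E 1 + E 2 * X * E 2 = x0 at *
  generalize E 0 * X * E 1 + E 1 * X * E 2 = x1 at *
  generalize E 1 * X * E 0 + E 2 * X * E 1 = y1 at *
  generalize E 0 * X * E 2 = x2 at *
  generalize E 2 * X * E 0 = y2 at *
  generalize E 0 - E 2 = D at *
  have hbr : ∀ a b c d e : K, a • x2 + b • x1 + c • x0 + d • y1 + e • y2 ∈ g →
      (2 * a) • x2 + b • x1 + (0 : K) • x0 + (-d) • y1 + (-2 * e) • y2 ∈ g := by
    intro a b c d e hm
    have h1 := hg D hH _ hm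
    have h2 : D * (a • x2 + b • x1 + c • x0 + d • y1 + e • y2) -
        (a • x2 + b • x1 + c • x0 + d • y1 + e • y2) * D =
        a • (D * x2 - x2 * D) + b • (D * x1 - x1 * D) + c • (D * x0 - x0 * D) +
        d • (D * y1 - y1 * D) + e • (D * y2 - y2 * D) := by
      simp only [mul_add, add_mul, mul_smul_comm, smul_mul_assoc, smul_sub]
      abel
    rw [h2, a2, a1, b1, b2, c0] at h1
    convert h1 using 1
    module
  have d0 : (1 : K) • x2 + (1 : K) • x1 + (1 : K) • x0 + (1 : K) • y1 + (1 : K) • y2 ∈ g := by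
    rw [e0] at hX
    simpa using hX
  have d1 := hbr _ _ _ _ _ d0
  have d2 := hbr _ _ _ _ _ d1
  have d3 := hbr _ _ _ _ _ d2
  have d4 := hbr _ _ _ _ _ d3
  have m2 : x2 ∈ g := by
    have := g.add_mem (g.smul_mem (1 / 24 : K) (g.sub_mem d4 d2))
      (g.smul_mem (1 / 12 : K) (g.sub_mem d3 d1))
    convert this using 1
    module
  have n2 : y2 ∈ g := by
    have := g.sub_mem (g.smul_mem (1 / 24 : K) (g.sub_mem d4 d2))
      (g.smul_mem (1 / 12 : K) (g.sub_mem d3 d1))
    convert this using 1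
    module
  have m1 : x1 ∈ g := by
    have := g.sub_mem (g.sub_mem (g.smul_mem (1 / 2 : K) (g.add_mem d1 d2))
      (g.smul_mem (3 : K) m2)) n2
    convert this using 1
    module
  have n1 : y1 ∈ g := by
    have := g.sub_mem (g.sub_mem (g.smul_mem (1 / 2 : K) (g.sub_mem d2 d1))
      (g.smul_mem (3 : K) n2)) m2
    convert this using 1
    module
  have m0 : x0 ∈ g := by
    have := g.sub_mem (g.sub_mem (g.sub_mem (g.sub_mem d0 m2) m1) n1) n2
    convert this using 1
    module
  exact ⟨m2, n2, m1, n1, m0⟩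

end Pool.Agent.H53Toric
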