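import Pool.Agent.Lib.H53Toric.Three

/-!
# Three blocks with a corner of rank one: all skew operators belong to the Lie algebra
-/

set_option autoImplicit false
set_option linter.unusedSectionVars false
namespace Pool.Agent.H53Toric
open Module
variable {K : Type*} [Field K] {V : Type*} [AddCommGroup V] [Module K V]

/-- A decomposition into three blocks. -/
structure P3 (g : Submodule K (Module.End K V))
    (adj : Module.End K V →ₗ[K] Module.End K V) (E : Fin 3 → Module.End K V)
    (N M : Module.End K V) : Prop where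
  sum : E 0 + E 1 + E 2 = 1
  mul : ∀ i j, E i * E j = if i = j then E i else 0
  adj0 : adj (E 0) = E 2
  adj1 : adj (E 1) = E 1
  EN : ∀ i, E i * N = if i = 0 then N else 0
  NE : ∀ i, N * E i = if i = 2 then N else 0
  EM : ∀ i, E i * M = if i = 2 then M else 0
  ME : ∀ i, M * E i = if i = 0 then M else 0
  NM : N * M = E 0
  MN : M * N = E 2
  memN : N ∈ g
  memM : M ∈ g
  m1 : ∀ X ∈ g, E 0 * X * E 1 + E 1 * X * E 2 ∈ g
  n1 : ∀ X ∈ g, E 1 * X * E 0 + E 2 * X * E 1 ∈ g
  m0 : ∀ X ∈ g, E 0 * X * E 0 + E 1 * X * E 1 + E 2 * X * E 2 ∈ g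

section

variable [CharZero K] [FiniteDimensional K V] [Nontrivial V]
variable {g : Submodule K (Module.End K V)} {adj : Module.End K V →ₗ[K] Module.End K V}
  {E : Fin 3 → Module.End K V} {N M : Module.End K V} (h : Base g adj)
  (P : P3 g adj E N M) {X X' : Module.End K V}

include P

theorem P3.mul' (i j : Fin 3) (Z : Module.End K V) :
    E i * (E j * Z) = if i = j then E i * Z else 0 := by
  rw [← mul_assoc, P.mul]
  split_ifs <;> simp

theorem P3.EN' (i : Fin 3) (Z : Module.End K V) : E i * (N * Z) = if i = 0 then N * Z else 0 := by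
  rw [← mul_assoc, P.EN]; split_ifs <;> simp

theorem P3.NE' (i : Fin 3) (Z : Module.End K V) : N * (E i * Z) = if i = 2 then N * Z else 0 := by
  rw [← mul_assoc, P.NE]; split_ifs <;> simp

theorem P3.EM' (i : Fin 3) (Z : Module.End K V) : E i * (M * Z) = if i = 2 then M * Z else 0 := by
  rw [← mul_assoc, P.EM]; split_ifs <;> simp

theorem P3.ME' (i : Fin 3) (Z : Module.End K V) : M * (E i * Z) = if i = 0 then M * Z else 0 := by
  rw [← mul_assoc, P.ME]; split_ifs <;> simp

theorem P3.NM' (Z : Module.End K V) : N * (M * Z) = E 0 * Z := by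
  rw [← mul_assoc, P.NM]

theorem P3.MN' (Z : Module.End K V) : M * (N * Z) = E 2 * Z := by
  rw [← mul_assoc, P.MN]

include h

/-- The middle space is filled by `g u`. -/
theorem P3.fill {u : V} (hu0 : u ≠ 0) (hu : E 0 u = u) (hline : ∀ v, ∃ c : K, E 0 v = c • u)
    (v : V) : ∃ X ∈ g, E 1 (X u) = E 1 v := by
  have hM0 : ∀ w : V, E 1 (M w) = 0 := by
    intro w
    change (E 1 * M) w = 0
    rw [P.EM]; simp
  have hu12 : E 1 u = 0 := by
    rw [← hu]
    change (E 1 * E 0) u = 0
    rw [P.mul]; simp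
  have h1212 : ∀ w : V, E 1 (E 1 w) = E 1 w := by
    intro w
    change (E 1 * E 1) w = _
    rw [P.mul]; simp
  have h3 : ∀ w : V, ∃ c : K, E 2 w = c • M u := by
    intro w
    obtain ⟨c, hc⟩ := hline (N w)
    refine ⟨c, ?_⟩
    rw [← P.MN]
    have e0 := P.EN 0
    rw [if_pos rfl] at e0
    change M (N w) = _
    rw [← e0]
    change M (E 0 (N w)) = _
    rw [hc, map_smul]
  have hsumv : ∀ w : V, w = E 0 w + E 1 w + E 2 w := by
    intro w
    have := LinearMap.congr_fun P.sum w
    simp only [LinearMap.add_apply, Module.End.one_apply] at this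
    exact this.symm
  let W : Submodule K V :=
    { carrier := {v | ∃ a b : K, ∃ X ∈ g, v = a • u + E 1 (X u) + b • M u}
      add_mem' := by
        rintro _ _ ⟨a, b, X, hX, rfl⟩ ⟨a', b', X', hX', rfl⟩
        refine ⟨a + a', b + b', X + X', g.add_mem hX hX', ?_⟩
        rw [LinearMap.add_apply X, map_add]
        module
      zero_mem' := ⟨0, 0, 0, g.zero_mem, by simp⟩
      smul_mem' := by
        rintro c _ ⟨a, b, X, hX, rfl⟩
        refine ⟨c * a, c * b, c • X, g.smul_mem c hX, ?_⟩
        rw [LinearMap.smul_apply c X, map_smul]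
        module }
  have hmemW : ∀ w : V, (∃ X ∈ g, E 1 w = E 1 (X u)) → w ∈ W := by
    rintro w ⟨X, hX, hw⟩
    obtain ⟨a, ha⟩ := hline w
    obtain ⟨b, hb⟩ := h3 w
    refine ⟨a, b, X, hX, ?_⟩
    rw [← ha, ← hb, ← hw]
    exact hsumv w
  have hst : ∀ X ∈ g, ∀ w ∈ W, X w ∈ W := by
    rintro X hX _ ⟨a, b, X', hX', rfl⟩
    rw [map_add, map_add, map_smul, map_smul]
    apply W.add_mem
    · apply W.add_mem
      · apply W.smul_mem
        exact hmemW _ ⟨X, hX, rfl⟩
      · -- the middle term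
        apply hmemW
        obtain ⟨c, hc⟩ := hline (X u)
        set X0 := E 0 * X * E 0 + E 1 * X * E 1 + E 2 * X * E 2 with hX0
        have hX0g : X0 ∈ g := P.m0 X hX
        set Xm := E 1 * X' * E 0 + E 2 * X' * E 1 with hXm
        have hXmg : Xm ∈ g := P.n1 X' hX'
        refine ⟨X0 * Xm - Xm * X0 + c • X', g.add_mem (h.lie _ hX0g _ hXmg)
          (g.smul_mem c hX'), ?_⟩
        have e1 : E 1 * (X0 * Xm - Xm * X0) * E 0 =
            E 1 * X * E 1 * X' * E 0 - E 1 * X' * (E 0 * X * E 0) := by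
          rw [hX0, hXm]
          simp [mul_add, add_mul, mul_sub, sub_mul, mul_assoc, P.mul, P.mul']
        have e2 := LinearMap.congr_fun e1 u
        simp only [LinearMap.sub_apply, Module.End.mul_apply] at e2
        rw [hu, hc, map_smul, map_smul] at e2
        rw [LinearMap.add_apply (X0 * Xm - Xm * X0), map_add, LinearMap.smul_apply, map_smul,
          LinearMap.sub_apply]
        simp only [Module.End.mul_apply]
        rw [e2]
        abel
    · apply W.smul_mem
      apply hmemW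
      set Xp := E 0 * X * E 1 + E 1 * X * E 2 with hXp
      have hXpg : Xp ∈ g := P.m1 X hX
      refine ⟨Xp * M - M * Xp, h.lie _ hXpg _ P.memM, ?_⟩
      have e1 : E 1 * (Xp * M - M * Xp) * E 0 = E 1 * X * M := by
        rw [hXp]
        simp [mul_add, add_mul, mul_sub, mul_assoc, P.mul, P.mul', P.ME, P.EM,
          P.EM']
      have e2 := LinearMap.congr_fun e1 u
      simp only [Module.End.mul_apply] at e2
      rw [hu] at e2
      exact e2.symm
  have huW : u ∈ W := hmemW u ⟨0, g.zero_mem, by simp [hu12]⟩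
  have hW : W = ⊤ := by
    rcases h.irr W hst with hW | hW
    · rw [hW] at huW
      exact absurd ((Submodule.mem_bot K).1 huW) hu0
    · exact hW
  have hv : v ∈ W := by rw [hW]; trivial
  obtain ⟨a, b, X, hX, rfl⟩ := hv
  refine ⟨X, hX, ?_⟩
  rw [map_add, map_add, map_smul, map_smul, hu12, hM0, h1212]
  simp

theorem P3.skew_mem {u : V} (hu0 : u ≠ 0) (hu : E 0 u = u)
    (hline : ∀ v, ∃ c : K, E 0 v = c • u) {X : Module.End K V} (hX : adj X = -X) : X ∈ g := by
  have adjh := P.adj1
  have hEE : ∀ Y : Module.End K V, ∃ c : K, E 0 * Y * E 0 = c • E 0 := by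
    intro Y
    obtain ⟨c, hc⟩ := hline (Y u)
    refine ⟨c, ?_⟩
    ext v
    obtain ⟨a, ha⟩ := hline v
    change E 0 (Y (E 0 v)) = c • E 0 v
    rw [ha, map_smul, map_smul, hc, smul_comm]
  have heq : ∀ Y Y' : Module.End K V, E 1 (Y u) = E 1 (Y' u) →
      E 1 * Y * E 0 = E 1 * Y' * E 0 := by
    intro Y Y' hY
    ext v
    obtain ⟨a, ha⟩ := hline v
    change E 1 (Y (E 0 v)) = E 1 (Y' (E 0 v))
    rw [ha, map_smul, map_smul, map_smul, map_smul, hY]
  have hH : E 0 - E 2 ∈ g := by
    have := h.lie N P.memN M P.memM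
    rwa [P.NM, P.MN] at this
  -- lower part
  have hlow : ∀ Y : Module.End K V,
      E 1 * Y * E 0 - E 2 * adj Y * E 1 ∈ g := by
    intro Y
    obtain ⟨X', hX', hX'u⟩ := P.fill h hu0 hu hline (Y u)
    have e1 := heq X' Y hX'u
    have e2 := congrArg adj e1
    rw [h.adj_mul, h.adj_mul, h.adj_mul, h.adj_mul, adjh, P.adj0, h.skew X' hX'] at e2
    have e3 : E 2 * adj Y * E 1 = -(E 2 * X' * E 1) := by
      rw [mul_assoc, ← e2]; noncomm_ring
    rw [← e1, e3, sub_neg_eq_add]
    exact P.n1 X' hX'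
  -- upper part
  have hupp : ∀ Y : Module.End K V,
      E 1 * Y * E 2 - E 0 * adj Y * E 1 ∈ g := by
    intro Y
    have h1 := h.lie _ (hlow (Y * M)) N P.memN
    have adjN := h.skew N P.memN
    have adjM := h.skew M P.memM
    have e1 : (E 1 * (Y * M) * E 0 - E 2 * adj (Y * M) * E 1) * N -
        N * (E 1 * (Y * M) * E 0 - E 2 * adj (Y * M) * E 1) =
        E 1 * Y * E 2 - E 0 * adj Y * E 1 := by
      rw [h.adj_mul, adjM]
      simp [mul_add, add_mul, mul_sub, sub_mul, mul_assoc, P.EN, P.NE', P.MN, P.ME, P.NM',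
        P.EM']
    rwa [e1] at h1
  -- the pieces of X
  have p1 : E 1 * X * E 0 + E 2 * X * E 1 ∈ g := by
    have := hlow X
    rw [hX] at this
    convert this using 1
    noncomm_ring
  have p2 : E 1 * X * E 2 + E 0 * X * E 1 ∈ g := by
    have := hupp X
    rw [hX] at this
    convert this using 1
    noncomm_ring
  have p3 : E 0 * X * E 2 ∈ g := by
    obtain ⟨c, hc⟩ := hEE (X * M)
    have : E 0 * X * E 2 = c • N := by
      calc E 0 * X * E 2 = (E 0 * (X * M) * E 0) * N := by
            simp [mul_assoc, P.EN, P.MN]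
        _ = c • N := by rw [hc, smul_mul_assoc, P.EN 0, if_pos rfl]
    rw [this]; exact g.smul_mem _ P.memN
  have p4 : E 2 * X * E 0 ∈ g := by
    obtain ⟨c, hc⟩ := hEE (N * X)
    have : E 2 * X * E 0 = c • M := by
      calc E 2 * X * E 0 = M * (E 0 * (N * X) * E 0) := by
            simp [mul_assoc, P.ME', P.MN']
        _ = c • M := by rw [hc, mul_smul_comm, P.ME 0, if_pos rfl]
    rw [this]; exact g.smul_mem _ P.memM
  have p5 : E 0 * X * E 0 + E 2 * X * E 2 ∈ g := by
    obtain ⟨c, hc⟩ := hEE X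
    have e1 := congrArg adj hc
    rw [h.adj_mul, h.adj_mul, map_smul, P.adj0, hX] at e1
    have e2 : E 2 * X * E 2 = -(c • E 2) := by rw [← e1]; noncomm_ring
    have : E 0 * X * E 0 + E 2 * X * E 2 = c • (E 0 - E 2) := by
      rw [hc, e2, smul_sub, sub_eq_add_neg]
    rw [this]; exact g.smul_mem _ hH
  -- the middle block
  have hmid : ∀ Y Y' : Module.End K V, E 1 * (Y * E 0 * Y') * E 1 -
      adj (E 1 * (Y * E 0 * Y') * E 1) ∈ g := by
    intro Y Y'
    obtain ⟨c, hc⟩ := hEE (Y' * E 1 * Y)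
    have e1 := congrArg adj hc
    simp only [h.adj_mul, map_smul, P.adj0, adjh] at e1
    have h1 := h.lie _ (hlow Y) _ (hupp (adj Y'))
    have e2 : (E 1 * Y * E 0 - E 2 * adj Y * E 1) *
          (E 1 * adj Y' * E 2 - E 0 * adj (adj Y') * E 1) -
        (E 1 * adj Y' * E 2 - E 0 * adj (adj Y') * E 1) *
          (E 1 * Y * E 0 - E 2 * adj Y * E 1) =
        (E 0 * (Y' * E 1 * Y) * E 0 -
          E 2 * (adj Y * (E 1 * adj Y')) * E 2) -
        (E 1 * (Y * E 0 * Y') * E 1 -
          adj (E 1 * (Y * E 0 * Y') * E 1)) := by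
      simp only [h.adj_mul, h.adj_adj, P.adj0, adjh]
      simp [mul_sub, sub_mul, mul_assoc, P.mul']
      abel
    rw [e2] at h1
    have e3 : E 2 * (adj Y * (E 1 * adj Y')) * E 2 = c • E 2 := by
      rw [← e1]; noncomm_ring
    rw [hc, e3, ← smul_sub] at h1
    have h2 := g.sub_mem (g.smul_mem c hH) h1
    rwa [sub_sub_cancel] at h2
  have hmid' : ∀ Y : Module.End K V, E 1 * Y * E 1 -
      adj (E 1 * Y * E 1) ∈ g := by
    obtain ⟨f, hf0, -⟩ := Submodule.exists_le_ker_of_notMem (p := (⊥ : Submodule K V))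
      (v := u) (by rw [Submodule.mem_bot]; exact hu0)
    intro Y
    let b := Module.finBasis K V
    have hY : Y = ∑ i, ((f.smulRight ((f u)⁻¹ • Y (b i)) : Module.End K V) * E 0 *
        ((b.coord i).smulRight u : Module.End K V)) := by
      ext v
      rw [LinearMap.sum_apply]
      have hv : v = ∑ i, b.coord i v • b i := (b.sum_repr v).symm
      nth_rw 1 [hv]
      rw [map_sum]
      apply Finset.sum_congr rfl
      intro i _
      simp only [Module.End.mul_apply, LinearMap.smulRight_apply, map_smul, hu]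
      rw [smul_smul (f u), mul_inv_cancel₀ hf0, one_smul]
    rw [hY, Finset.mul_sum, Finset.sum_mul, map_sum, ← Finset.sum_sub_distrib]
    exact g.sum_mem fun i _ => hmid _ _
  have p6 : E 1 * X * E 1 ∈ g := by
    have h1 := hmid' X
    rw [h.adj_mul, h.adj_mul, adjh, hX] at h1
    have h2 := g.smul_mem (2 : K)⁻¹ h1
    have : (2 : K)⁻¹ • (E 1 * X * E 1 - E 1 * (-X * E 1)) =
        E 1 * X * E 1 := by
      have e : E 1 * X * E 1 - E 1 * (-X * E 1) =
          (2 : K) • (E 1 * X * E 1) := by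
        rw [two_smul]; noncomm_ring
      rw [e, smul_smul, inv_mul_cancel₀ (by norm_num), one_smul]
    rwa [this] at h2
  have hall := g.add_mem (g.add_mem (g.add_mem (g.add_mem (g.add_mem p1 p2) p3) p4) p5) p6
  have e : X = (E 0 + E 1 + E 2) * X * (E 0 + E 1 + E 2) := by
    rw [P.sum, one_mul, mul_one]
  rw [e]
  convert hall using 1
  noncomm_ring

end

end Pool.Agent.H53Toric
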