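import Pool.Agent.Lib.H53Toric.Three2

/-!
# A semisimple element of rank two forces the full symplectic Lie algebra
-/

set_option autoImplicit false
set_option linter.unusedSectionVars false
namespace Pool.Agent.H53Toric
open Module
variable {K : Type*} [Field K] {V : Type*} [AddCommGroup V] [Module K V]
variable [IsAlgClosed K] [CharZero K] [FiniteDimensional K V] [Nontrivial V]

/-- The lower corner does not vanish. -/
theorem corner_ne {g : Submodule K (Module.End K V)}
    {adj : Module.End K V →ₗ[K] Module.End K V} (h : Base g adj)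
    {E : Fin 3 → Module.End K V} (hsum : E 0 + E 1 + E 2 = 1)
    (hmul : ∀ i j, E i * E j = if i = j then E i else 0) (hH : E 0 - E 2 ∈ g)
    (adj0 : adj (E 0) = E 2) (adj1 : adj (E 1) = E 1)
    {u : V} (hu0 : u ≠ 0) (hu : E 0 u = u) (hline : ∀ v, ∃ c : K, E 0 v = c • u)
    (hsymp : ∀ Z : Module.End K V, E 2 * Z * E 0 = Z → adj Z = Z → Z = 0) :
    ∃ X ∈ g, E 2 * X * E 0 ≠ 0 := by
  have adj2 : adj (E 2) = E 0 := by rw [← adj0, h.adj_adj]
  have hmul' : ∀ i j (Z : Module.End K V), E i * (E j * Z) = if i = j then E i * Z else 0 := by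
    intro i j Z
    rw [← mul_assoc, hmul]
    split_ifs <;> simp
  by_contra hcon
  push Not at hcon
  have hZ : ∀ X ∈ g, ∀ X' ∈ g, E 2 * X * E 1 * X' * E 0 = 0 := by
    intro X hX X' hX'
    have h1 := hcon _ (h.lie X hX X' hX')
    have h2 : E 2 * (X * X' - X' * X) * E 0 =
        (E 2 * X * E 0) * X' * E 0 + E 2 * X * E 1 * X' * E 0 + E 2 * X * (E 2 * X' * E 0) -
        ((E 2 * X' * E 0) * X * E 0 + E 2 * X' * E 1 * X * E 0 + E 2 * X' * (E 2 * X * E 0)) := by
      calc E 2 * (X * X' - X' * X) * E 0 =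
          E 2 * X * (E 0 + E 1 + E 2) * X' * E 0 - E 2 * X' * (E 0 + E 1 + E 2) * X * E 0 := by
            rw [hsum]; noncomm_ring
        _ = _ := by noncomm_ring
    rw [h2, hcon X hX, hcon X' hX'] at h1
    have h3 : E 2 * X * E 1 * X' * E 0 = E 2 * X' * E 1 * X * E 0 := by
      have h4 : E 2 * X * E 1 * X' * E 0 - E 2 * X' * E 1 * X * E 0 = 0 := by
        rw [← h1]; noncomm_ring
      exact sub_eq_zero.1 h4
    apply hsymp
    · simp [mul_assoc, hmul, hmul']
    · simp only [h.adj_mul, adj0, adj1, adj2, h.skew X hX, h.skew X' hX']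
      rw [h3]
      noncomm_ring
  have hu12 : E 1 u = 0 := by
    rw [← hu]
    change (E 1 * E 0) u = 0
    rw [hmul]; simp
  have hsumv : ∀ w : V, w = E 0 w + E 1 w + E 2 w := by
    intro w
    have := LinearMap.congr_fun hsum w
    simp only [LinearMap.add_apply, Module.End.one_apply] at this
    exact this.symm
  let W : Submodule K V :=
    { carrier := {v | ∃ a : K, ∃ X ∈ g, v = a • u + E 1 (X u)}
      add_mem' := by
        rintro _ _ ⟨a, X, hX, rfl⟩ ⟨a', X', hX', rfl⟩
        refine ⟨a + a', X + X', g.add_mem hX hX', ?_⟩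
        rw [LinearMap.add_apply X, map_add]
        module
      zero_mem' := ⟨0, 0, g.zero_mem, by simp⟩
      smul_mem' := by
        rintro c _ ⟨a, X, hX, rfl⟩
        refine ⟨c * a, c • X, g.smul_mem c hX, ?_⟩
        rw [LinearMap.smul_apply c X, map_smul]
        module }
  have hmemW : ∀ w : V, E 2 w = 0 → (∃ X ∈ g, E 1 w = E 1 (X u)) → w ∈ W := by
    rintro w hw0 ⟨X, hX, hw⟩
    obtain ⟨a, ha⟩ := hline w
    refine ⟨a, X, hX, ?_⟩
    rw [← ha, ← hw]
    nth_rw 1 [hsumv w]
    rw [hw0, add_zero]
  have hst : ∀ X ∈ g, ∀ w ∈ W, X w ∈ W := by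
    rintro X hX _ ⟨a, X', hX', rfl⟩
    rw [map_add, map_smul]
    apply W.add_mem
    · apply W.smul_mem
      refine hmemW _ ?_ ⟨X, hX, rfl⟩
      have := LinearMap.congr_fun (hcon X hX) u
      simp only [Module.End.mul_apply, hu, LinearMap.zero_apply] at this
      exact this
    · apply hmemW
      · have := LinearMap.congr_fun (hZ X hX X' hX') u
        simp only [Module.End.mul_apply, hu, LinearMap.zero_apply] at this
        exact this
      · obtain ⟨c, hc⟩ := hline (X u)
        obtain ⟨-, -, -, hm, -⟩ := three_mem h.lie hsum hmul hH hX'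
        obtain ⟨-, -, -, -, h0⟩ := three_mem h.lie hsum hmul hH hX
        set X0 := E 0 * X * E 0 + E 1 * X * E 1 + E 2 * X * E 2 with hX0
        set Xm := E 1 * X' * E 0 + E 2 * X' * E 1 with hXm
        refine ⟨X0 * Xm - Xm * X0 + c • X', g.add_mem (h.lie _ h0 _ hm)
          (g.smul_mem c hX'), ?_⟩
        have e1 : E 1 * (X0 * Xm - Xm * X0) * E 0 =
            E 1 * X * E 1 * X' * E 0 - E 1 * X' * (E 0 * X * E 0) := by
          rw [hX0, hXm]
          simp [mul_add, add_mul, mul_sub, sub_mul, mul_assoc, hmul, hmul']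
        have e2 := LinearMap.congr_fun e1 u
        simp only [LinearMap.sub_apply, Module.End.mul_apply] at e2
        rw [hu, hc, map_smul, map_smul] at e2
        rw [LinearMap.add_apply (X0 * Xm - Xm * X0), map_add, LinearMap.smul_apply, map_smul,
          LinearMap.sub_apply]
        simp only [Module.End.mul_apply]
        rw [e2]
        abel
  have h2u : E 2 u = 0 := by
    rw [← hu]
    change (E 2 * E 0) u = 0
    rw [hmul]; simp
  have huW : u ∈ W := hmemW u h2u ⟨0, g.zero_mem, by simp [hu12]⟩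
  have hW : W = ⊤ := by
    rcases h.irr W hst with hW | hW
    · rw [hW] at huW
      exact absurd ((Submodule.mem_bot K).1 huW) hu0
    · exact hW
  have hE2 : E 2 = 0 := by
    ext v
    have hv : v ∈ W := by rw [hW]; trivial
    obtain ⟨a, X, hX, rfl⟩ := hv
    rw [map_add, map_smul, h2u]
    change a • (0 : V) + (E 2 * E 1) (X u) = 0
    rw [hmul]; simp
  rw [hE2, map_zero] at adj2
  rw [← adj2] at hu
  exact hu0 hu.symm

/-- **Rank two theorem.** An irreducible Lie algebra of skew operators of a symplectic space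
which contains a diagonalisable element of rank two with eigenvalues `1` and `-1` consists of
all skew operators. -/
theorem rank_two {g : Submodule K (Module.End K V)}
    {adj : Module.End K V →ₗ[K] Module.End K V} (h : Base g adj)
    {e e' : Module.End K V} (hee : e * e = e) (hee' : e * e' = 0) (he'e : e' * e = 0)
    (hadj : adj e = e') (hD : e - e' ∈ g)
    {u : V} (hu0 : u ≠ 0) (hu : e u = u) (hline : ∀ v, ∃ c : K, e v = c • u)
    (hsymp : ∀ Z : Module.End K V, e' * Z * e = Z → adj Z = Z → Z = 0)
    {X : Module.End K V} (hX : adj X = -X) : X ∈ g := by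
  have he'e' : e' * e' = e' := by
    rw [← hadj, ← h.adj_mul, hee]
  have adj1 : adj 1 = 1 := by
    have h1 := h.adj_mul (adj 1) 1
    rw [mul_one, h.adj_adj, mul_one] at h1
    exact h1.symm
  have hadj' : adj e' = e := by rw [← hadj, h.adj_adj]
  set E : Fin 3 → Module.End K V := ![e, 1 - e - e', e'] with hE
  have E0 : E 0 = e := rfl
  have E1 : E 1 = 1 - e - e' := rfl
  have E2 : E 2 = e' := rfl
  have hsum : E 0 + E 1 + E 2 = 1 := by rw [E0, E1, E2]; abel
  have hmul : ∀ i j, E i * E j = if i = j then E i else 0 := by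
    intro i j
    fin_cases i <;> fin_cases j <;>
      simp [hE, mul_sub, sub_mul, hee, hee', he'e, he'e']
  have hH : E 0 - E 2 ∈ g := hD
  have adjE0 : adj (E 0) = E 2 := hadj
  have adjE1 : adj (E 1) = E 1 := by
    rw [E1, map_sub, map_sub, adj1, hadj, hadj']; abel
  obtain ⟨X₁, hX₁, hM0⟩ := corner_ne h hsum hmul hH adjE0 adjE1 hu0 hu hline hsymp
  set M := E 2 * X₁ * E 0 with hM
  obtain ⟨-, hMg, -⟩ := three_mem h.lie hsum hmul hH hX₁
  have hmul' : ∀ i j (Z : Module.End K V), E i * (E j * Z) = if i = j then E i * Z else 0 := by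
    intro i j Z
    rw [← mul_assoc, hmul]
    split_ifs <;> simp
  have hM2 : M * M = 0 := by
    rw [hM]; simp [mul_assoc, hmul']
  obtain ⟨N₀, hN₀, hMN⟩ := exists_partner h.lie h.irr h.tr hMg hM2
  set N := E 0 * N₀ * E 2 with hN
  obtain ⟨hNg, -⟩ := three_mem h.lie hsum hmul hH hN₀
  have hEM : ∀ i, E i * M = if i = 2 then M else 0 := by
    intro i
    rw [hM]
    fin_cases i <;> simp [mul_assoc, hmul']
  have hME : ∀ i, M * E i = if i = 0 then M else 0 := by
    intro i
    rw [hM]
    fin_cases i <;> simp [mul_assoc, hmul]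
  have hEN : ∀ i, E i * N = if i = 0 then N else 0 := by
    intro i
    rw [hN]
    fin_cases i <;> simp [mul_assoc, hmul']
  have hNE : ∀ i, N * E i = if i = 2 then N else 0 := by
    intro i
    rw [hN]
    fin_cases i <;> simp [mul_assoc, hmul]
  have hMNM : M * N * M = M := by
    calc M * N * M = (M * E 0) * N₀ * (E 2 * M) := by rw [hN]; noncomm_ring
      _ = M := by rw [hME, hEM, if_pos rfl, if_pos rfl, hMN]
  have hNM : N * M = E 0 := by
    have h1 : ∃ c : K, N * M = c • E 0 := by
      obtain ⟨c, hc⟩ := hline (N (M u))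
      refine ⟨c, ?_⟩
      ext v
      obtain ⟨a, ha⟩ := hline v
      have e1 : N * M = E 0 * (N * M) * E 0 := by
        have h1 := hEN 0
        have h2 := hME 0
        rw [if_pos rfl] at h1 h2
        have h3 : ∀ a b c d : Module.End K V, a * (b * c) * d = (a * b) * (c * d) := by
          intro a b c d; noncomm_ring
        rw [h3, h1, h2]
      rw [e1]
      change e (N (M (e v))) = c • e v
      rw [ha, map_smul, map_smul, map_smul, hc, smul_comm]
    obtain ⟨c, hc⟩ := h1
    have h2 : M = c • M := by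
      calc M = M * (N * M) := by rw [← mul_assoc, hMNM]
        _ = c • M := by rw [hc, mul_smul_comm, hME, if_pos rfl]
    have h3 : (1 - c) • M = 0 := by rw [sub_smul, one_smul, ← h2, sub_self]
    rcases smul_eq_zero.1 h3 with h3 | h3
    · rw [hc, ← sub_eq_zero.1 h3, one_smul]
    · exact absurd h3 hM0
  have hMN' : M * N = E 2 := by
    have h1 := congrArg adj hNM
    rw [h.adj_mul, h.skew M hMg, h.skew N hNg, adjE0] at h1
    rw [← h1]; noncomm_ring
  have P : P3 g adj E N M :=
    { sum := hsum
      mul := hmul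
      adj0 := adjE0
      adj1 := adjE1
      EN := hEN
      NE := hNE
      EM := hEM
      ME := hME
      NM := hNM
      MN := hMN'
      memN := hNg
      memM := hMg
      m1 := fun Y hY => (three_mem h.lie hsum hmul hH hY).2.2.1
      n1 := fun Y hY => (three_mem h.lie hsum hmul hH hY).2.2.2.1
      m0 := fun Y hY => (three_mem h.lie hsum hmul hH hY).2.2.2.2 }
  exact P.skew_mem h hu0 hu hline hX

end Pool.Agent.H53Toric
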