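import Pool.Agent.Lib.H53Toric.Zar

/-!
# The torus generated by a diagonalisable matrix
-/

set_option autoImplicit false
set_option linter.unusedSectionVars false
namespace Pool.Agent.H53Toric
open MvPolynomial Matrix

variable {ι : Type*} [Fintype ι] [DecidableEq ι] {K : Type*} [Field K]

/-- The matrix `P diag(d) Q` with entries in a monoid algebra. -/
noncomputable def gen (P Q : Matrix ι ι K) {M : Type*} [CommGroup M] (d : ι → M) :
    MvPolynomial (ι × ι) K →ₐ[K] MonoidAlgebra K M :=
  aeval (fun p => ∑ k, MonoidAlgebra.single (d k) (P p.1 k * Q k p.2))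

theorem lift_gen (P Q : Matrix ι ι K) {M : Type*} [CommGroup M] (d : ι → M) {R : Type*}
    [CommRing R] [Algebra K R] (χ : M →* R) (f : MvPolynomial (ι × ι) K) :
    MonoidAlgebra.lift K R M χ (gen P Q d f) =
      aeval (fun p : ι × ι => ∑ k, (P p.1 k * Q k p.2) • χ (d k)) f := by
  have : (MonoidAlgebra.lift K R M χ).comp (gen P Q d) =
      aeval (fun p : ι × ι => ∑ k, (P p.1 k * Q k p.2) • χ (d k)) := by
    apply MvPolynomial.algHom_ext
    intro p
    rw [AlgHom.comp_apply, gen, aeval_X, aeval_X, map_sum]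
    simp only [MonoidAlgebra.lift_single]
  exact congrArg (fun φ => φ f) this

theorem map_gen (P Q : Matrix ι ι K) {M N : Type*} [CommGroup M] [CommGroup N] (d : ι → M)
    (π : M →* N) (f : MvPolynomial (ι × ι) K) :
    MonoidAlgebra.mapDomainAlgHom K K π (gen P Q d f) = gen P Q (fun k => π (d k)) f := by
  have : (MonoidAlgebra.mapDomainAlgHom K K π).comp (gen P Q d) =
      gen P Q (fun k => π (d k)) := by
    apply MvPolynomial.algHom_ext
    intro p
    rw [AlgHom.comp_apply, gen, gen, aeval_X, aeval_X, map_sum]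
    simp only [MonoidAlgebra.mapDomainAlgHom_apply, MonoidAlgebra.mapDomain_single]
  exact congrArg (fun φ => φ f) this

/-- The character `u ↦ u ^ n`. -/
def chr (K : Type*) [Field K] (n : ℕ) : Kˣ →* K :=
  (Units.coeHom K).comp (powMonoidHom n)

theorem chr_apply (n : ℕ) (u : Kˣ) : chr K n u = (u : K) ^ n := by
  simp [chr]

theorem eq_zero_of_chr {F : MonoidAlgebra K Kˣ}
    (h : ∀ n : ℕ, MonoidAlgebra.lift K K Kˣ (chr K n) F = 0) : F = 0 := by
  have h1 := linearIndependent_monoidHom (Multiplicative ℕ) K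
  have hinj : Function.Injective (fun u : Kˣ => powersHom K (u : K)) := by
    intro u v huv
    exact Units.ext ((powersHom K).injective huv)
  have h2 := h1.comp _ hinj
  rw [linearIndependent_iff] at h2
  have h3 := h2 F.coeff (by
    rw [Finsupp.linearCombination_apply]
    funext m
    have h4 := h m.toAdd
    rw [MonoidAlgebra.lift_apply] at h4
    rw [Finsupp.sum, Finset.sum_apply]
    rw [Finsupp.sum] at h4
    rw [Pi.zero_apply, ← h4]
    apply Finset.sum_congr rfl
    intro u _
    rw [chr_apply, Pi.smul_apply]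
    simp [powersHom_apply])
  exact MonoidAlgebra.coeff_eq_zero.1 h3

theorem diag_pow {P Q : Matrix ι ι K} (hQP : Q * P = 1) (hPQ : P * Q = 1) (d : ι → K) (n : ℕ) :
    (P * Matrix.diagonal d * Q) ^ n = P * Matrix.diagonal (fun k => d k ^ n) * Q := by
  induction n with
  | zero => simp [hPQ]
  | succ n ih =>
    rw [pow_succ, ih]
    calc P * Matrix.diagonal (fun k => d k ^ n) * Q * (P * Matrix.diagonal d * Q) =
        P * Matrix.diagonal (fun k => d k ^ n) * (Q * P) * Matrix.diagonal d * Q := by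
          noncomm_ring
      _ = P * (Matrix.diagonal (fun k => d k ^ n) * Matrix.diagonal d) * Q := by
          rw [hQP]; noncomm_ring
      _ = _ := by
        rw [Matrix.diagonal_mul_diagonal]
        simp only [pow_succ]

theorem diag_apply (P Q : Matrix ι ι K) (d : ι → K) (i j : ι) :
    (P * Matrix.diagonal d * Q) i j = ∑ k, (P i k * Q k j) * d k := by
  rw [Matrix.mul_apply]
  apply Finset.sum_congr rfl
  intro k _
  rw [Matrix.mul_diagonal]
  ring

/-- Polynomials vanishing at all powers vanish at the generic point. -/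
theorem gen_zero {P Q : Matrix ι ι K} (hQP : Q * P = 1) (hPQ : P * Q = 1) {d : ι → Kˣ}
    {f : MvPolynomial (ι × ι) K}
    (hf : ∀ n : ℕ, ev ((P * Matrix.diagonal (fun k => (d k : K)) * Q) ^ n) f = 0) :
    gen P Q d f = 0 := by
  apply eq_zero_of_chr
  intro n
  rw [lift_gen, ← hf n, diag_pow hQP hPQ, ev]
  congr 2
  funext p
  rw [diag_apply]
  apply Finset.sum_congr rfl
  intro k _
  rw [chr_apply, smul_eq_mul]

/-- **Main lemma.** Specialisation to characters which depend only on one independent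
eigenvalue. -/
theorem gen_special {P Q : Matrix ι ι K} (hQP : Q * P = 1) (hPQ : P * Q = 1) {d : ι → Kˣ}
    {f : MvPolynomial (ι × ι) K}
    (hf : ∀ n : ℕ, ev ((P * Matrix.diagonal (fun k => (d k : K)) * Q) ^ n) f = 0)
    {B : Subgroup Kˣ} {a : Kˣ} (ha : ∀ n : ℤ, n ≠ 0 → a ^ n ∉ B) {ε : ι → ℤ}
    (hd : ∀ k, d k * (a ^ ε k)⁻¹ ∈ B) {R : Type*} [CommRing R] [Algebra K R] (w : Rˣ) :
    aeval (fun p : ι × ι => ∑ k, (P p.1 k * Q k p.2) • ((w ^ ε k : Rˣ) : R)) f = 0 := by
  have h0 := gen_zero hQP hPQ hf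
  have h1 := map_gen (N := Kˣ ⧸ B) P Q d (QuotientGroup.mk' B) f
  rw [h0, map_zero] at h1
  let m : Multiplicative ℤ →* Kˣ ⧸ B := zpowersHom (Kˣ ⧸ B) (QuotientGroup.mk' B a)
  have hm : ∀ n : ℤ, m (Multiplicative.ofAdd n) = QuotientGroup.mk' B (a ^ n) := by
    intro n
    rw [zpowersHom_apply, toAdd_ofAdd, map_zpow]
  have hminj : Function.Injective m := by
    rw [injective_iff_map_eq_one]
    intro x hx
    obtain ⟨n, rfl⟩ := Multiplicative.ofAdd.surjective x
    rw [hm, QuotientGroup.mk'_apply, QuotientGroup.eq_one_iff] at hx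
    by_contra hn
    exact ha n (fun h => hn (by rw [h]; rfl)) hx
  have h2 := map_gen (N := Kˣ ⧸ B) P Q (fun k => Multiplicative.ofAdd (ε k)) m f
  have h3 : (fun k => m (Multiplicative.ofAdd (ε k))) = fun k => QuotientGroup.mk' B (d k) := by
    funext k
    rw [hm, QuotientGroup.mk'_apply, QuotientGroup.mk'_apply, QuotientGroup.eq, mul_comm]
    exact hd k
  rw [h3, ← h1] at h2
  have h4 : gen P Q (fun k => Multiplicative.ofAdd (ε k)) f = 0 := by
    apply MonoidAlgebra.mapDomain_injective hminj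
    rw [MonoidAlgebra.mapDomain_zero]
    exact h2
  have h5 := lift_gen P Q (fun k => Multiplicative.ofAdd (ε k))
    ((Units.coeHom R).comp (zpowersHom Rˣ w)) f
  rw [h4, map_zero] at h5
  rw [h5]
  congr 1

end Pool.Agent.H53Toric
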